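import Mathlib

open QuadraticAlgebra

namespace Pool.Agent.SB

/-- The quadratic ring `ℤ[x]/(x^2 - b x + c)`. -/
abbrev Q (b c : ℤ) : Type := QuadraticAlgebra ℤ (-c) b

variable {b c : ℤ}

/-- Determinant of two elements, in the basis `1, ω`. -/
def det (l r : Q b c) : ℤ := l.re * r.im - l.im * r.re

/-- The rational part of `conj l * r`. -/
def tv (l r : Q b c) : ℤ := l.re * r.re + b * l.im * r.re + c * l.im * r.im

/-- The values of the quadratic polynomial `t^2 + b t + c`. -/
def fv (b c t : ℤ) : ℤ := t ^ 2 + b * t + c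

/-- A positively oriented unimodular pair with nonnegative coordinates. -/
structure IsPair (l r : Q b c) : Prop where
  l1 : 0 ≤ l.re
  l2 : 0 ≤ l.im
  r1 : 0 ≤ r.re
  r2 : 0 ≤ r.im
  d : det l r = 1

/-- `w` lies strictly inside the cone spanned by `l` and `r`. -/
def InCone (l r w : Q b c) : Prop := 0 < det l w ∧ 0 < det w r

lemma nm_def (w : Q b c) : norm w = w.re ^ 2 + b * w.re * w.im + c * w.im ^ 2 := by
  rw [norm_def]; ring

lemma nm_nonneg (h : b ^ 2 < 4 * c) (w : Q b c) : 0 ≤ norm w := by
  rw [nm_def]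
  nlinarith [sq_nonneg (2 * w.re + b * w.im), sq_nonneg w.im]

lemma nm_pos (h : b ^ 2 < 4 * c) (w : Q b c) (hw : w ≠ 0) : 0 < norm w := by
  rw [nm_def]
  by_cases h2 : w.im = 0
  · have h1 : w.re ≠ 0 := fun h1 => hw (by ext <;> simp [h1, h2])
    rw [h2]
    have : 0 < w.re ^ 2 := by positivity
    nlinarith
  · have : 0 < w.im ^ 2 := by positivity
    nlinarith [sq_nonneg (2 * w.re + b * w.im)]

lemma norm_mul_norm (l r : Q b c) :
    norm l * norm r = (tv l r) ^ 2 + b * (tv l r) * det l r + c * (det l r) ^ 2 := by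
  rw [nm_def, nm_def, tv, det]; ring

lemma IsPair.norm_mul {l r : Q b c} (h : IsPair l r) : norm l * norm r = fv b c (tv l r) := by
  rw [norm_mul_norm, h.d, fv]; ring

lemma IsPair.left {l r : Q b c} (h : IsPair l r) : IsPair l (l + r) where
  l1 := h.l1
  l2 := h.l2
  r1 := add_nonneg h.l1 h.r1
  r2 := add_nonneg h.l2 h.r2
  d := by
    have := h.d
    simp only [det, re_add, im_add] at *
    linarith

lemma IsPair.right {l r : Q b c} (h : IsPair l r) : IsPair (l + r) r where
  l1 := add_nonneg h.l1 h.r1
  l2 := add_nonneg h.l2 h.r2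
  r1 := h.r1
  r2 := h.r2
  d := by
    have := h.d
    simp only [det, re_add, im_add] at *
    linarith

lemma tv_left (l r : Q b c) : tv l (l + r) = norm l + tv l r := by
  simp only [tv, nm_def, re_add, im_add]; ring

lemma tv_right (l r : Q b c) (h : det l r = 1) : tv (l + r) r = tv l r + norm r := by
  simp only [tv, nm_def, re_add, im_add]; ring

lemma IsPair.ne_zero_left {l r : Q b c} (h : IsPair l r) : l ≠ 0 := by
  rintro rfl; have := h.d; simp [det] at this

lemma IsPair.ne_zero_right {l r : Q b c} (h : IsPair l r) : r ≠ 0 := by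
  rintro rfl; have := h.d; simp [det] at this

lemma IsPair.tv_nonneg (hb : 0 ≤ b) (hc : 0 ≤ c) {l r : Q b c} (h : IsPair l r) : 0 ≤ tv l r := by
  have := h.l1; have := h.l2; have := h.r1; have := h.r2
  unfold tv; positivity

lemma eq_of_det {l r : Q b c} (h : det l r = 1) (w : Q b c) :
    w = (det w r : Q b c) * l + (det l w : Q b c) * r := by
  unfold det at *
  ext
  · simp
    linear_combination (-w.re) * h
  · simp
    linear_combination (-w.im) * h

/-- Descent along the tree: a sign change inside a cone happens at a mediant of a finer cone. -/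
lemma descent (h : b ^ 2 < 4 * c) (F : Q b c → ℝ)
    (hF2 : ∀ (n : ℤ) (w : Q b c), 0 < n → F ((n : Q b c) * w) = F w) (T : ℤ) :
    ∀ (n : ℕ) (l r w : Q b c), det l w + det w r ≤ n → IsPair l r → InCone l r w →
      T ≤ tv l r → F l = F r → F w ≠ F l →
      ∃ l' r', IsPair l' r' ∧ T ≤ tv l' r' ∧ F l' = F r' ∧ F (l' + r') ≠ F l' ∧
        InCone l' r' w := by
  intro n
  induction n with
  | zero =>
    intro l r w hn _ hw
    obtain ⟨h1, h2⟩ := hw
    push_cast at hn
    omega
  | succ n ih =>
    intro l r w hn hp hw hT hlr hFw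
    by_cases hm : F (l + r) ≠ F l
    · exact ⟨l, r, hp, hT, hlr, hm, hw⟩
    push Not at hm
    obtain ⟨h1, h2⟩ := hw
    have hd1 : det (l + r) w = det l w - det w r := by
      simp only [det, re_add, im_add]; ring
    have hd2 : det w (l + r) = det w r - det l w := by
      simp only [det, re_add, im_add]; ring
    rcases lt_trichotomy (det w r) (det l w) with hlt | heq | hgt
    · -- w in cone (l+r, r)
      refine ih (l + r) r w ?_ hp.right ⟨by omega, h2⟩ ?_ (by rw [hm, hlr]) (by rwa [hm])
      · push_cast at hn; omega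
      · rw [tv_right l r hp.d]
        have := nm_nonneg h r
        omega
    · exfalso
      apply hFw
      have hw' : w = ((det l w : ℤ) : Q b c) * (l + r) := by
        conv_lhs => rw [eq_of_det hp.d w]
        rw [heq]; ring
      rw [hw', hF2 _ _ h1, hm]
    · refine ih l (l + r) w ?_ hp.left ⟨h1, by omega⟩ ?_ (by rw [hm]) hFw
      · push_cast at hn; omega
      · rw [tv_left]
        have := nm_nonneg h l
        omega

/-- The set of bad elements. -/
def Bad (F : Q b c → ℝ) (T : ℤ) (w : Q b c) : Prop :=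
  ∃ l r, IsPair l r ∧ T ≤ tv l r ∧ (F l ≠ F r ∨ (F l = F r ∧ F (l + r) ≠ F l)) ∧ InCone l r w

lemma pointwise (h : b ^ 2 < 4 * c) (F : Q b c → ℝ)
    (hF1 : ∀ w, w ≠ 0 → F w = 1 ∨ F w = -1)
    (hF2 : ∀ (n : ℤ) (w : Q b c), 0 < n → F ((n : Q b c) * w) = F w) (T : ℤ)
    (l r w : Q b c) (hp : IsPair l r) (hT : T ≤ tv l r) (hw : InCone l r w) :
    Bad F T w ∨ 1 = (F l + F r) / 2 * F w := by
  by_cases hb : Bad F T w
  · exact Or.inl hb
  right
  have hlr : F l = F r := by
    by_contra hne
    exact hb ⟨l, r, hp, hT, Or.inl hne, hw⟩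
  have hwl : F w = F l := by
    by_contra hne
    obtain ⟨l', r', h1, h2, h3, h4, h5⟩ := descent h F hF2 T (det l w + det w r).toNat l r w
      (by rw [Int.toNat_of_nonneg]; have := hw.1; have := hw.2; omega) hp hw hT hlr hne
    exact hb ⟨l', r', h1, h2, Or.inr ⟨h3, h4⟩, h5⟩
  rw [hwl, ← hlr]
  rcases hF1 l hp.ne_zero_left with h1 | h1 <;> rw [h1] <;> norm_num


lemma pair_re {l r : Q b c} (hp : det l r = 1) :
    l.re * tv l r - c * l.im = norm l * r.re := by
  have h := hp
  simp only [det] at h
  rw [nm_def, tv]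
  linear_combination (c * l.im) * h

lemma pair_im {l r : Q b c} (hp : det l r = 1) :
    l.re + (tv l r + b) * l.im = norm l * r.im := by
  have h := hp
  simp only [det] at h
  rw [nm_def, tv]
  linear_combination (-l.re - b * l.im) * h

lemma inj_aux (hb : 0 ≤ b) (h : b ^ 2 < 4 * c) {l r l' r' : Q b c} (hp : IsPair l r)
    (hp' : IsPair l' r') (ht : tv l r = tv l' r') (hn : norm l = norm l') :
    ¬ 0 < det l l' := by
  intro hD
  have hc : 1 ≤ c := by nlinarith [sq_nonneg b]
  have hdpos : 0 < norm l := nm_pos h l hp.ne_zero_left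
  have hdvd : norm l ∣ det l l' := by
    have e1 := pair_im hp.d
    have e2 := pair_im hp'.d
    rw [← ht, ← hn] at e2
    refine ⟨r.im * l'.im - l.im * r'.im, ?_⟩
    simp only [det]
    linear_combination l'.im * e1 - l.im * e2
  have hle : norm l ≤ det l l' := Int.le_of_dvd hD hdvd
  have hl1 := hp.l1
  have hl2 := hp.l2
  have hl1' := hp'.l1
  have hl2' := hp'.l2
  have hu : 0 ≤ tv l l' := by unfold tv; positivity
  have hN := norm_mul_norm l l'
  rw [← hn] at hN
  have hbu : 0 ≤ b * tv l l' * det l l' := by positivity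
  have hc1 : c = 1 := by
    by_contra hne
    have : 2 ≤ c := by omega
    nlinarith [sq_nonneg (tv l l'), mul_pos hD hD, mul_le_mul hle hle hdpos.le hD.le]
  have hu0 : tv l l' = 0 := by
    by_contra hne
    have : 0 < tv l l' ^ 2 := by positivity
    have hcD : c * det l l' ^ 2 = 1 * det l l' ^ 2 := congrArg (fun z => z * det l l' ^ 2) hc1
    rw [hcD] at hN
    nlinarith [mul_le_mul hle hle hdpos.le hD.le]
  unfold tv at hu0
  have h1 : 0 ≤ l.re * l'.re := by positivity
  have h2 : 0 ≤ b * l.im * l'.re := by positivity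
  have h3 : 0 ≤ c * l.im * l'.im := by positivity
  have h4 : l.re * l'.re = 0 := by omega
  have h5 : c * l.im * l'.im = 0 := by omega
  have h5 : l.im * l'.im = 0 := by
    have h5' : c * (l.im * l'.im) = 0 := by rw [← mul_assoc]; exact h5
    rcases mul_eq_zero.mp h5' with h | h
    · omega
    · exact h
  have h6 : 0 < l.re * l'.im := by
    unfold det at hD
    have : 0 ≤ l.im * l'.re := by positivity
    omega
  have h7 : 0 < l'.im := by
    rcases hl2'.lt_or_eq with h | h
    · exact h
    · rw [← h] at h6; simp at h6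
  have h8 : 0 < l.re := by
    rcases hl1.lt_or_eq with h | h
    · exact h
    · rw [← h] at h6; simp at h6
  have h9 : l'.re = 0 := by
    rcases mul_eq_zero.mp h4 with h | h
    · omega
    · exact h
  have h10 := hp'.d
  unfold det at h10
  rw [h9] at h10
  have h11 : 0 ≤ l'.im * r'.re := mul_nonneg hl2' hp'.r1
  omega

/-- A pair is determined by its value `tv` and the norm of its first member. -/
lemma pair_inj (hb : 0 ≤ b) (h : b ^ 2 < 4 * c) {l r l' r' : Q b c} (hp : IsPair l r)
    (hp' : IsPair l' r') (ht : tv l r = tv l' r') (hn : norm l = norm l') :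
    l = l' ∧ r = r' := by
  have hdpos : 0 < norm l := nm_pos h l hp.ne_zero_left
  have hD : det l l' = 0 := by
    have h1 := inj_aux hb h hp hp' ht hn
    have h2 := inj_aux hb h hp' hp ht.symm hn.symm
    have h3 : det l' l = - det l l' := by unfold det; ring
    omega
  have hl : l = l' := by
    have e := eq_of_det hp.d l'
    rw [hD] at e
    have e' : l' = ((det l' r : ℤ) : Q b c) * l := by simpa using e
    set α := det l' r with hα
    have hN : norm l = α ^ 2 * norm l := by
      have : norm l' = norm ((α : Q b c) * l) := by rw [← e']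
      rw [map_mul, norm_intCast] at this
      rw [← hn] at this
      exact this
    have hα2 : α ^ 2 = 1 := by
      have : (α ^ 2 - 1) * norm l = 0 := by linarith
      rcases mul_eq_zero.mp this with h | h
      · omega
      · omega
    have hα1 : α = 1 ∨ α = -1 := by
      have : (α - 1) * (α + 1) = 0 := by ring_nf; linarith
      rcases mul_eq_zero.mp this with h | h
      · left; omega
      · right; omega
    rcases hα1 with h1 | h1
    · rw [e', h1]; simp
    · exfalso
      rw [h1] at e'
      have e1 : l'.re = - l.re := by rw [e']; simp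
      have e2 : l'.im = - l.im := by rw [e']; simp
      have := hp.l1
      have := hp.l2
      have := hp'.l1
      have := hp'.l2
      apply hp.ne_zero_left
      ext
      · simp; omega
      · simp; omega
  refine ⟨hl, ?_⟩
  subst hl
  have e1 := pair_re hp.d
  have e2 := pair_re hp'.d
  have e3 := pair_im hp.d
  have e4 := pair_im hp'.d
  rw [← ht] at e2 e4
  ext
  · exact mul_left_cancel₀ hdpos.ne' (e1.symm.trans e2)
  · exact mul_left_cancel₀ hdpos.ne' (e3.symm.trans e4)

end Pool.Agent.SB
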