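import Mathlib
import Pool.Agent.Lib.MP_a17b09_nt.SB.Pairs

open QuadraticAlgebra ENNReal Filter Topology

namespace Pool.Agent.SB

variable {b c : ℤ}

/-- `N(w)^(-s)`. -/
noncomputable def psi (s : ℝ) (w : Q b c) : ℝ := ((norm w : ℤ) : ℝ) ^ (-s)

/-- `ζ(2s-1)`. -/
noncomputable def Z0 (s : ℝ) : ℝ≥0∞ := ∑' n : ℕ, ENNReal.ofReal (((n : ℝ) + 1) ^ (1 - 2 * s))

/-- `ζ(2s-1)` as a real number. -/
noncomputable def z0 (s : ℝ) : ℝ := ∑' n : ℕ, ((n : ℝ) + 1) ^ (1 - 2 * s)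

lemma z0_summable {s : ℝ} (hs : 1 < s) : Summable fun n : ℕ => ((n : ℝ) + 1) ^ (1 - 2 * s) := by
  have := (Real.summable_nat_rpow (p := 1 - 2 * s)).2 (by linarith)
  have h := (summable_nat_add_iff 1).2 this
  refine h.congr fun n => by push_cast; rfl

lemma Z0_eq {s : ℝ} (hs : 1 < s) : Z0 s = ENNReal.ofReal (z0 s) := by
  rw [Z0, z0, ENNReal.ofReal_tsum_of_nonneg (fun n => by positivity) (z0_summable hs)]

lemma z0_nonneg (s : ℝ) : 0 ≤ z0 s := tsum_nonneg fun n => by positivity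

lemma z0_tendsto : Tendsto z0 (𝓝[>] 1) atTop := by
  rw [tendsto_atTop]
  intro K
  have hdiv : Tendsto (fun n => ∑ i ∈ Finset.range n, (1 : ℝ) / (i + 1)) atTop atTop :=
    Real.tendsto_sum_range_one_div_nat_succ_atTop
  obtain ⟨n, hn⟩ := (hdiv.eventually_gt_atTop K).exists
  have hcont : Tendsto (fun s : ℝ => ∑ i ∈ Finset.range n, ((i : ℝ) + 1) ^ (1 - 2 * s)) (𝓝[>] 1)
      (𝓝 (∑ i ∈ Finset.range n, (1 : ℝ) / (i + 1))) := by
    have : (∑ i ∈ Finset.range n, (1 : ℝ) / (i + 1))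
        = ∑ i ∈ Finset.range n, ((i : ℝ) + 1) ^ (1 - 2 * (1 : ℝ)) := by
      refine Finset.sum_congr rfl fun i _ => ?_
      rw [show (1 : ℝ) - 2 * 1 = -1 by norm_num, Real.rpow_neg_one, one_div]
    rw [this]
    refine tendsto_finsetSum _ fun i _ => ?_
    have hc : Continuous fun s : ℝ => ((i : ℝ) + 1) ^ (1 - 2 * s) := by
      refine Continuous.rpow continuous_const (by fun_prop) fun s => Or.inl (by positivity)
    exact (hc.tendsto 1).mono_left nhdsWithin_le_nhds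
  filter_upwards [hcont.eventually (lt_mem_nhds hn), self_mem_nhdsWithin] with s hs hs1
  refine hs.le.trans ?_
  exact (z0_summable hs1).sum_le_tsum _ fun i _ => by positivity

lemma sum_x_le {A s : ℝ} (hA : 0 < A) (hs : 1 ≤ s) :
    ∑' x : ℕ, ENNReal.ofReal ((((x : ℝ) + 1) ^ 2 + A ^ 2) ^ (-s))
      ≤ ENNReal.ofReal (2 * A ^ (1 - 2 * s)) := by
  refine ENNReal.tsum_le_of_sum_range_le fun n => ?_
  rw [← ENNReal.ofReal_sum_of_nonneg fun i _ => by positivity]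
  refine ENNReal.ofReal_le_ofReal ?_
  have hpt : ∀ x : ℕ, (((x : ℝ) + 1) ^ 2 + A ^ 2) ^ (-s)
      ≤ 2 * A ^ (2 - 2 * s) * (1 / (x + A) - 1 / ((x : ℝ) + 1 + A)) := by
    intro x
    have h1 : (((x : ℝ) + 1) ^ 2 + A ^ 2) ^ (-s)
        = (((x : ℝ) + 1) ^ 2 + A ^ 2) ^ (1 - s) * (((x : ℝ) + 1) ^ 2 + A ^ 2)⁻¹ := by
      rw [← Real.rpow_neg_one, ← Real.rpow_add (by positivity)]
      congr 1; ring
    have h2 : (((x : ℝ) + 1) ^ 2 + A ^ 2) ^ (1 - s) ≤ A ^ (2 - 2 * s) := by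
      have : A ^ (2 - 2 * s) = (A ^ 2) ^ (1 - s) := by
        rw [← Real.rpow_natCast, ← Real.rpow_mul hA.le]
        congr 1; push_cast; ring
      rw [this]
      exact Real.rpow_le_rpow_of_nonpos (by positivity) (by nlinarith [sq_nonneg ((x : ℝ) + 1)])
        (by linarith)
    have h3 : (((x : ℝ) + 1) ^ 2 + A ^ 2)⁻¹ ≤ 2 * (1 / (x + A) - 1 / ((x : ℝ) + 1 + A)) := by
      have hx : 0 ≤ (x : ℝ) := Nat.cast_nonneg x
      rw [div_sub_div _ _ (by positivity) (by positivity), ← mul_div_assoc, inv_eq_one_div,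
        div_le_div_iff₀ (by positivity) (by positivity)]
      nlinarith [sq_nonneg ((x : ℝ) + 1 - A)]
    rw [h1]
    calc _ ≤ A ^ (2 - 2 * s) * (2 * (1 / (x + A) - 1 / ((x : ℝ) + 1 + A))) :=
          mul_le_mul h2 h3 (by positivity) (by positivity)
      _ = _ := by ring
  have htel : ∀ n : ℕ, ∑ i ∈ Finset.range n, (1 / ((i : ℝ) + A) - 1 / ((i : ℝ) + 1 + A))
      = 1 / A - 1 / (n + A) := by
    intro n
    induction n with
    | zero => simp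
    | succ n ih => rw [Finset.sum_range_succ, ih]; push_cast; ring
  calc _ ≤ ∑ i ∈ Finset.range n, 2 * A ^ (2 - 2 * s) * (1 / ((i : ℝ) + A) - 1 / ((i : ℝ) + 1 + A)) :=
        Finset.sum_le_sum fun i _ => hpt i
    _ = 2 * A ^ (2 - 2 * s) * (1 / A - 1 / (n + A)) := by rw [← Finset.mul_sum, htel]
    _ ≤ 2 * A ^ (2 - 2 * s) * (1 / A) := by
        refine mul_le_mul_of_nonneg_left ?_ (by positivity)
        have : 0 ≤ 1 / ((n : ℝ) + A) := by positivity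
        linarith
    _ = 2 * A ^ (1 - 2 * s) := by
        rw [show (1 : ℝ) - 2 * s = (2 - 2 * s) + (-1) by ring, Real.rpow_add hA, Real.rpow_neg_one,
          one_div]
        ring

lemma sum_xy_le {L R s : ℝ} (hL : 0 < L) (hR : 1 ≤ R) (hs : 1 ≤ s) :
    ∑' p : ℕ × ℕ, ENNReal.ofReal ((((p.2 : ℝ) + 1) ^ 2 * L ^ 2 + ((p.1 : ℝ) + 1) ^ 2 * R ^ 2) ^ (-s))
      ≤ ENNReal.ofReal (2 / (L * R)) * Z0 s := by
  have hR0 : 0 < R := by linarith
  rw [ENNReal.tsum_prod', Z0, ← ENNReal.tsum_mul_left]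
  refine ENNReal.tsum_le_tsum fun y => ?_
  set A : ℝ := ((y : ℝ) + 1) * R / L with hA
  have hApos : 0 < A := by positivity
  have e1 : ∀ x : ℕ, (((x : ℝ) + 1) ^ 2 * L ^ 2 + ((y : ℝ) + 1) ^ 2 * R ^ 2) ^ (-s)
      = L ^ (-2 * s) * (((x : ℝ) + 1) ^ 2 + A ^ 2) ^ (-s) := by
    intro x
    have : ((x : ℝ) + 1) ^ 2 * L ^ 2 + ((y : ℝ) + 1) ^ 2 * R ^ 2
        = L ^ 2 * (((x : ℝ) + 1) ^ 2 + A ^ 2) := by
      rw [hA]; field_simp
    rw [this, Real.mul_rpow (by positivity) (by positivity), ← Real.rpow_natCast L 2,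
      ← Real.rpow_mul hL.le]
    congr 2
    push_cast; ring
  calc _ = ∑' x : ℕ, ENNReal.ofReal (L ^ (-2 * s)) *
          ENNReal.ofReal ((((x : ℝ) + 1) ^ 2 + A ^ 2) ^ (-s)) := by
        refine tsum_congr fun x => ?_
        rw [← ENNReal.ofReal_mul (by positivity), ← e1]
    _ = ENNReal.ofReal (L ^ (-2 * s)) *
          ∑' x : ℕ, ENNReal.ofReal ((((x : ℝ) + 1) ^ 2 + A ^ 2) ^ (-s)) := ENNReal.tsum_mul_left
    _ ≤ ENNReal.ofReal (L ^ (-2 * s)) * ENNReal.ofReal (2 * A ^ (1 - 2 * s)) := by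
        gcongr
        exact sum_x_le hApos hs
    _ ≤ _ := by
        rw [← ENNReal.ofReal_mul (by positivity), ← ENNReal.ofReal_mul (by positivity)]
        refine ENNReal.ofReal_le_ofReal ?_
        have e2 : A ^ (1 - 2 * s)
            = ((y : ℝ) + 1) ^ (1 - 2 * s) * R ^ (1 - 2 * s) * L ^ (2 * s - 1) := by
          rw [hA, Real.div_rpow (by positivity) hL.le, Real.mul_rpow (by positivity) hR0.le,
            show (2 * s - 1 : ℝ) = -(1 - 2 * s) by ring, Real.rpow_neg hL.le]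
          rfl
        have e3 : L ^ (-2 * s) * L ^ (2 * s - 1) = L⁻¹ := by
          rw [← Real.rpow_add hL, ← Real.rpow_neg_one]
          congr 1; ring
        have e4 : R ^ (1 - 2 * s) ≤ R⁻¹ := by
          rw [← Real.rpow_neg_one]
          exact Real.rpow_le_rpow_of_exponent_le hR (by linarith)
        calc L ^ (-2 * s) * (2 * A ^ (1 - 2 * s))
            = 2 * (L ^ (-2 * s) * L ^ (2 * s - 1)) * R ^ (1 - 2 * s)
              * ((y : ℝ) + 1) ^ (1 - 2 * s) := by rw [e2]; ring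
          _ ≤ 2 * L⁻¹ * R⁻¹ * ((y : ℝ) + 1) ^ (1 - 2 * s) := by rw [e3]; gcongr
          _ = _ := by field_simp


lemma norm_comb (l r : Q b c) (x y : ℤ) :
    norm ((x : Q b c) * l + (y : Q b c) * r)
      = x ^ 2 * norm l + (2 * tv l r + b * det l r) * x * y + y ^ 2 * norm r := by
  simp only [nm_def, tv, det, re_add, im_add, re_mul, im_mul, re_intCast, im_intCast, Int.cast_id]
  ring

lemma norm_cone {l r : Q b c} (hp : IsPair l r) (w : Q b c) :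
    norm w = (det w r) ^ 2 * norm l + (2 * tv l r + b) * (det w r) * (det l w)
      + (det l w) ^ 2 * norm r := by
  conv_lhs => rw [eq_of_det hp.d w]
  rw [norm_comb, hp.d]
  ring

lemma norm_cone_ge (hb : 0 ≤ b) (h : b ^ 2 < 4 * c) {l r : Q b c} (hp : IsPair l r) {w : Q b c}
    (hw : InCone l r w) :
    (det w r) ^ 2 * norm l + (det l w) ^ 2 * norm r ≤ norm w := by
  rw [norm_cone hp w]
  have hc : 0 ≤ c := by nlinarith [sq_nonneg b]
  have h1 := hp.tv_nonneg hb hc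
  have h2 := hw.1
  have h3 := hw.2
  have : 0 ≤ (2 * tv l r + b) * (det w r) * (det l w) := by positivity
  linarith

/-- coordinates inside a cone -/
def coneMap (l r : Q b c) (w : {w : Q b c // InCone l r w}) : ℕ × ℕ :=
  ((det l w.1 - 1).toNat, (det w.1 r - 1).toNat)

lemma coneMap_inj {l r : Q b c} (hp : IsPair l r) : Function.Injective (coneMap l r) := by
  rintro ⟨w, hw⟩ ⟨w', hw'⟩ heq
  simp only [coneMap, Prod.mk.injEq] at heq
  obtain ⟨h1, h2⟩ := heq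
  have a1 := hw.1
  have a2 := hw.2
  have a3 := hw'.1
  have a4 := hw'.2
  have e1 : det l w = det l w' := by omega
  have e2 : det w r = det w' r := by omega
  apply Subtype.ext
  show w = w'
  rw [eq_of_det hp.d w, eq_of_det hp.d w', e1, e2]

lemma one_le_norm (h : b ^ 2 < 4 * c) {w : Q b c} (hw : w ≠ 0) : (1 : ℝ) ≤ ((norm w : ℤ) : ℝ) := by
  exact_mod_cast nm_pos h w hw

lemma cone_mass (hb : 0 ≤ b) (h : b ^ 2 < 4 * c) {l r : Q b c} (hp : IsPair l r) {s : ℝ}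
    (hs : 1 ≤ s) :
    ∑' w : {w : Q b c // InCone l r w}, ENNReal.ofReal (psi s w.1)
      ≤ ENNReal.ofReal (2 / (√((norm l : ℤ) : ℝ) * √((norm r : ℤ) : ℝ))) * Z0 s := by
  have hl1 := one_le_norm h hp.ne_zero_left
  have hr1 := one_le_norm h hp.ne_zero_right
  set L : ℝ := √((norm l : ℤ) : ℝ) with hL
  set R : ℝ := √((norm r : ℤ) : ℝ) with hR
  have hL1 : 1 ≤ L := by rw [hL]; exact Real.one_le_sqrt.mpr hl1
  have hR1 : 1 ≤ R := by rw [hR]; exact Real.one_le_sqrt.mpr hr1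
  have hL2 : L ^ 2 = ((norm l : ℤ) : ℝ) := Real.sq_sqrt (by linarith)
  have hR2 : R ^ 2 = ((norm r : ℤ) : ℝ) := Real.sq_sqrt (by linarith)
  refine le_trans ?_ (sum_xy_le (by linarith) hR1 hs)
  refine le_trans ?_ (ENNReal.tsum_comp_le_tsum_of_injective (coneMap_inj hp) _)
  refine ENNReal.tsum_le_tsum fun w => ENNReal.ofReal_le_ofReal ?_
  obtain ⟨w, hw⟩ := w
  have hge := norm_cone_ge hb h hp hw
  have a1 := hw.1
  have a2 := hw.2
  simp only [coneMap]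
  have e1 : (((det l w - 1).toNat : ℕ) : ℝ) + 1 = ((det l w : ℤ) : ℝ) := by
    have : (((det l w - 1).toNat : ℕ) : ℤ) = det l w - 1 := Int.toNat_of_nonneg (by omega)
    have h2 : (((det l w - 1).toNat : ℕ) : ℝ) = ((det l w - 1 : ℤ) : ℝ) := by
      exact_mod_cast this
    rw [h2]; push_cast; ring
  have e2 : (((det w r - 1).toNat : ℕ) : ℝ) + 1 = ((det w r : ℤ) : ℝ) := by
    have : (((det w r - 1).toNat : ℕ) : ℤ) = det w r - 1 := Int.toNat_of_nonneg (by omega)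
    have h2 : (((det w r - 1).toNat : ℕ) : ℝ) = ((det w r - 1 : ℤ) : ℝ) := by
      exact_mod_cast this
    rw [h2]; push_cast; ring
  rw [e1, e2, hL2, hR2]
  unfold psi
  have a1' : (1 : ℝ) ≤ ((det l w : ℤ) : ℝ) := by exact_mod_cast a1
  have a2' : (1 : ℝ) ≤ ((det w r : ℤ) : ℝ) := by exact_mod_cast a2
  refine Real.rpow_le_rpow_of_nonpos (by positivity) ?_ (by linarith)
  exact_mod_cast hge


lemma tsum_int (f : ℤ → ℝ≥0∞) :
    ∑' x, f x = (∑' n : ℕ, f ((n : ℤ) + 1)) + f 0 + ∑' n : ℕ, f (-((n : ℤ) + 1)) :=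
  (HasSum.of_add_one_of_neg_add_one ENNReal.summable.hasSum ENNReal.summable.hasSum).tsum_eq

lemma row_le {Y s : ℝ} (hY : 1 ≤ Y) (hs : 1 ≤ s) :
    ∑' x : ℤ, ENNReal.ofReal (((x : ℝ) ^ 2 + Y ^ 2) ^ (-s)) ≤ 5 * ENNReal.ofReal (Y ^ (1 - 2 * s)) := by
  have hY0 : 0 < Y := by linarith
  rw [tsum_int]
  have h1 : ∑' n : ℕ, ENNReal.ofReal (((((n : ℤ) + 1 : ℤ) : ℝ) ^ 2 + Y ^ 2) ^ (-s))
      ≤ 2 * ENNReal.ofReal (Y ^ (1 - 2 * s)) := by
    have := sum_x_le hY0 hs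
    rw [ENNReal.ofReal_mul (by norm_num)] at this
    simpa using this
  have h2 : ∑' n : ℕ, ENNReal.ofReal ((((-((n : ℤ) + 1) : ℤ) : ℝ) ^ 2 + Y ^ 2) ^ (-s))
      ≤ 2 * ENNReal.ofReal (Y ^ (1 - 2 * s)) := by
    refine le_trans (le_of_eq ?_) h1
    refine tsum_congr fun n => ?_
    congr 3
    push_cast; ring
  have h3 : ENNReal.ofReal ((((0 : ℤ) : ℝ) ^ 2 + Y ^ 2) ^ (-s)) ≤ ENNReal.ofReal (Y ^ (1 - 2 * s)) := by
    refine ENNReal.ofReal_le_ofReal ?_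
    have : (((0 : ℤ) : ℝ) ^ 2 + Y ^ 2) ^ (-s) = Y ^ (-2 * s) := by
      rw [Int.cast_zero, zero_pow (by norm_num), zero_add, ← Real.rpow_natCast,
        ← Real.rpow_mul hY0.le]
      congr 1; push_cast; ring
    rw [this]
    exact Real.rpow_le_rpow_of_exponent_le hY (by linarith)
  calc _ ≤ 2 * ENNReal.ofReal (Y ^ (1 - 2 * s)) + ENNReal.ofReal (Y ^ (1 - 2 * s))
        + 2 * ENNReal.ofReal (Y ^ (1 - 2 * s)) := by gcongr
    _ = _ := by ring

lemma plane_le {s : ℝ} (hs : 1 ≤ s) :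
    ∑' p : ℤ × ℤ, ENNReal.ofReal (((p.1 : ℝ) ^ 2 + (p.2 : ℝ) ^ 2) ^ (-s)) ≤ 12 * Z0 s := by
  rw [ENNReal.tsum_prod', ENNReal.tsum_comm, tsum_int]
  have h1 : ∑' (n : ℕ) (a : ℤ), ENNReal.ofReal (((a : ℝ) ^ 2 + (((n : ℤ) + 1 : ℤ) : ℝ) ^ 2) ^ (-s))
      ≤ 5 * Z0 s := by
    rw [Z0, ← ENNReal.tsum_mul_left]
    refine ENNReal.tsum_le_tsum fun n => ?_
    have := row_le (Y := (n : ℝ) + 1) (by have := Nat.cast_nonneg (α := ℝ) n; linarith) hs
    simpa using this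
  have h2 : ∑' (n : ℕ) (a : ℤ), ENNReal.ofReal (((a : ℝ) ^ 2 + ((-((n : ℤ) + 1) : ℤ) : ℝ) ^ 2) ^ (-s))
      ≤ 5 * Z0 s := by
    refine le_trans (le_of_eq ?_) h1
    refine tsum_congr fun n => tsum_congr fun a => ?_
    congr 3
    push_cast; ring
  have h4 : ∑' n : ℕ, ENNReal.ofReal (((((n : ℤ) + 1 : ℤ) : ℝ) ^ 2 + ((0 : ℤ) : ℝ) ^ 2) ^ (-s))
      ≤ Z0 s := by
    rw [Z0]
    refine ENNReal.tsum_le_tsum fun n => ENNReal.ofReal_le_ofReal ?_
    have hn : (1 : ℝ) ≤ (n : ℝ) + 1 := by have := Nat.cast_nonneg (α := ℝ) n; linarith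
    have : ((((n : ℤ) + 1 : ℤ) : ℝ) ^ 2 + ((0 : ℤ) : ℝ) ^ 2) ^ (-s) = ((n : ℝ) + 1) ^ (-2 * s) := by
      push_cast
      rw [zero_pow (by norm_num), add_zero, ← Real.rpow_natCast, ← Real.rpow_mul (by positivity)]
      congr 1; push_cast; ring
    rw [this]
    exact Real.rpow_le_rpow_of_exponent_le hn (by linarith)
  have h3 : ∑' (a : ℤ), ENNReal.ofReal (((a : ℝ) ^ 2 + ((0 : ℤ) : ℝ) ^ 2) ^ (-s)) ≤ 2 * Z0 s := by
    rw [tsum_int]
    have h5 : ∑' n : ℕ, ENNReal.ofReal ((((-((n : ℤ) + 1) : ℤ) : ℝ) ^ 2 + ((0 : ℤ) : ℝ) ^ 2) ^ (-s))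
        ≤ Z0 s := by
      refine le_trans (le_of_eq ?_) h4
      refine tsum_congr fun n => ?_
      congr 3
      push_cast; ring
    have h6 : ENNReal.ofReal ((((0 : ℤ) : ℝ) ^ 2 + ((0 : ℤ) : ℝ) ^ 2) ^ (-s)) = 0 := by
      have : (((0 : ℤ) : ℝ) ^ 2 + ((0 : ℤ) : ℝ) ^ 2) = 0 := by norm_num
      rw [this, Real.zero_rpow (by linarith), ENNReal.ofReal_zero]
    rw [h6, add_zero]
    calc _ ≤ Z0 s + Z0 s := by gcongr
      _ = _ := by ring
  calc _ ≤ 5 * Z0 s + 2 * Z0 s + 5 * Z0 s := by gcongr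
    _ = _ := by ring

lemma norm_ge (h : b ^ 2 < 4 * c) (w : Q b c) :
    3 * (w.re ^ 2 + w.im ^ 2) ≤ 8 * c * norm w := by
  have hD : 3 ≤ 4 * c - b ^ 2 := by
    by_contra hlt
    push Not at hlt
    have h1 : 4 * c - b ^ 2 = 1 ∨ 4 * c - b ^ 2 = 2 := by omega
    have h2 : b % 4 = 0 ∨ b % 4 = 1 ∨ b % 4 = 2 ∨ b % 4 = 3 := by omega
    have h3 : b ^ 2 % 4 = 0 ∨ b ^ 2 % 4 = 1 := by
      rcases h2 with h | h | h | h <;> simp [pow_two, Int.mul_emod, h]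
    omega
  have hc : 1 ≤ c := by nlinarith [sq_nonneg b]
  have e1 : 4 * norm w = (2 * w.re + b * w.im) ^ 2 + (4 * c - b ^ 2) * w.im ^ 2 := by
    rw [nm_def]; ring
  have e2 : 4 * c * norm w = (2 * c * w.im + b * w.re) ^ 2 + (4 * c - b ^ 2) * w.re ^ 2 := by
    rw [nm_def]; ring
  have h1 : 3 * w.im ^ 2 ≤ 4 * norm w := by
    nlinarith [sq_nonneg (2 * w.re + b * w.im), sq_nonneg w.im]
  have h2 : 3 * w.re ^ 2 ≤ 4 * c * norm w := by
    nlinarith [sq_nonneg (2 * c * w.im + b * w.re), sq_nonneg w.re]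
  have h3 := nm_nonneg h w
  nlinarith

lemma total_mass (h : b ^ 2 < 4 * c) {s : ℝ} (hs : 1 ≤ s) (hs2 : s ≤ 2) :
    ∑' w : Q b c, ENNReal.ofReal (psi s w) ≤ ENNReal.ofReal (12 * (8 * c / 3) ^ 2) * Z0 s := by
  have hc : (1 : ℝ) ≤ c := by
    have : 1 ≤ c := by nlinarith [sq_nonneg b]
    exact_mod_cast this
  have hpt : ∀ w : Q b c, ENNReal.ofReal (psi s w)
      ≤ ENNReal.ofReal ((8 * c / 3) ^ 2) * ENNReal.ofReal (((w.re : ℝ) ^ 2 + (w.im : ℝ) ^ 2) ^ (-s)) := by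
    intro w
    by_cases hw : w = 0
    · subst hw
      simp only [psi, QuadraticAlgebra.norm_zero, Int.cast_zero]
      rw [Real.zero_rpow (by linarith)]
      simp
    rw [← ENNReal.ofReal_mul (by positivity)]
    refine ENNReal.ofReal_le_ofReal ?_
    have h1 := norm_ge h w
    have h1' : 3 * ((w.re : ℝ) ^ 2 + (w.im : ℝ) ^ 2) ≤ 8 * c * ((norm w : ℤ) : ℝ) := by
      exact_mod_cast h1
    have hpos : 0 < ((w.re : ℝ) ^ 2 + (w.im : ℝ) ^ 2) := by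
      by_cases h2 : w.im = 0
      · have : w.re ≠ 0 := fun h1 => hw (by ext <;> simp [h1, h2])
        positivity
      · positivity
    unfold psi
    have h2 : ((w.re : ℝ) ^ 2 + (w.im : ℝ) ^ 2) / (8 * c / 3) ≤ ((norm w : ℤ) : ℝ) := by
      rw [div_le_iff₀ (by positivity)]; linarith
    calc ((norm w : ℤ) : ℝ) ^ (-s) ≤ (((w.re : ℝ) ^ 2 + (w.im : ℝ) ^ 2) / (8 * c / 3)) ^ (-s) :=
          Real.rpow_le_rpow_of_nonpos (by positivity) h2 (by linarith)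
      _ = (8 * c / 3) ^ s * ((w.re : ℝ) ^ 2 + (w.im : ℝ) ^ 2) ^ (-s) := by
          rw [Real.div_rpow hpos.le (by positivity), Real.rpow_neg (x := (8 * c / 3)) (by positivity)]
          field_simp
      _ ≤ (8 * c / 3) ^ 2 * ((w.re : ℝ) ^ 2 + (w.im : ℝ) ^ 2) ^ (-s) := by
          gcongr
          calc (8 * (c : ℝ) / 3) ^ s ≤ (8 * (c : ℝ) / 3) ^ (2 : ℝ) :=
                Real.rpow_le_rpow_of_exponent_le (by linarith) hs2
            _ = _ := by norm_cast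
  calc _ ≤ ∑' w : Q b c, ENNReal.ofReal ((8 * c / 3) ^ 2) *
          ENNReal.ofReal (((w.re : ℝ) ^ 2 + (w.im : ℝ) ^ 2) ^ (-s)) := ENNReal.tsum_le_tsum hpt
    _ = ENNReal.ofReal ((8 * c / 3) ^ 2) *
          ∑' w : Q b c, ENNReal.ofReal (((w.re : ℝ) ^ 2 + (w.im : ℝ) ^ 2) ^ (-s)) :=
        ENNReal.tsum_mul_left
    _ = ENNReal.ofReal ((8 * c / 3) ^ 2) *
          ∑' p : ℤ × ℤ, ENNReal.ofReal (((p.1 : ℝ) ^ 2 + (p.2 : ℝ) ^ 2) ^ (-s)) := by
        congr 1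
        exact (QuadraticAlgebra.equivProd (-c) b).tsum_eq
          (fun p : ℤ × ℤ => ENNReal.ofReal (((p.1 : ℝ) ^ 2 + (p.2 : ℝ) ^ 2) ^ (-s)))
    _ ≤ ENNReal.ofReal ((8 * c / 3) ^ 2) * (12 * Z0 s) := by
        gcongr
        exact plane_le hs
    _ = _ := by
        rw [← mul_assoc, mul_comm (ENNReal.ofReal _) (12 : ℝ≥0∞),
          ENNReal.ofReal_mul (by norm_num : (0 : ℝ) ≤ 12)]
        congr 2
        norm_num


lemma psi_nonneg (h : b ^ 2 < 4 * c) (s : ℝ) (w : Q b c) : 0 ≤ psi s w := by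
  have := nm_nonneg h w
  unfold psi
  have : (0 : ℝ) ≤ ((norm w : ℤ) : ℝ) := by exact_mod_cast this
  positivity

lemma psi_zero {s : ℝ} (hs : s ≠ 0) : psi s (0 : Q b c) = 0 := by
  simp only [psi, QuadraticAlgebra.norm_zero, Int.cast_zero]
  exact Real.zero_rpow (by simpa using hs)

lemma psi_summable (h : b ^ 2 < 4 * c) {s : ℝ} (hs : 1 < s) (hs2 : s ≤ 2) :
    Summable (psi s : Q b c → ℝ) := by
  have h1 := total_mass h hs.le hs2
  have h2 : ∑' w : Q b c, ENNReal.ofReal (psi s w) ≠ ⊤ := by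
    refine ne_top_of_le_ne_top ?_ h1
    rw [Z0_eq hs, ← ENNReal.ofReal_mul (by positivity)]
    exact ENNReal.ofReal_ne_top
  have h3 := ENNReal.summable_toReal h2
  refine h3.congr fun w => ?_
  rw [ENNReal.toReal_ofReal (psi_nonneg h s w)]

/-- Constant for the total mass. -/
noncomputable def KK (c : ℤ) : ℝ := 12 * (8 * c / 3) ^ 2

lemma psi_tsum_le (h : b ^ 2 < 4 * c) {s : ℝ} (hs : 1 < s) (hs2 : s ≤ 2) :
    ∑' w : Q b c, psi s w ≤ KK c * z0 s := by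
  have h1 := total_mass h hs.le hs2
  unfold KK
  rw [Z0_eq hs, ← ENNReal.ofReal_mul (by positivity),
    ← ENNReal.ofReal_tsum_of_nonneg (psi_nonneg h s) (psi_summable h hs hs2)] at h1
  exact (ENNReal.ofReal_le_ofReal_iff (mul_nonneg (by positivity) (z0_nonneg s))).1 h1

/-- the cone as a set -/
def cone (l r : Q b c) : Set (Q b c) := {w | InCone l r w}

lemma toReal_sum (h : b ^ 2 < 4 * c) {s : ℝ} (hs : 1 < s) (hs2 : s ≤ 2) (A : Set (Q b c)) :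
    ENNReal.ofReal (∑' w, A.indicator (psi s) w) = ∑' w : A, ENNReal.ofReal (psi s w.1) := by
  have h1 : Summable (fun w : A => psi s w.1) := (psi_summable h hs hs2).subtype A
  rw [← tsum_subtype A (psi s)]
  exact ENNReal.ofReal_tsum_of_nonneg (fun w => psi_nonneg h s w.1) h1

lemma root_pair : IsPair (⟨1, 0⟩ : Q b c) ⟨0, 1⟩ where
  l1 := by norm_num
  l2 := le_rfl
  r1 := le_rfl
  r2 := by norm_num
  d := by simp [det]

lemma root_lower (hb : 0 ≤ b) (h : b ^ 2 < 4 * c) {s : ℝ} (hs : 1 < s) (hs2 : s ≤ 2) :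
    ((1 + b + c : ℤ) : ℝ) ^ (-2 : ℝ) * z0 s
      ≤ ∑' w, (cone (⟨1, 0⟩ : Q b c) ⟨0, 1⟩).indicator (psi s) w := by
  have hc : 1 ≤ c := by nlinarith [sq_nonneg b]
  have hm : (1 : ℝ) ≤ ((1 + b + c : ℤ) : ℝ) := by exact_mod_cast (by omega : 1 ≤ 1 + b + c)
  set m : ℝ := ((1 + b + c : ℤ) : ℝ) with hm'
  have hnn : 0 ≤ ∑' w, (cone (⟨1, 0⟩ : Q b c) ⟨0, 1⟩).indicator (psi s) w :=
    tsum_nonneg fun w => Set.indicator_nonneg (fun w _ => psi_nonneg h s w) w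
  rw [← ENNReal.ofReal_le_ofReal_iff hnn, toReal_sum h hs hs2]
  -- the map from pairs `i ≤ j`
  let f : (Σ j : ℕ, Fin (j + 1)) → (cone (⟨1, 0⟩ : Q b c) ⟨0, 1⟩ : Set (Q b c)) := fun p =>
    ⟨⟨(p.2 : ℕ) + 1, (p.1 : ℕ) + 1⟩, by
      constructor
      · simp only [det]; omega
      · simp only [det]; omega⟩
  have hf : Function.Injective f := by
    rintro ⟨j, i⟩ ⟨j', i'⟩ heq
    have h1 := congrArg Subtype.val heq
    have h2 : (j : ℤ) + 1 = (j' : ℤ) + 1 := congrArg QuadraticAlgebra.im h1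
    have h3 : ((i : ℕ) : ℤ) + 1 = ((i' : ℕ) : ℤ) + 1 := congrArg QuadraticAlgebra.re h1
    have h4 : j = j' := by omega
    subst h4
    have h5 : i = i' := by ext; omega
    rw [h5]
  refine le_trans ?_ (ENNReal.tsum_comp_le_tsum_of_injective hf _)
  rw [ENNReal.tsum_sigma', ENNReal.ofReal_mul (by positivity), ← Z0_eq hs, Z0,
    ← ENNReal.tsum_mul_left]
  refine ENNReal.tsum_le_tsum fun j => ?_
  have hterm : ∀ i : Fin (j + 1), ENNReal.ofReal (m ^ (-2 : ℝ) * ((j : ℝ) + 1) ^ (-2 * s))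
      ≤ ENNReal.ofReal (psi s (f ⟨j, i⟩).1) := by
    intro i
    refine ENNReal.ofReal_le_ofReal ?_
    have hi : (i : ℕ) ≤ j := Nat.lt_succ_iff.mp i.2
    have hnorm : ((norm (f ⟨j, i⟩).1 : ℤ) : ℝ) ≤ m * ((j : ℝ) + 1) ^ 2 := by
      have : norm (f ⟨j, i⟩).1 ≤ (1 + b + c) * ((j : ℤ) + 1) ^ 2 := by
        rw [nm_def]
        show ((i : ℕ) + 1 : ℤ) ^ 2 + b * ((i : ℕ) + 1 : ℤ) * ((j : ℕ) + 1 : ℤ)
          + c * ((j : ℕ) + 1 : ℤ) ^ 2 ≤ _
        have hi' : ((i : ℕ) : ℤ) + 1 ≤ (j : ℤ) + 1 := by omega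
        have h0 : (0 : ℤ) ≤ ((i : ℕ) : ℤ) + 1 := by positivity
        have e1 : (((i : ℕ) : ℤ) + 1) ^ 2 ≤ ((j : ℤ) + 1) ^ 2 := by gcongr
        have e2 : b * (((i : ℕ) : ℤ) + 1) * ((j : ℤ) + 1) ≤ b * ((j : ℤ) + 1) * ((j : ℤ) + 1) := by
          gcongr
        nlinarith
      have h2 : ((norm (f ⟨j, i⟩).1 : ℤ) : ℝ) ≤ (((1 + b + c) * ((j : ℤ) + 1) ^ 2 : ℤ) : ℝ) := by
        exact_mod_cast this
      refine h2.trans (le_of_eq ?_)
      rw [hm']; push_cast; ring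
    have hpos : 0 < ((norm (f ⟨j, i⟩).1 : ℤ) : ℝ) := by
      have hne : (f ⟨j, i⟩).1 ≠ 0 := by
        intro h0
        have h1 : ((i : ℕ) : ℤ) + 1 = 0 := congrArg QuadraticAlgebra.re h0
        omega
      exact_mod_cast nm_pos h _ hne
    unfold psi
    calc m ^ (-2 : ℝ) * ((j : ℝ) + 1) ^ (-2 * s) ≤ m ^ (-s) * ((j : ℝ) + 1) ^ (-2 * s) := by
          gcongr
      _ = (m * ((j : ℝ) + 1) ^ 2) ^ (-s) := by
          rw [Real.mul_rpow (by positivity) (by positivity), ← Real.rpow_natCast ((j : ℝ) + 1) 2,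
            ← Real.rpow_mul (by positivity)]
          congr 2; push_cast; ring
      _ ≤ _ := Real.rpow_le_rpow_of_nonpos hpos hnorm (by linarith)
  calc ENNReal.ofReal (m ^ (-2 : ℝ)) * ENNReal.ofReal (((j : ℝ) + 1) ^ (1 - 2 * s))
      = ∑' i : Fin (j + 1), ENNReal.ofReal (m ^ (-2 : ℝ) * ((j : ℝ) + 1) ^ (-2 * s)) := by
        rw [tsum_fintype, Finset.sum_const, Finset.card_univ, Fintype.card_fin, nsmul_eq_mul,
          ← ENNReal.ofReal_mul (by positivity), ← ENNReal.ofReal_natCast,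
          ← ENNReal.ofReal_mul (by positivity)]
        congr 1
        rw [show (1 : ℝ) - 2 * s = 1 + (-2 * s) by ring, Real.rpow_add (by positivity), Real.rpow_one]
        push_cast; ring
    _ ≤ _ := ENNReal.tsum_le_tsum hterm


/-- the ray through the mediant of a pair -/
def ray (l r : Q b c) : Set (Q b c) := {w | 0 < det l w ∧ det w (l + r) = 0}

lemma toNat_cast_add {z : ℤ} (hz : 0 < z) : (((z - 1).toNat : ℕ) : ℝ) + 1 = ((z : ℤ) : ℝ) := by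
  have : (((z - 1).toNat : ℕ) : ℤ) = z - 1 := Int.toNat_of_nonneg (by omega)
  have h2 : (((z - 1).toNat : ℕ) : ℝ) = ((z - 1 : ℤ) : ℝ) := by exact_mod_cast this
  rw [h2]; push_cast; ring

lemma indicator_tsum_le (h : b ^ 2 < 4 * c) {s : ℝ} (hs : 1 < s) (hs2 : s ≤ 2) (A : Set (Q b c))
    {C : ℝ} (hC : 0 ≤ C)
    (hle : ∑' w : A, ENNReal.ofReal (psi s w.1) ≤ ENNReal.ofReal C) :
    ∑' w, A.indicator (psi s) w ≤ C := by
  rw [← toReal_sum h hs hs2] at hle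
  exact (ENNReal.ofReal_le_ofReal_iff hC).1 hle

lemma ray_mass (hb : 0 ≤ b) (h : b ^ 2 < 4 * c) {l r : Q b c} (hp : IsPair l r) {s : ℝ}
    (hs : 1 < s) (hs2 : s ≤ 2) :
    ∑' w, (ray l r).indicator (psi s) w ≤ z0 (3 / 2) := by
  refine indicator_tsum_le h hs hs2 _ (z0_nonneg _) ?_
  rw [← Z0_eq (by norm_num), Z0]
  have hdet : ∀ w : ray l r, det w.1 r = det l w.1 := by
    intro w
    have h2 := w.2.2
    simp only [det, re_add, im_add] at h2 ⊢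
    linarith
  have hinj : Function.Injective (fun w : ray l r => (det l w.1 - 1).toNat) := by
    intro w w' heq
    simp only at heq
    have h1 := w.2.1
    have h2 := w'.2.1
    have h3 := hdet w
    have h4 := hdet w'
    have h5 : det l w.1 = det l w'.1 := by omega
    apply Subtype.ext
    rw [eq_of_det hp.d w.1, eq_of_det hp.d w'.1, h3, h4, h5]
  refine le_trans ?_ (ENNReal.tsum_comp_le_tsum_of_injective hinj _)
  refine ENNReal.tsum_le_tsum fun w => ENNReal.ofReal_le_ofReal ?_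
  have h1 := w.2.1
  rw [toNat_cast_add h1]
  have h3 := hdet w
  have hge := norm_cone_ge hb h hp (w := w.1) ⟨h1, by rw [h3]; exact h1⟩
  have hl := nm_pos h l hp.ne_zero_left
  have hr := nm_pos h r hp.ne_zero_right
  have hge2 : (det l w.1) ^ 2 ≤ norm w.1 := by
    rw [h3] at hge
    nlinarith [sq_nonneg (det l w.1)]
  have h1' : (1 : ℝ) ≤ ((det l w.1 : ℤ) : ℝ) := by exact_mod_cast h1
  unfold psi
  calc ((norm w.1 : ℤ) : ℝ) ^ (-s) ≤ (((det l w.1 : ℤ) : ℝ) ^ 2) ^ (-s) :=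
        Real.rpow_le_rpow_of_nonpos (by positivity) (by exact_mod_cast hge2) (by linarith)
    _ = ((det l w.1 : ℤ) : ℝ) ^ (-2 * s) := by
        rw [← Real.rpow_natCast, ← Real.rpow_mul (by positivity)]
        congr 1; push_cast; ring
    _ ≤ _ := Real.rpow_le_rpow_of_exponent_le h1' (by linarith)

lemma thin_aux {M δ s : ℝ} (hM : 1 ≤ M) (hδ : 0 ≤ δ) (hs : 1 < s) :
    ∑' p : ℕ × ℕ, (if ((p.2 : ℝ) + 1 ≤ 2 * δ * M * ((p.1 : ℝ) + 1)) then
      ENNReal.ofReal ((((p.1 : ℝ) + 1) * M) ^ (-2 * s)) else 0)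
      ≤ ENNReal.ofReal (2 * δ) * Z0 s := by
  rw [ENNReal.tsum_prod', Z0, ← ENNReal.tsum_mul_left]
  refine ENNReal.tsum_le_tsum fun i => ?_
  set a : ℝ := 2 * δ * M * ((i : ℝ) + 1) with ha
  have ha0 : 0 ≤ a := by positivity
  simp only
  rw [tsum_eq_sum (s := Finset.range ⌊a⌋₊)]
  · calc ∑ j ∈ Finset.range ⌊a⌋₊, (if ((j : ℝ) + 1 ≤ a) then
          ENNReal.ofReal ((((i : ℝ) + 1) * M) ^ (-2 * s)) else 0)
        ≤ ∑ j ∈ Finset.range ⌊a⌋₊, ENNReal.ofReal ((((i : ℝ) + 1) * M) ^ (-2 * s)) := by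
          refine Finset.sum_le_sum fun j _ => ?_
          split_ifs
          · exact le_rfl
          · exact zero_le
      _ = (⌊a⌋₊ : ℝ≥0∞) * ENNReal.ofReal ((((i : ℝ) + 1) * M) ^ (-2 * s)) := by
          rw [Finset.sum_const, Finset.card_range, nsmul_eq_mul]
      _ ≤ ENNReal.ofReal a * ENNReal.ofReal ((((i : ℝ) + 1) * M) ^ (-2 * s)) := by
          gcongr
          rw [← ENNReal.ofReal_natCast]
          exact ENNReal.ofReal_le_ofReal (Nat.floor_le ha0)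
      _ ≤ _ := by
          rw [← ENNReal.ofReal_mul (by positivity), ← ENNReal.ofReal_mul (by positivity)]
          refine ENNReal.ofReal_le_ofReal ?_
          have hM0 : 0 < M := by linarith
          have e : a * (((i : ℝ) + 1) * M) ^ (-2 * s)
              = 2 * δ * (((i : ℝ) + 1) ^ (1 - 2 * s) * M ^ (1 - 2 * s)) := by
            rw [← Real.mul_rpow (by positivity) hM0.le, ha,
              show (1 : ℝ) - 2 * s = 1 + (-2 * s) by ring, Real.rpow_add (by positivity),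
              Real.rpow_one]
            ring
          rw [e]
          have : M ^ (1 - 2 * s) ≤ 1 := Real.rpow_le_one_of_one_le_of_nonpos hM (by linarith)
          calc 2 * δ * (((i : ℝ) + 1) ^ (1 - 2 * s) * M ^ (1 - 2 * s))
              ≤ 2 * δ * (((i : ℝ) + 1) ^ (1 - 2 * s) * 1) := by gcongr
            _ = _ := by ring
  · intro j hj
    rw [Finset.mem_range, not_lt] at hj
    rw [if_neg]
    intro hle
    have : j + 1 ≤ ⌊a⌋₊ := Nat.le_floor (by push_cast; exact hle)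
    omega

lemma norm_cone_le (h : b ^ 2 < 4 * c) {l r : Q b c} (hp : IsPair l r) {w : Q b c}
    (hw : InCone l r w) :
    √((norm w : ℤ) : ℝ) ≤ (det w r : ℝ) * √((norm l : ℤ) : ℝ) + (det l w : ℝ) * √((norm r : ℤ) : ℝ) := by
  have hl1 := one_le_norm h hp.ne_zero_left
  have hr1 := one_le_norm h hp.ne_zero_right
  set L : ℝ := √((norm l : ℤ) : ℝ) with hL
  set R : ℝ := √((norm r : ℤ) : ℝ) with hR
  have hL1 : 1 ≤ L := by rw [hL]; exact Real.one_le_sqrt.mpr hl1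
  have hR1 : 1 ≤ R := by rw [hR]; exact Real.one_le_sqrt.mpr hr1
  have hL2 : L ^ 2 = ((norm l : ℤ) : ℝ) := Real.sq_sqrt (by linarith)
  have hR2 : R ^ 2 = ((norm r : ℤ) : ℝ) := Real.sq_sqrt (by linarith)
  have a1 : (1 : ℝ) ≤ ((det l w : ℤ) : ℝ) := by exact_mod_cast hw.1
  have a2 : (1 : ℝ) ≤ ((det w r : ℤ) : ℝ) := by exact_mod_cast hw.2
  refine Real.sqrt_le_iff.2 ⟨by positivity, ?_⟩
  have hN := norm_cone hp w
  have hN' : ((norm w : ℤ) : ℝ) = (det w r : ℝ) ^ 2 * L ^ 2 + (2 * tv l r + b) * (det w r) * (det l w)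
      + (det l w : ℝ) ^ 2 * R ^ 2 := by
    rw [hL2, hR2, hN]; push_cast; ring
  have hcs : (2 * tv l r + b : ℝ) ≤ 2 * (L * R) := by
    have h1 := hp.norm_mul
    have h2 : (L * R) ^ 2 = ((fv b c (tv l r) : ℤ) : ℝ) := by
      rw [mul_pow, hL2, hR2, ← h1]; push_cast; ring
    have h3 : (2 * tv l r + b : ℝ) ^ 2 ≤ (2 * (L * R)) ^ 2 := by
      rw [mul_pow 2 (L * R), h2, fv]
      have h4 : (2 * tv l r + b) ^ 2 ≤ 2 ^ 2 * ((tv l r) ^ 2 + b * tv l r + c) := by nlinarith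
      exact_mod_cast h4
    exact le_of_sq_le_sq h3 (by positivity)
  rw [hN']
  have h5 : (2 * tv l r + b : ℝ) * ((det w r : ℝ) * (det l w : ℝ))
      ≤ 2 * (L * R) * ((det w r : ℝ) * (det l w : ℝ)) := by gcongr
  nlinarith

lemma thin_left (hb : 0 ≤ b) (h : b ^ 2 < 4 * c) {l r : Q b c} (hp : IsPair l r) {s δ : ℝ}
    (hs : 1 < s) (hs2 : s ≤ 2) (hδ : 0 ≤ δ) (hδ2 : δ * √((norm r : ℤ) : ℝ) ≤ 1 / 2) :
    ∑' w, {w | InCone l r w ∧ (det l w : ℝ) ≤ δ * √((norm w : ℤ) : ℝ)}.indicator (psi s) w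
      ≤ 2 * δ * z0 s := by
  refine indicator_tsum_le h hs hs2 _ (mul_nonneg (by positivity) (z0_nonneg _)) ?_
  have hl1 := one_le_norm h hp.ne_zero_left
  have hr1 := one_le_norm h hp.ne_zero_right
  set L : ℝ := √((norm l : ℤ) : ℝ) with hL
  set R : ℝ := √((norm r : ℤ) : ℝ) with hR
  have hL1 : 1 ≤ L := by rw [hL]; exact Real.one_le_sqrt.mpr hl1
  have hR1 : 1 ≤ R := by rw [hR]; exact Real.one_le_sqrt.mpr hr1
  have hL2 : L ^ 2 = ((norm l : ℤ) : ℝ) := Real.sq_sqrt (by linarith)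
  rw [ENNReal.ofReal_mul (by positivity), ← Z0_eq hs]
  refine le_trans ?_ (thin_aux hL1 hδ hs)
  let f : {w | InCone l r w ∧ (det l w : ℝ) ≤ δ * √((norm w : ℤ) : ℝ)} → ℕ × ℕ := fun w =>
    ((coneMap l r ⟨w.1, w.2.1⟩).2, (coneMap l r ⟨w.1, w.2.1⟩).1)
  have hf : Function.Injective f := by
    intro w w' heq
    have h1 : coneMap l r ⟨w.1, w.2.1⟩ = coneMap l r ⟨w'.1, w'.2.1⟩ := by
      simp only [f, Prod.mk.injEq] at heq
      exact Prod.ext heq.2 heq.1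
    have h2 := coneMap_inj hp h1
    apply Subtype.ext
    exact congrArg (fun z => z.1) h2
  refine le_trans ?_ (ENNReal.tsum_comp_le_tsum_of_injective hf _)
  refine ENNReal.tsum_le_tsum fun w => ?_
  obtain ⟨w, hw, hthin⟩ := w
  have a1 : (1 : ℝ) ≤ ((det l w : ℤ) : ℝ) := by exact_mod_cast hw.1
  have a2 : (1 : ℝ) ≤ ((det w r : ℤ) : ℝ) := by exact_mod_cast hw.2
  have e1 : (((f ⟨w, hw, hthin⟩).1 : ℕ) : ℝ) + 1 = (det w r : ℝ) := toNat_cast_add hw.2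
  have e2 : (((f ⟨w, hw, hthin⟩).2 : ℕ) : ℝ) + 1 = (det l w : ℝ) := toNat_cast_add hw.1
  have hle := norm_cone_le h hp hw
  have hcond : (((f ⟨w, hw, hthin⟩).2 : ℕ) : ℝ) + 1
      ≤ 2 * δ * L * ((((f ⟨w, hw, hthin⟩).1 : ℕ) : ℝ) + 1) := by
    rw [e1, e2]
    have h1 : √((norm w : ℤ) : ℝ) ≤ 2 * ((det w r : ℝ) * L) := by
      have : (det l w : ℝ) * R ≤ (δ * R) * √((norm w : ℤ) : ℝ) := by
        calc (det l w : ℝ) * R ≤ (δ * √((norm w : ℤ) : ℝ)) * R := by gcongr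
          _ = _ := by ring
      have h2 : (δ * R) * √((norm w : ℤ) : ℝ) ≤ 1 / 2 * √((norm w : ℤ) : ℝ) := by gcongr
      linarith
    calc ((det l w : ℤ) : ℝ) ≤ δ * √((norm w : ℤ) : ℝ) := hthin
      _ ≤ δ * (2 * ((det w r : ℝ) * L)) := by gcongr
      _ = _ := by ring
  rw [if_pos hcond, e1]
  · refine ENNReal.ofReal_le_ofReal ?_
    have hge := norm_cone_ge hb h hp hw
    have hr := nm_pos h r hp.ne_zero_right
    have hge2 : (det w r) ^ 2 * norm l ≤ norm w := by nlinarith [sq_nonneg (det l w)]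
    have hge3 : ((det w r : ℝ) * L) ^ 2 ≤ ((norm w : ℤ) : ℝ) := by
      rw [mul_pow, hL2]; exact_mod_cast hge2
    unfold psi
    calc ((norm w : ℤ) : ℝ) ^ (-s) ≤ (((det w r : ℝ) * L) ^ 2) ^ (-s) :=
          Real.rpow_le_rpow_of_nonpos (by positivity) hge3 (by linarith)
      _ = _ := by
          rw [← Real.rpow_natCast, ← Real.rpow_mul (by positivity)]
          congr 1; push_cast; ring

lemma thin_right (hb : 0 ≤ b) (h : b ^ 2 < 4 * c) {l r : Q b c} (hp : IsPair l r) {s δ : ℝ}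
    (hs : 1 < s) (hs2 : s ≤ 2) (hδ : 0 ≤ δ) (hδ2 : δ * √((norm l : ℤ) : ℝ) ≤ 1 / 2) :
    ∑' w, {w | InCone l r w ∧ (det w r : ℝ) ≤ δ * √((norm w : ℤ) : ℝ)}.indicator (psi s) w
      ≤ 2 * δ * z0 s := by
  refine indicator_tsum_le h hs hs2 _ (mul_nonneg (by positivity) (z0_nonneg _)) ?_
  have hl1 := one_le_norm h hp.ne_zero_left
  have hr1 := one_le_norm h hp.ne_zero_right
  set L : ℝ := √((norm l : ℤ) : ℝ) with hL
  set R : ℝ := √((norm r : ℤ) : ℝ) with hR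
  have hL1 : 1 ≤ L := by rw [hL]; exact Real.one_le_sqrt.mpr hl1
  have hR1 : 1 ≤ R := by rw [hR]; exact Real.one_le_sqrt.mpr hr1
  have hR2 : R ^ 2 = ((norm r : ℤ) : ℝ) := Real.sq_sqrt (by linarith)
  rw [ENNReal.ofReal_mul (by positivity), ← Z0_eq hs]
  refine le_trans ?_ (thin_aux hR1 hδ hs)
  let f : {w | InCone l r w ∧ (det w r : ℝ) ≤ δ * √((norm w : ℤ) : ℝ)} → ℕ × ℕ := fun w =>
    (coneMap l r ⟨w.1, w.2.1⟩)
  have hf : Function.Injective f := by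
    intro w w' heq
    have h2 := coneMap_inj hp heq
    apply Subtype.ext
    exact congrArg (fun z => z.1) h2
  refine le_trans ?_ (ENNReal.tsum_comp_le_tsum_of_injective hf _)
  refine ENNReal.tsum_le_tsum fun w => ?_
  obtain ⟨w, hw, hthin⟩ := w
  have a1 : (1 : ℝ) ≤ ((det l w : ℤ) : ℝ) := by exact_mod_cast hw.1
  have a2 : (1 : ℝ) ≤ ((det w r : ℤ) : ℝ) := by exact_mod_cast hw.2
  have e1 : (((f ⟨w, hw, hthin⟩).2 : ℕ) : ℝ) + 1 = (det w r : ℝ) := toNat_cast_add hw.2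
  have e2 : (((f ⟨w, hw, hthin⟩).1 : ℕ) : ℝ) + 1 = (det l w : ℝ) := toNat_cast_add hw.1
  have hle := norm_cone_le h hp hw
  have hcond : (((f ⟨w, hw, hthin⟩).2 : ℕ) : ℝ) + 1
      ≤ 2 * δ * R * ((((f ⟨w, hw, hthin⟩).1 : ℕ) : ℝ) + 1) := by
    rw [e1, e2]
    have h1 : √((norm w : ℤ) : ℝ) ≤ 2 * ((det l w : ℝ) * R) := by
      have : (det w r : ℝ) * L ≤ (δ * L) * √((norm w : ℤ) : ℝ) := by
        calc (det w r : ℝ) * L ≤ (δ * √((norm w : ℤ) : ℝ)) * L := by gcongr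
          _ = _ := by ring
      have h2 : (δ * L) * √((norm w : ℤ) : ℝ) ≤ 1 / 2 * √((norm w : ℤ) : ℝ) := by gcongr
      linarith
    calc ((det w r : ℤ) : ℝ) ≤ δ * √((norm w : ℤ) : ℝ) := hthin
      _ ≤ δ * (2 * ((det l w : ℝ) * R)) := by gcongr
      _ = _ := by ring
  rw [if_pos hcond, e2]
  · refine ENNReal.ofReal_le_ofReal ?_
    have hge := norm_cone_ge hb h hp hw
    have hl := nm_pos h l hp.ne_zero_left
    have hge2 : (det l w) ^ 2 * norm r ≤ norm w := by nlinarith [sq_nonneg (det w r)]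
    have hge3 : ((det l w : ℝ) * R) ^ 2 ≤ ((norm w : ℤ) : ℝ) := by
      rw [mul_pow, hR2]; exact_mod_cast hge2
    unfold psi
    calc ((norm w : ℤ) : ℝ) ^ (-s) ≤ (((det l w : ℝ) * R) ^ 2) ^ (-s) :=
          Real.rpow_le_rpow_of_nonpos (by positivity) hge3 (by linarith)
      _ = _ := by
          rw [← Real.rpow_natCast, ← Real.rpow_mul (by positivity)]
          congr 1; push_cast; ring

end Pool.Agent.SB
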