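import Mathlib
import Pool.Agent.Lib.MP_a17b09_nt.SB.Mass

open QuadraticAlgebra ENNReal Filter Topology

namespace Pool.Agent.SB

variable {b c : ℤ}

lemma ev12 : ∀ᶠ s in 𝓝[>] (1 : ℝ), 1 < s ∧ s ≤ 2 := by
  have h1 : ∀ᶠ s in 𝓝[>] (1 : ℝ), 1 < s := self_mem_nhdsWithin
  have h2 : ∀ᶠ s in 𝓝[>] (1 : ℝ), s ≤ 2 :=
    nhdsWithin_le_nhds (Iic_mem_nhds (by norm_num : (1 : ℝ) < 2))
  filter_upwards [h1, h2] with s a b using ⟨a, b⟩

lemma det_med_left (l r w : Q b c) : det w (l + r) = det w r - det l w := by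
  simp only [det, re_add, im_add]; ring

lemma det_med_right (l r w : Q b c) : det (l + r) w = det l w - det w r := by
  simp only [det, re_add, im_add]; ring

lemma ind_split (l r : Q b c) (φ : Q b c → ℝ) (w : Q b c) :
    (cone l r).indicator φ w = (cone l (l + r)).indicator φ w + (cone (l + r) r).indicator φ w
      + (ray l r).indicator φ w := by
  classical
  simp only [Set.indicator_apply, cone, ray, InCone, Set.mem_ofPred_eq, det_med_left, det_med_right]
  by_cases h1 : 0 < det l w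
  · rcases lt_trichotomy (det w r) (det l w) with h | h | h
    · by_cases h2 : 0 < det w r
      · rw [if_pos ⟨h1, h2⟩, if_neg (by omega), if_pos (by omega), if_neg (by omega)]; ring
      · rw [if_neg (by omega), if_neg (by omega), if_neg (by omega), if_neg (by omega)]; ring
    · rw [if_pos (by omega), if_neg (by omega), if_neg (by omega), if_pos (by omega)]; ring
    · rw [if_pos (by omega), if_pos (by omega), if_neg (by omega), if_neg (by omega)]; ring
  · rw [if_neg (by omega), if_neg (by omega), if_neg (by omega), if_neg (by omega)]; ring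

lemma ind_summable (h : b ^ 2 < 4 * c) {s : ℝ} (hs : 1 < s) (hs2 : s ≤ 2) (A : Set (Q b c)) :
    Summable (A.indicator (psi s)) := (psi_summable h hs hs2).indicator A

/-- A sign function on the ring. -/
structure SignFn (F : Q b c → ℝ) : Prop where
  one : ∀ w, w ≠ 0 → F w = 1 ∨ F w = -1
  smul : ∀ (n : ℤ) (w : Q b c), 0 < n → F ((n : Q b c) * w) = F w

lemma SignFn.abs_le {F : Q b c → ℝ} (hF : SignFn F) {w : Q b c} (hw : w ≠ 0) : |F w| ≤ 1 := by
  rcases hF.one w hw with h | h <;> rw [h] <;> norm_num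

lemma ne_zero_of_cone {l r w : Q b c} (hw : w ∈ cone l r) : w ≠ 0 := by
  rintro rfl
  have := hw.1
  simp [det] at this

lemma indF_summable (h : b ^ 2 < 4 * c) {F : Q b c → ℝ} (hF : SignFn F) {s : ℝ} (hs : 1 < s)
    (hs2 : s ≤ 2) (l r : Q b c) :
    Summable ((cone l r).indicator (fun w => F w * psi s w)) := by
  refine Summable.of_norm_bounded (psi_summable h hs hs2) fun w => ?_
  rw [Real.norm_eq_abs]
  by_cases hw : w ∈ cone l r
  · rw [Set.indicator_of_mem hw, abs_mul, abs_of_nonneg (psi_nonneg h s w)]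
    have := hF.abs_le (ne_zero_of_cone hw)
    have := psi_nonneg h s w
    nlinarith
  · rw [Set.indicator_of_notMem hw, abs_zero]
    exact psi_nonneg h s w

lemma base_ineq (h : b ^ 2 < 4 * c) {F : Q b c → ℝ} (hF : SignFn F) {s : ℝ} (hs : 1 < s)
    (hs2 : s ≤ 2) (T : ℤ) {l r : Q b c} (hp : IsPair l r) (hT : T ≤ tv l r) :
    ∑' w, (cone l r).indicator (psi s) w
      ≤ |∑' w, (cone l r).indicator (fun w => F w * psi s w) w|
        + 2 * ∑' w, (cone l r ∩ {w | Bad F T w}).indicator (psi s) w := by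
  set σ : ℝ := (F l + F r) / 2 with hσ
  have hσ1 : |σ| ≤ 1 := by
    rcases hF.one l hp.ne_zero_left with h1 | h1 <;> rcases hF.one r hp.ne_zero_right with h2 | h2 <;>
      rw [hσ, h1, h2] <;> norm_num
  have hpt : ∀ w, (cone l r).indicator (psi s) w
      ≤ σ * (cone l r).indicator (fun w => F w * psi s w) w
        + 2 * (cone l r ∩ {w | Bad F T w}).indicator (psi s) w := by
    intro w
    by_cases hw : w ∈ cone l r
    · rw [Set.indicator_of_mem hw, Set.indicator_of_mem hw]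
      have hpsi := psi_nonneg h s w
      by_cases hb : Bad F T w
      · rw [Set.indicator_of_mem (show w ∈ cone l r ∩ {w | Bad F T w} from ⟨hw, hb⟩)]
        have h1 : |σ * F w| ≤ 1 := by
          rw [abs_mul]
          have := hF.abs_le (ne_zero_of_cone hw)
          nlinarith [abs_nonneg σ, abs_nonneg (F w)]
        have h2 : -1 ≤ σ * F w := (abs_le.1 h1).1
        nlinarith
      · rw [Set.indicator_of_notMem (show w ∉ cone l r ∩ {w | Bad F T w} from fun hh => hb hh.2)]
        rcases pointwise h F hF.one hF.smul T l r w hp hT hw with h1 | h1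
        · exact absurd h1 hb
        · rw [mul_zero, add_zero, ← mul_assoc, ← h1, one_mul]
    · rw [Set.indicator_of_notMem hw, Set.indicator_of_notMem hw,
        Set.indicator_of_notMem (show w ∉ cone l r ∩ {w | Bad F T w} from fun hh => hw hh.1)]
      simp
  have s1 := indF_summable h hF hs hs2 l r
  have s2 := ind_summable h hs hs2 (cone l r ∩ {w | Bad F T w})
  calc ∑' w, (cone l r).indicator (psi s) w
      ≤ ∑' w, (σ * (cone l r).indicator (fun w => F w * psi s w) w
        + 2 * (cone l r ∩ {w | Bad F T w}).indicator (psi s) w) :=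
        (ind_summable h hs hs2 _).tsum_le_tsum hpt ((s1.mul_left σ).add (s2.mul_left 2))
    _ = σ * ∑' w, (cone l r).indicator (fun w => F w * psi s w) w
        + 2 * ∑' w, (cone l r ∩ {w | Bad F T w}).indicator (psi s) w := by
        rw [(s1.mul_left σ).tsum_add (s2.mul_left 2), tsum_mul_left, tsum_mul_left]
    _ ≤ _ := by
        gcongr
        refine (le_abs_self _).trans ?_
        rw [abs_mul]
        exact mul_le_of_le_one_left (abs_nonneg _) hσ1

/-- The hypothesis that `F` has mean value zero in every cone. -/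
def SecMean (F : Q b c → ℝ) : Prop := ∀ l r : Q b c, IsPair l r → ∀ ε : ℝ, 0 < ε →
  ∀ᶠ s in 𝓝[>] (1 : ℝ), |∑' w, (cone l r).indicator (fun w => F w * psi s w) w| ≤ ε * z0 s

lemma z0_pos_ev (K : ℝ) : ∀ᶠ s in 𝓝[>] (1 : ℝ), K ≤ z0 s := z0_tendsto.eventually_ge_atTop K

lemma tree_ineq (hb : 0 ≤ b) (h : b ^ 2 < 4 * c) {F : Q b c → ℝ} (hF : SignFn F)
    (hM : SecMean F) (T : ℤ) (n : ℕ) :
    ∀ l r : Q b c, IsPair l r → T ≤ tv l r + n → ∀ ε : ℝ, 0 < ε → ∀ᶠ s in 𝓝[>] (1 : ℝ),
      ∑' w, (cone l r).indicator (psi s) w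
        ≤ 2 * (∑' w, (cone l r ∩ {w | Bad F T w}).indicator (psi s) w) + ε * z0 s := by
  induction n with
  | zero =>
    intro l r hp hT ε hε
    filter_upwards [hM l r hp ε hε, ev12] with s h1 h2
    have := base_ineq h hF h2.1 h2.2 T hp (by simpa using hT)
    linarith
  | succ n ih =>
    intro l r hp hT ε hε
    have hN1 := nm_pos h l hp.ne_zero_left
    have hN2 := nm_pos h r hp.ne_zero_right
    have i1 := ih l (l + r) hp.left (by rw [tv_left]; push_cast at hT; omega) (ε / 3) (by positivity)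
    have i2 := ih (l + r) r hp.right (by rw [tv_right l r hp.d]; push_cast at hT; omega) (ε / 3)
      (by positivity)
    filter_upwards [i1, i2, ev12, z0_pos_ev (z0 (3 / 2) / (ε / 3))] with s h1 h2 h3 h4
    have hray := ray_mass hb h hp h3.1 h3.2
    have h5 : z0 (3 / 2) ≤ ε / 3 * z0 s := by
      rw [div_le_iff₀ (by positivity)] at h4; linarith
    have hs1 := ind_summable h h3.1 h3.2 (cone l (l + r))
    have hs2 := ind_summable h h3.1 h3.2 (cone (l + r) r)
    have hs3 := ind_summable h h3.1 h3.2 (ray l r)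
    have hsum : ∑' w, (cone l r).indicator (psi s) w
        = ∑' w, (cone l (l + r)).indicator (psi s) w + ∑' w, (cone (l + r) r).indicator (psi s) w
          + ∑' w, (ray l r).indicator (psi s) w := by
      rw [← hs1.tsum_add hs2, ← (hs1.add hs2).tsum_add hs3]
      exact tsum_congr fun w => ind_split l r (psi s) w
    have hs4 := ind_summable h h3.1 h3.2 (cone l (l + r) ∩ {w | Bad F T w})
    have hs5 := ind_summable h h3.1 h3.2 (cone (l + r) r ∩ {w | Bad F T w})
    have hs6 := ind_summable h h3.1 h3.2 (cone l r ∩ {w | Bad F T w})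
    have hC : ∑' w, (cone l (l + r) ∩ {w | Bad F T w}).indicator (psi s) w
        + ∑' w, (cone (l + r) r ∩ {w | Bad F T w}).indicator (psi s) w
        ≤ ∑' w, (cone l r ∩ {w | Bad F T w}).indicator (psi s) w := by
      rw [← hs4.tsum_add hs5]
      refine (hs4.add hs5).tsum_le_tsum (fun w => ?_) hs6
      have e := ind_split l r ({w | Bad F T w}.indicator (psi s)) w
      rw [Set.indicator_indicator, Set.indicator_indicator, Set.indicator_indicator,
        Set.indicator_indicator] at e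
      rw [e]
      have : 0 ≤ (ray l r ∩ {w | Bad F T w}).indicator (psi s) w :=
        Set.indicator_nonneg (fun w _ => psi_nonneg h s w) w
      linarith
    rw [hsum]
    linarith


/-- weight of a pair on which `F` changes sign -/
noncomputable def HH (F : Q b c → ℝ) (T : ℤ) (p : Q b c × Q b c) : ℝ≥0∞ :=
  open Classical in
  if IsPair p.1 p.2 ∧ T ≤ tv p.1 p.2 ∧ F p.1 ≠ F p.2 then
    ENNReal.ofReal (1 / (√((norm p.1 : ℤ) : ℝ) * √((norm p.2 : ℤ) : ℝ))) else 0

/-- the set of bad pairs -/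
def BP (F : Q b c → ℝ) (T : ℤ) : Set (Q b c × Q b c) :=
  {p | IsPair p.1 p.2 ∧ T ≤ tv p.1 p.2 ∧ (F p.1 ≠ F p.2 ∨ (F p.1 = F p.2 ∧ F (p.1 + p.2) ≠ F p.1))}

lemma nm_add_le (h : b ^ 2 < 4 * c) (l r : Q b c) :
    norm (l + r) ≤ 2 * norm l + 2 * norm r := by
  have h1 := nm_nonneg h (l - r)
  have h2 : norm (l + r) + norm (l - r) = 2 * norm l + 2 * norm r := by
    simp only [nm_def, re_add, im_add, re_sub, im_sub]; ring
  linarith

lemma weight_le (h : b ^ 2 < 4 * c) (F : Q b c → ℝ) {T : ℤ} {p : Q b c × Q b c}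
    (hp : p ∈ BP F T) :
    ENNReal.ofReal (1 / (√((norm p.1 : ℤ) : ℝ) * √((norm p.2 : ℤ) : ℝ)))
      ≤ HH F T p + 2 * HH F T (p.1, p.1 + p.2) + 2 * HH F T (p.1 + p.2, p.2) := by
  obtain ⟨l, r⟩ := p
  obtain ⟨hpair, hT, hcase⟩ := hp
  simp only at hpair hT hcase ⊢
  rcases hcase with hne | ⟨heq, hne⟩
  · have : HH F T (l, r) = ENNReal.ofReal (1 / (√((norm l : ℤ) : ℝ) * √((norm r : ℤ) : ℝ))) := by
      rw [HH, if_pos ⟨hpair, hT, hne⟩]
    rw [this, add_assoc]
    exact le_self_add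
  · have hl := nm_pos h l hpair.ne_zero_left
    have hr := nm_pos h r hpair.ne_zero_right
    have hm := nm_pos h (l + r) hpair.left.ne_zero_right
    have hl' : (0 : ℝ) < ((norm l : ℤ) : ℝ) := by exact_mod_cast hl
    have hr' : (0 : ℝ) < ((norm r : ℤ) : ℝ) := by exact_mod_cast hr
    have hm' : (0 : ℝ) < ((norm (l + r) : ℤ) : ℝ) := by exact_mod_cast hm
    have hadd := nm_add_le h l r
    rcases le_total (norm l) (norm r) with hlr | hlr
    · have h1 : HH F T (l, l + r)
          = ENNReal.ofReal (1 / (√((norm l : ℤ) : ℝ) * √((norm (l + r) : ℤ) : ℝ))) := by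
        rw [HH, if_pos ⟨hpair.left, by show T ≤ tv l (l + r); rw [tv_left]; omega, fun e => hne e.symm⟩]
      have h2 : ENNReal.ofReal (1 / (√((norm l : ℤ) : ℝ) * √((norm r : ℤ) : ℝ)))
          ≤ 2 * HH F T (l, l + r) := by
        rw [h1, show (2 : ℝ≥0∞) = ENNReal.ofReal 2 by norm_num,
          ← ENNReal.ofReal_mul (by norm_num)]
        refine ENNReal.ofReal_le_ofReal ?_
        have h3 : √((norm (l + r) : ℤ) : ℝ) ≤ 2 * √((norm r : ℤ) : ℝ) := by
          rw [Real.sqrt_le_left (by positivity), mul_pow, Real.sq_sqrt hr'.le]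
          have : norm (l + r) ≤ 2 ^ 2 * norm r := by omega
          exact_mod_cast this
        rw [mul_one_div, div_le_div_iff₀ (by positivity) (by positivity)]
        have : 0 < √((norm l : ℤ) : ℝ) := Real.sqrt_pos.2 hl'
        nlinarith
      exact h2.trans (le_trans le_add_self le_self_add)
    · have h1 : HH F T (l + r, r)
          = ENNReal.ofReal (1 / (√((norm (l + r) : ℤ) : ℝ) * √((norm r : ℤ) : ℝ))) := by
        rw [HH, if_pos ⟨hpair.right, by show T ≤ tv (l + r) r; rw [tv_right l r hpair.d]; omega, fun e => hne (e.trans heq.symm)⟩]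
      have h2 : ENNReal.ofReal (1 / (√((norm l : ℤ) : ℝ) * √((norm r : ℤ) : ℝ)))
          ≤ 2 * HH F T (l + r, r) := by
        rw [h1, show (2 : ℝ≥0∞) = ENNReal.ofReal 2 by norm_num,
          ← ENNReal.ofReal_mul (by norm_num)]
        refine ENNReal.ofReal_le_ofReal ?_
        have h3 : √((norm (l + r) : ℤ) : ℝ) ≤ 2 * √((norm l : ℤ) : ℝ) := by
          rw [Real.sqrt_le_left (by positivity), mul_pow, Real.sq_sqrt hl'.le]
          have : norm (l + r) ≤ 2 ^ 2 * norm l := by omega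
          exact_mod_cast this
        rw [mul_one_div, div_le_div_iff₀ (by positivity) (by positivity)]
        have : 0 < √((norm r : ℤ) : ℝ) := Real.sqrt_pos.2 hr'
        nlinarith
      exact h2.trans le_add_self

lemma bad_mass (hb : 0 ≤ b) (h : b ^ 2 < 4 * c) (F : Q b c → ℝ) (T : ℤ) {s : ℝ} (hs : 1 < s)
    (hs2 : s ≤ 2) (A : Set (Q b c)) :
    ENNReal.ofReal (∑' w, (A ∩ {w | Bad F T w}).indicator (psi s) w)
      ≤ 10 * (∑' p, HH F T p) * Z0 s := by
  rw [toReal_sum h hs hs2]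
  have hsub : A ∩ {w | Bad F T w} ⊆ ⋃ p ∈ BP F T, cone p.1 p.2 := by
    rintro w ⟨_, l, r, h1, h2, h3, h4⟩
    simp only [Set.mem_iUnion]
    exact ⟨(l, r), ⟨h1, h2, h3⟩, h4⟩
  refine (ENNReal.tsum_mono_subtype (fun w => ENNReal.ofReal (psi s w)) hsub).trans ?_
  refine (ENNReal.tsum_biUnion_le_tsum (fun w => ENNReal.ofReal (psi s w)) (BP F T)
    (fun p => cone p.1 p.2)).trans ?_
  calc ∑' (i : BP F T), ∑' (x : cone i.1.1 i.1.2), ENNReal.ofReal (psi s x.1)
      ≤ ∑' (i : BP F T), (2 * (HH F T i.1 + 2 * HH F T (i.1.1, i.1.1 + i.1.2)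
          + 2 * HH F T (i.1.1 + i.1.2, i.1.2))) * Z0 s := by
        refine ENNReal.tsum_le_tsum fun p => ?_
        refine (cone_mass hb h p.2.1 hs.le).trans ?_
        gcongr
        rw [show (2 : ℝ) / (√((norm p.1.1 : ℤ) : ℝ) * √((norm p.1.2 : ℤ) : ℝ))
          = 2 * (1 / (√((norm p.1.1 : ℤ) : ℝ) * √((norm p.1.2 : ℤ) : ℝ))) by ring,
          ENNReal.ofReal_mul (by norm_num), show ENNReal.ofReal 2 = 2 by norm_num]
        gcongr
        exact weight_le h F p.2
    _ ≤ ∑' (p : Q b c × Q b c), (2 * (HH F T p + 2 * HH F T (p.1, p.1 + p.2)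
          + 2 * HH F T (p.1 + p.2, p.2))) * Z0 s :=
        ENNReal.tsum_comp_le_tsum_of_injective (Subtype.val_injective)
          (fun p : Q b c × Q b c => (2 * (HH F T p + 2 * HH F T (p.1, p.1 + p.2)
          + 2 * HH F T (p.1 + p.2, p.2))) * Z0 s)
    _ = 2 * (∑' p, HH F T p + 2 * ∑' (p : Q b c × Q b c), HH F T (p.1, p.1 + p.2)
          + 2 * ∑' (p : Q b c × Q b c), HH F T (p.1 + p.2, p.2)) * Z0 s := by
        rw [ENNReal.tsum_mul_right, ENNReal.tsum_mul_left, ENNReal.tsum_add, ENNReal.tsum_add,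
          ENNReal.tsum_mul_left, ENNReal.tsum_mul_left]
    _ ≤ 2 * (∑' p, HH F T p + 2 * ∑' p, HH F T p + 2 * ∑' p, HH F T p) * Z0 s := by
        have i1 : Function.Injective (fun p : Q b c × Q b c => (p.1, p.1 + p.2)) := by
          rintro ⟨l, r⟩ ⟨l', r'⟩ he
          simp only [Prod.mk.injEq] at he
          obtain ⟨e1, e2⟩ := he
          subst e1
          simpa using e2
        have i2 : Function.Injective (fun p : Q b c × Q b c => (p.1 + p.2, p.2)) := by
          rintro ⟨l, r⟩ ⟨l', r'⟩ he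
          simp only [Prod.mk.injEq] at he
          obtain ⟨e1, e2⟩ := he
          subst e2
          simpa using e1
        have j1 := ENNReal.tsum_comp_le_tsum_of_injective i1 (HH F T)
        have j2 := ENNReal.tsum_comp_le_tsum_of_injective i2 (HH F T)
        gcongr
    _ = _ := by ring


/-- the weighted divisor sum over a set of integers -/
noncomputable def DS (b c : ℤ) (E : Set ℕ) (T : ℕ) : ℝ≥0∞ :=
  open Classical in
  ∑' t : ℕ, if t ∈ E ∧ T ≤ t then
    ((fv b c t).natAbs.divisors.card : ℝ≥0∞) * ENNReal.ofReal (1 / (t : ℝ)) else 0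

lemma HH_sum (hb : 0 ≤ b) (h : b ^ 2 < 4 * c) (F : Q b c → ℝ) (E : Set ℕ) (T : ℕ) (hT1 : 1 ≤ T)
    (hE : ∀ l r : Q b c, IsPair l r → F l ≠ F r → (tv l r).toNat ∈ E) :
    ∑' p, HH F T p ≤ DS b c E T := by
  classical
  have hc : 1 ≤ c := by nlinarith [sq_nonneg b]
  set S : Set (Q b c × Q b c) := {p | IsPair p.1 p.2 ∧ (T : ℤ) ≤ tv p.1 p.2 ∧ F p.1 ≠ F p.2} with hS
  let f : S → ℕ × ℕ := fun p => ((tv p.1.1 p.1.2).toNat, (norm p.1.1).natAbs)
  have hf : Function.Injective f := by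
    intro p q heq
    simp only [f, Prod.mk.injEq] at heq
    obtain ⟨e1, e2⟩ := heq
    have hp := p.2
    have hq := q.2
    have t1 := hp.1.tv_nonneg hb (by omega)
    have t2 := hq.1.tv_nonneg hb (by omega)
    have n1 := nm_nonneg h p.1.1
    have n2 := nm_nonneg h q.1.1
    have := pair_inj hb h hp.1 hq.1 (by omega) (by omega)
    exact Subtype.ext (Prod.ext this.1 this.2)
  let G : ℕ × ℕ → ℝ≥0∞ := fun x => if x.1 ∈ E ∧ T ≤ x.1 ∧ x.2 ∈ (fv b c x.1).natAbs.divisors then
    ENNReal.ofReal (1 / (x.1 : ℝ)) else 0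
  have h1 : ∑' p, HH F T p ≤ ∑' p : S, G (f p) := by
    rw [← tsum_subtype_eq_of_support_subset (s := S) (f := HH F T)]
    · refine ENNReal.tsum_le_tsum fun p => ?_
      have hp : IsPair p.1.1 p.1.2 ∧ (T : ℤ) ≤ tv p.1.1 p.1.2 ∧ F p.1.1 ≠ F p.1.2 := p.2
      rw [HH, if_pos hp]
      have t1 := hp.1.tv_nonneg hb (by omega)
      have hcast : (((tv p.1.1 p.1.2).toNat : ℕ) : ℤ) = tv p.1.1 p.1.2 := Int.toNat_of_nonneg t1
      have hfv : 0 < fv b c (tv p.1.1 p.1.2) := by unfold fv; positivity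
      have hG : G (f p) = ENNReal.ofReal (1 / (((tv p.1.1 p.1.2).toNat : ℕ) : ℝ)) := by
        simp only [G, f]
        rw [if_pos]
        refine ⟨hE _ _ hp.1 hp.2.2, ?_, ?_⟩
        · have := hp.2.1; omega
        · rw [Nat.mem_divisors, hcast]
          refine ⟨?_, by omega⟩
          rw [Int.natAbs_dvd_natAbs, ← hp.1.norm_mul]
          exact Dvd.intro _ rfl
      rw [hG]
      refine ENNReal.ofReal_le_ofReal ?_
      have htpos : (0 : ℝ) < (((tv p.1.1 p.1.2).toNat : ℕ) : ℝ) := by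
        have := hp.2.1
        have h2 : 0 < (tv p.1.1 p.1.2).toNat := by omega
        exact_mod_cast h2
      refine one_div_le_one_div_of_le htpos ?_
      rw [← Real.sqrt_mul (by exact_mod_cast nm_nonneg h p.1.1)]
      refine Real.le_sqrt_of_sq_le ?_
      have h3 : (((tv p.1.1 p.1.2).toNat : ℕ) : ℤ) ^ 2 ≤ norm p.1.1 * norm p.1.2 := by
        rw [hcast, hp.1.norm_mul, fv]
        nlinarith [mul_nonneg hb t1]
      exact_mod_cast h3
    · intro p hp
      by_contra hne
      apply hp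
      show HH F T p = 0
      have hne' : ¬ (IsPair p.1 p.2 ∧ (T : ℤ) ≤ tv p.1 p.2 ∧ F p.1 ≠ F p.2) := hne
      rw [HH, if_neg hne']
  have h2 : ∑' p : S, G (f p) ≤ ∑' x, G x := ENNReal.tsum_comp_le_tsum_of_injective hf G
  have h3 : ∑' x, G x = DS b c E T := by
    rw [ENNReal.tsum_prod', DS]
    refine tsum_congr fun t => ?_
    simp only [G]
    by_cases ht : t ∈ E ∧ T ≤ t
    · rw [if_pos ht]
      rw [tsum_eq_sum (s := (fv b c t).natAbs.divisors)]
      · rw [Finset.sum_congr rfl (fun d hd => if_pos ⟨ht.1, ht.2, hd⟩), Finset.sum_const,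
          nsmul_eq_mul]
      · intro d hd
        rw [if_neg]
        tauto
    · rw [if_neg ht]
      rw [ENNReal.tsum_eq_zero]
      intro d
      rw [if_neg]
      tauto
  exact h1.trans (h2.trans_eq h3)

theorem tail_lower (hb : 0 ≤ b) (h : b ^ 2 < 4 * c) {F : Q b c → ℝ} (hF : SignFn F)
    (hM : SecMean F) (E : Set ℕ)
    (hE : ∀ l r : Q b c, IsPair l r → F l ≠ F r → (tv l r).toNat ∈ E) :
    ∃ δ : ℝ, 0 < δ ∧ ∀ T : ℕ, 1 ≤ T → ENNReal.ofReal δ ≤ DS b c E T := by
  have hc : 1 ≤ c := by nlinarith [sq_nonneg b]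
  have hm : (0 : ℝ) < ((1 + b + c : ℤ) : ℝ) := by exact_mod_cast (by omega : 0 < 1 + b + c)
  set κ : ℝ := ((1 + b + c : ℤ) : ℝ) ^ (-2 : ℝ) with hκ
  have hκ0 : 0 < κ := by positivity
  refine ⟨κ / 40, by positivity, fun T hT => ?_⟩
  by_contra hlt
  push Not at hlt
  have hroot := tree_ineq hb h hF hM T T ⟨1, 0⟩ ⟨0, 1⟩ root_pair (by simp [tv]) (κ / 4) (by positivity)
  obtain ⟨s, h1, h2, h3⟩ := (hroot.and (ev12.and (z0_pos_ev 1))).exists
  have hlow := root_lower hb h h2.1 h2.2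
  have hbad := bad_mass hb h F T h2.1 h2.2 (cone ⟨1, 0⟩ ⟨0, 1⟩)
  have hHH := HH_sum hb h F E T hT hE
  have h4 : ENNReal.ofReal (∑' w, (cone (⟨1, 0⟩ : Q b c) ⟨0, 1⟩ ∩ {w | Bad F T w}).indicator (psi s) w)
      ≤ ENNReal.ofReal (κ / 4 * z0 s) := by
    refine hbad.trans ?_
    rw [Z0_eq h2.1, ENNReal.ofReal_mul (by positivity)]
    gcongr
    calc 10 * ∑' p, HH F T p ≤ 10 * ENNReal.ofReal (κ / 40) := by
          gcongr
          exact hHH.trans hlt.le
      _ = ENNReal.ofReal (κ / 4) := by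
          rw [show (10 : ℝ≥0∞) = ENNReal.ofReal 10 by norm_num, ← ENNReal.ofReal_mul (by norm_num)]
          congr 1; ring
  have hz : 0 < z0 s := by linarith
  have h5 := (ENNReal.ofReal_le_ofReal_iff (by positivity)).1 h4
  have h6 : κ * z0 s ≤ 2 * (κ / 4 * z0 s) + κ / 4 * z0 s := by
    calc κ * z0 s ≤ _ := hlow
      _ ≤ _ := h1
      _ ≤ _ := by linarith
  nlinarith [mul_pos hκ0 hz]

end Pool.Agent.SB
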