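import Mathlib
import Pool.Agent.Lib.MP_a17b09_nt.SB.Reduction

open QuadraticAlgebra ENNReal Filter Topology

namespace Pool.Agent.SB

variable {b c : ℤ}

/-- the complex root of `x^2 - b x + c` in the upper half plane -/
noncomputable def zt (b c : ℤ) : ℂ := ⟨(b : ℝ) / 2, √(4 * c - b ^ 2) / 2⟩

/-- the complex embedding -/
noncomputable def emb (w : Q b c) : ℂ := w.re + w.im * zt b c

lemma zt_sq (h : b ^ 2 < 4 * c) : zt b c * zt b c = b * zt b c - c := by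
  have h1 : (0 : ℝ) ≤ 4 * c - b ^ 2 := by
    have : (b : ℝ) ^ 2 < 4 * c := by exact_mod_cast h
    linarith
  have h2 := Real.mul_self_sqrt h1
  apply Complex.ext
  · simp only [zt, Complex.mul_re, Complex.sub_re, Complex.intCast_re, Complex.intCast_im]
    nlinarith
  · simp only [zt, Complex.mul_im, Complex.sub_im, Complex.intCast_re, Complex.intCast_im]
    ring

lemma emb_mul (h : b ^ 2 < 4 * c) (v w : Q b c) : emb (v * w) = emb v * emb w := by
  have hz := zt_sq h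
  simp only [emb, re_mul, im_mul]
  push_cast
  linear_combination (-(v.im : ℂ) * w.im) * hz

lemma emb_add (v w : Q b c) : emb (v + w) = emb v + emb w := by
  simp only [emb, re_add, im_add]
  push_cast
  ring

lemma emb_natCast (n : ℕ) : emb (n : Q b c) = n := by
  simp [emb]

lemma emb_one : emb (1 : Q b c) = 1 := by
  have := emb_natCast (b := b) (c := c) 1
  simpa using this

lemma emb_normSq (h : b ^ 2 < 4 * c) (w : Q b c) : ‖emb w‖ ^ 2 = ((norm w : ℤ) : ℝ) := by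
  have h1 : (0 : ℝ) ≤ 4 * c - b ^ 2 := by
    have : (b : ℝ) ^ 2 < 4 * c := by exact_mod_cast h
    linarith
  have h2 := Real.mul_self_sqrt h1
  rw [← Complex.normSq_eq_norm_sq, Complex.normSq_apply, nm_def]
  simp only [emb, zt, Complex.add_re, Complex.add_im, Complex.mul_re, Complex.mul_im,
    Complex.intCast_re, Complex.intCast_im]
  push_cast
  nlinarith

lemma emb_ne_zero (h : b ^ 2 < 4 * c) {w : Q b c} (hw : w ≠ 0) : emb w ≠ 0 := by
  intro h0
  have h1 := emb_normSq h w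
  rw [h0] at h1
  have h2 := nm_pos h w hw
  have h3 : (0 : ℝ) < ((norm w : ℤ) : ℝ) := by exact_mod_cast h2
  rw [← h1] at h3
  simp at h3

lemma one_le_emb (h : b ^ 2 < 4 * c) {w : Q b c} (hw : w ≠ 0) : 1 ≤ ‖emb w‖ := by
  have h1 := emb_normSq h w
  have h2 := one_le_norm h hw
  rw [← h1] at h2
  by_contra hlt
  push Not at hlt
  nlinarith [norm_nonneg (emb w)]

lemma psi_eq (h : b ^ 2 < 4 * c) (s : ℝ) (w : Q b c) : psi s w = ‖emb w‖ ^ (-(2 * s)) := by
  rw [psi, ← emb_normSq h w, ← Real.rpow_natCast, ← Real.rpow_mul (norm_nonneg _)]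
  congr 1; push_cast; ring

/-- direction of an element -/
noncomputable def eta (w : Q b c) : ℂ := emb w / ‖emb w‖

lemma eta_mul (h : b ^ 2 < 4 * c) (v w : Q b c) : eta (v * w) = eta v * eta w := by
  rw [eta, eta, eta, emb_mul h, norm_mul, Complex.ofReal_mul, mul_div_mul_comm]

lemma eta_norm (h : b ^ 2 < 4 * c) {w : Q b c} (hw : w ≠ 0) : ‖eta w‖ = 1 := by
  have h1 := one_le_emb h hw
  rw [eta, norm_div, Complex.norm_real, norm_norm, div_self (by linarith)]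

lemma psi_mul (h : b ^ 2 < 4 * c) (s : ℝ) (v w : Q b c) : psi s (v * w) = psi s v * psi s w := by
  rw [psi_eq h, psi_eq h, psi_eq h, emb_mul h, norm_mul,
    Real.mul_rpow (norm_nonneg _) (norm_nonneg _)]

lemma psi_one (s : ℝ) : psi s (1 : Q b c) = 1 := by
  simp [psi]

lemma pow_sub_pow_le {u v : ℂ} (hu : ‖u‖ = 1) (hv : ‖v‖ = 1) (n : ℕ) :
    ‖u ^ n - v ^ n‖ ≤ n * ‖u - v‖ := by
  induction n with
  | zero => simp
  | succ n ih =>
    have : u ^ (n + 1) - v ^ (n + 1) = u ^ n * (u - v) + (u ^ n - v ^ n) * v := by ring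
    rw [this]
    calc _ ≤ ‖u ^ n * (u - v)‖ + ‖(u ^ n - v ^ n) * v‖ := norm_add_le _ _
      _ = ‖u - v‖ + ‖u ^ n - v ^ n‖ := by rw [norm_mul, norm_mul, norm_pow, hu, hv]; simp
      _ ≤ ‖u - v‖ + n * ‖u - v‖ := by gcongr
      _ = _ := by push_cast; ring

lemma zpow_sub_zpow_le {u v : ℂ} (hu : ‖u‖ = 1) (hv : ‖v‖ = 1) (k : ℤ) :
    ‖u ^ k - v ^ k‖ ≤ |(k : ℝ)| * ‖u - v‖ := by
  have hu0 : u ≠ 0 := by rintro rfl; simp at hu
  have hv0 : v ≠ 0 := by rintro rfl; simp at hv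
  obtain ⟨n, rfl | rfl⟩ := k.eq_nat_or_neg
  · simpa using pow_sub_pow_le hu hv n
  · have h1 := pow_sub_pow_le (u := u⁻¹) (v := v⁻¹) (by rw [norm_inv, hu, inv_one])
      (by rw [norm_inv, hv, inv_one]) n
    have h2 : ‖u⁻¹ - v⁻¹‖ = ‖u - v‖ := by
      rw [inv_sub_inv hu0 hv0, norm_div, norm_mul, hu, hv, one_mul, div_one, norm_sub_rev]
    rw [h2] at h1
    simpa [zpow_neg, inv_pow] using h1

lemma dir_sub_le {z z' : ℂ} (hz : z ≠ 0) (hz' : z' ≠ 0) :
    ‖z' / ‖z'‖ - z / ‖z‖‖ ≤ 2 * ‖z' - z‖ / ‖z‖ := by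
  have h1 : 0 < ‖z‖ := norm_pos_iff.2 hz
  have h2 : 0 < ‖z'‖ := norm_pos_iff.2 hz'
  have h1c : (‖z‖ : ℂ) ≠ 0 := by exact_mod_cast h1.ne'
  have h2c : (‖z'‖ : ℂ) ≠ 0 := by exact_mod_cast h2.ne'
  have e : z' / ‖z'‖ - z / ‖z‖ = (z' - z) / ‖z‖ + z' / ‖z'‖ * ((‖z‖ - ‖z'‖ : ℝ) : ℂ) / ‖z‖ := by
    push_cast
    field_simp
    ring
  rw [e]
  calc _ ≤ ‖(z' - z) / ‖z‖‖ + ‖z' / ‖z'‖ * ((‖z‖ - ‖z'‖ : ℝ) : ℂ) / ‖z‖‖ := norm_add_le _ _
    _ = ‖z' - z‖ / ‖z‖ + |‖z‖ - ‖z'‖| / ‖z‖ := by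
        rw [norm_div, norm_div, norm_mul, norm_div, Complex.norm_real, Complex.norm_real,
          Complex.norm_real, norm_norm, norm_norm, Real.norm_eq_abs, div_self h2.ne', one_mul]
    _ ≤ ‖z' - z‖ / ‖z‖ + ‖z' - z‖ / ‖z‖ := by
        gcongr
        rw [abs_sub_comm]
        exact abs_norm_sub_norm_le _ _
    _ = _ := by ring

lemma rpow_sub_le {x y m a : ℝ} (hm : 0 < m) (hx : m ≤ x) (hy : m ≤ y) (ha : 1 ≤ a) :
    |x ^ (-a) - y ^ (-a)| ≤ a * m ^ (-a - 1) * |x - y| := by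
  wlog hxy : x ≤ y generalizing x y with H
  · have := H hy hx (le_of_not_ge hxy)
    rwa [abs_sub_comm (x ^ (-a)), abs_sub_comm x]
  have hx0 : 0 < x := by linarith
  have hy0 : 0 < y := by linarith
  have h1 : y ^ (-a) ≤ x ^ (-a) := Real.rpow_le_rpow_of_nonpos hx0 hxy (by linarith)
  rw [abs_of_nonneg (by linarith), abs_sub_comm, abs_of_nonneg (by linarith : 0 ≤ y - x)]
  have h2 : 1 + a * (x / y - 1) ≤ (1 + (x / y - 1)) ^ a :=
    one_add_mul_self_le_rpow_one_add (by have : 0 < x / y := by positivity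
                                         linarith) ha
  rw [show (1 : ℝ) + (x / y - 1) = x / y by ring, Real.div_rpow hx0.le hy0.le] at h2
  have h3 : x ^ (-a) - y ^ (-a) = x ^ (-a) * (1 - x ^ a / y ^ a) := by
    rw [Real.rpow_neg hx0.le, Real.rpow_neg hy0.le]
    have : x ^ a ≠ 0 := by positivity
    have : y ^ a ≠ 0 := by positivity
    field_simp
  have h4 : x ^ (-a) ≤ m ^ (-a) := Real.rpow_le_rpow_of_nonpos hm hx (by linarith)
  have h5 : 1 - x ^ a / y ^ a ≤ a * ((y - x) / y) := by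
    have : a * ((y - x) / y) = - (a * (x / y - 1)) := by field_simp; ring
    rw [this]; linarith
  have h6 : m ^ (-a - 1) = m ^ (-a) / m := by
    rw [Real.rpow_sub_one hm.ne']
  have h7 : (y - x) / y ≤ (y - x) / m := by
    apply div_le_div_of_nonneg_left (by linarith) hm hy
  calc x ^ (-a) - y ^ (-a) = x ^ (-a) * (1 - x ^ a / y ^ a) := h3
    _ ≤ x ^ (-a) * (a * ((y - x) / y)) := by gcongr
    _ ≤ m ^ (-a) * (a * ((y - x) / m)) := by
        have : 0 ≤ (y - x) / y := div_nonneg (by linarith) hy0.le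
        gcongr
    _ = _ := by rw [h6]; field_simp

end Pool.Agent.SB
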