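import Mathlib
import Pool.Agent.Lib.MP_a17b09_nt.SB.Emb

open QuadraticAlgebra ENNReal Filter Topology

namespace Pool.Agent.SB

variable {b c : ℤ}

/-- the summand of the angular series -/
noncomputable def GG (k : ℤ) (s : ℝ) (w : Q b c) : ℂ := eta w ^ k * psi s w

/-- the angular series -/
noncomputable def AA (b c : ℤ) (k : ℤ) (s : ℝ) : ℂ := ∑' w : Q b c, GG k s w

lemma GG_zero {k : ℤ} {s : ℝ} (hs : s ≠ 0) : GG k s (0 : Q b c) = 0 := by
  simp [GG, psi_zero hs]

lemma GG_norm (h : b ^ 2 < 4 * c) (k : ℤ) {s : ℝ} (hs : s ≠ 0) (w : Q b c) :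
    ‖GG k s w‖ = psi s w := by
  by_cases hw : w = 0
  · subst hw; rw [GG_zero hs, psi_zero hs, _root_.norm_zero]
  · rw [GG, norm_mul, norm_zpow, eta_norm h hw, one_zpow, one_mul, Complex.norm_real,
      Real.norm_eq_abs, abs_of_nonneg (psi_nonneg h s w)]

lemma psi_le_one (h : b ^ 2 < 4 * c) {s : ℝ} (hs : 0 < s) (w : Q b c) : psi s w ≤ 1 := by
  by_cases hw : w = 0
  · subst hw; rw [psi_zero hs.ne']; norm_num
  · exact Real.rpow_le_one_of_one_le_of_nonpos (one_le_norm h hw) (by linarith)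

lemma GG_mul (h : b ^ 2 < 4 * c) (k : ℤ) (s : ℝ) (v w : Q b c) :
    GG k s (v * w) = GG k s v * GG k s w := by
  simp only [GG, eta_mul h, psi_mul h, mul_zpow]
  push_cast; ring

lemma GG_summable (h : b ^ 2 < 4 * c) (k : ℤ) {s : ℝ} (hs : 1 < s) (hs2 : s ≤ 2) :
    Summable (GG k s : Q b c → ℂ) := by
  refine Summable.of_norm ?_
  refine (psi_summable h hs hs2).congr fun w => ?_
  rw [GG_norm h k (by linarith)]

lemma GG_lip (h : b ^ 2 < 4 * c) (k : ℤ) (ρ : ℕ) {s : ℝ} (hs : 1 ≤ s) (hs2 : s ≤ 2)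
    {x : Q b c} (hx : x ≠ 0) :
    ‖GG k s (x + (ρ : Q b c)) - GG k s x‖
      ≤ (16 * (ρ : ℝ) ^ 3 + 32 * |(k : ℝ)| * ρ + 128 * ρ) * psi (3 / 2) x := by
  have hz1 := one_le_emb h hx
  set z : ℂ := emb x with hz
  have hz' : emb (x + (ρ : Q b c)) = z + ρ := by rw [emb_add, emb_natCast]
  have hpsi : psi (3 / 2) x = (‖z‖ ^ 3)⁻¹ := by
    rw [psi_eq h, ← hz, show (-(2 * (3 / 2)) : ℝ) = -(3 : ℕ) by norm_num, Real.rpow_neg (norm_nonneg _),
      Real.rpow_natCast]
  have hz0 : 0 < ‖z‖ := by linarith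
  have hk : 0 ≤ |(k : ℝ)| := abs_nonneg _
  have hρ : (0 : ℝ) ≤ ρ := Nat.cast_nonneg _
  rcases le_or_gt ‖z‖ (2 * ρ) with hle | hgt
  · have h1 : ‖GG k s (x + (ρ : Q b c)) - GG k s x‖ ≤ 2 := by
      refine (norm_sub_le _ _).trans ?_
      rw [GG_norm h k (by linarith), GG_norm h k (by linarith)]
      have := psi_le_one h (by linarith : 0 < s) (x + (ρ : Q b c))
      have := psi_le_one h (by linarith : 0 < s) x
      linarith
    refine h1.trans ?_
    rw [hpsi, ← div_eq_mul_inv, le_div_iff₀ (by positivity)]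
    have h2 : ‖z‖ ^ 3 ≤ (2 * ρ) ^ 3 := by gcongr
    have h3 : (0 : ℝ) ≤ 32 * |(k : ℝ)| * ρ + 128 * ρ := by positivity
    nlinarith
  · have hz'1 : ‖z‖ / 2 ≤ ‖z + ρ‖ := by
      have : ‖z‖ ≤ ‖z + ρ‖ + ρ := by
        calc ‖z‖ = ‖(z + ρ) - ρ‖ := by ring_nf
          _ ≤ ‖z + ρ‖ + ‖(ρ : ℂ)‖ := norm_sub_le _ _
          _ = _ := by rw [Complex.norm_natCast]
      linarith
    have hzne : z ≠ 0 := norm_pos_iff.1 hz0
    have hz'ne : z + ρ ≠ 0 := norm_pos_iff.1 (by linarith)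
    have hxne : x + (ρ : Q b c) ≠ 0 := by
      intro h0
      apply hz'ne
      rw [← hz', h0]
      simp [emb]
    have hdiff : ‖(z + ρ) - z‖ = ρ := by rw [add_sub_cancel_left, Complex.norm_natCast]
    have e1 : GG k s (x + (ρ : Q b c)) - GG k s x
        = (eta (x + (ρ : Q b c)) ^ k - eta x ^ k) * psi s (x + (ρ : Q b c))
          + eta x ^ k * ((psi s (x + (ρ : Q b c)) - psi s x : ℝ) : ℂ) := by
      rw [GG, GG]; push_cast; ring
    have h2 : ‖eta (x + (ρ : Q b c)) ^ k - eta x ^ k‖ ≤ |(k : ℝ)| * (2 * ρ / ‖z‖) := by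
      refine (zpow_sub_zpow_le (eta_norm h hxne) (eta_norm h hx) k).trans ?_
      gcongr
      rw [eta, eta, hz', ← hz]
      refine (dir_sub_le hzne hz'ne).trans ?_
      rw [hdiff]
    have hinv : ∀ t : ℝ, 2 ≤ t → t ≤ 4 → (‖z‖ / 2) ^ (-t) ≤ 16 * (‖z‖ ^ 2)⁻¹ := by
      intro t ht ht4
      rw [Real.div_rpow hz0.le (by norm_num)]
      have a1 : ‖z‖ ^ (-t) ≤ (‖z‖ ^ 2)⁻¹ := by
        rw [← Real.rpow_natCast, ← Real.rpow_neg hz0.le]
        exact Real.rpow_le_rpow_of_exponent_le hz1 (by push_cast; linarith)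
      have a2 : ((2 : ℝ) ^ (-t))⁻¹ ≤ 16 := by
        rw [← Real.rpow_neg (by norm_num), neg_neg]
        calc (2 : ℝ) ^ t ≤ (2 : ℝ) ^ (4 : ℝ) := Real.rpow_le_rpow_of_exponent_le (by norm_num) ht4
          _ = 16 := by norm_num
      rw [div_eq_mul_inv, mul_comm]
      gcongr
    have h3 : psi s (x + (ρ : Q b c)) ≤ 16 * (‖z‖ ^ 2)⁻¹ := by
      rw [psi_eq h, hz']
      refine le_trans ?_ (hinv (2 * s) (by linarith) (by linarith))
      exact Real.rpow_le_rpow_of_nonpos (by positivity) hz'1 (by linarith)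
    have h4 : |psi s (x + (ρ : Q b c)) - psi s x| ≤ 128 * ρ * (‖z‖ ^ 3)⁻¹ := by
      rw [psi_eq h, psi_eq h, hz', ← hz]
      refine (rpow_sub_le (m := ‖z‖ / 2) (by positivity) hz'1 (by linarith) (by linarith)).trans ?_
      have a1 : |‖z + ρ‖ - ‖z‖| ≤ ρ := by
        refine (abs_norm_sub_norm_le _ _).trans ?_
        rw [hdiff]
      have a2 : (‖z‖ / 2) ^ (-(2 * s) - 1) ≤ 32 * (‖z‖ ^ 3)⁻¹ := by
        rw [Real.rpow_sub_one (by positivity)]
        have := hinv (2 * s) (by linarith) (by linarith)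
        calc _ ≤ 16 * (‖z‖ ^ 2)⁻¹ / (‖z‖ / 2) := by gcongr
          _ = _ := by field_simp; norm_num
      calc 2 * s * (‖z‖ / 2) ^ (-(2 * s) - 1) * |‖z + ρ‖ - ‖z‖|
          ≤ 4 * (32 * (‖z‖ ^ 3)⁻¹) * ρ := by gcongr; linarith
        _ = _ := by ring
    rw [e1, hpsi]
    calc _ ≤ ‖(eta (x + (ρ : Q b c)) ^ k - eta x ^ k) * psi s (x + (ρ : Q b c))‖
          + ‖eta x ^ k * ((psi s (x + (ρ : Q b c)) - psi s x : ℝ) : ℂ)‖ := norm_add_le _ _
      _ = ‖eta (x + (ρ : Q b c)) ^ k - eta x ^ k‖ * psi s (x + (ρ : Q b c))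
          + |psi s (x + (ρ : Q b c)) - psi s x| := by
          rw [norm_mul, norm_mul, norm_zpow, eta_norm h hx, one_zpow, one_mul, Complex.norm_real,
            Complex.norm_real, Real.norm_eq_abs, Real.norm_eq_abs,
            abs_of_nonneg (psi_nonneg h s _)]
      _ ≤ |(k : ℝ)| * (2 * ρ / ‖z‖) * (16 * (‖z‖ ^ 2)⁻¹) + 128 * ρ * (‖z‖ ^ 3)⁻¹ := by
          have := psi_nonneg h s (x + (ρ : Q b c))
          gcongr
      _ = (32 * |(k : ℝ)| * ρ + 128 * ρ) * (‖z‖ ^ 3)⁻¹ := by field_simp; ring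
      _ ≤ _ := by
          gcongr
          have : (0 : ℝ) ≤ 16 * (ρ : ℝ) ^ 3 := by positivity
          linarith


/-- the element `m + ω` -/
def al (b c m : ℤ) : Q b c := ⟨m, 1⟩

lemma norm_al (m : ℤ) : norm (al b c m) = fv b c m := by
  rw [nm_def, al, fv]; ring

/-- coset decomposition -/
def cosetMap (b c : ℤ) (m n : ℕ) (p : Q b c × Fin n) : Q b c := al b c m * p.1 + ((p.2 : ℕ) : Q b c)

lemma cosetMap_bij (m n : ℕ) (hn : (n : ℤ) = fv b c m) (hn0 : 0 < n) :
    Function.Bijective (cosetMap b c m n) := by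
  have hn' : (n : ℤ) = m ^ 2 + b * m + c := hn
  constructor
  · rintro ⟨v, ρ⟩ ⟨v', ρ'⟩ heq
    have e1 := congrArg QuadraticAlgebra.re heq
    have e2 := congrArg QuadraticAlgebra.im heq
    simp only [cosetMap, al, re_add, im_add, re_mul, im_mul, re_natCast, im_natCast] at e1 e2
    have e3 : v.re - v'.re = -(m + b) * (v.im - v'.im) := by linarith
    have e4 : (n : ℤ) * (v.im - v'.im) = (ρ : ℕ) - (ρ' : ℕ) := by
      rw [hn']
      have : (m : ℤ) * (v.re - v'.re) - c * (v.im - v'.im) + ((ρ : ℕ) - (ρ' : ℕ) : ℤ) = 0 := by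
        linarith
      rw [e3] at this
      linarith
    have h1 : ((ρ : ℕ) : ℤ) < n := by exact_mod_cast ρ.2
    have h2 : ((ρ' : ℕ) : ℤ) < n := by exact_mod_cast ρ'.2
    have h3 : v.im - v'.im = 0 := by
      by_contra hne
      rcases lt_or_gt_of_ne hne with hlt | hgt
      · have : v.im - v'.im ≤ -1 := by omega
        nlinarith
      · have : 1 ≤ v.im - v'.im := by omega
        nlinarith
    have h4 : v.re = v'.re := by rw [h3] at e3; linarith
    have h5 : v.im = v'.im := by linarith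
    have h6 : (ρ : ℕ) = (ρ' : ℕ) := by rw [h3] at e4; omega
    refine Prod.ext ?_ ?_
    · exact QuadraticAlgebra.ext h4 h5
    · exact Fin.ext h6
  · intro w
    have hnz : (n : ℤ) ≠ 0 := by exact_mod_cast hn0.ne'
    set q : ℤ := (w.re - m * w.im) / n with hq
    have hmod0 : 0 ≤ (w.re - m * w.im) % n := Int.emod_nonneg _ hnz
    have hmod1 : (w.re - m * w.im) % n < n := Int.emod_lt_of_pos _ (by exact_mod_cast hn0)
    have hdiv : (n : ℤ) * q + (w.re - m * w.im) % n = w.re - m * w.im := by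
      rw [hq]; exact Int.mul_ediv_add_emod _ _
    refine ⟨(⟨w.im + (m + b) * q, -q⟩, ⟨((w.re - m * w.im) % n).toNat, by omega⟩), ?_⟩
    ext
    · simp only [cosetMap, al, re_add, re_mul, re_natCast]
      have : ((((w.re - m * w.im) % n).toNat : ℕ) : ℤ) = (w.re - m * w.im) % n :=
        Int.toNat_of_nonneg hmod0
      push_cast [this]
      rw [hn'] at hdiv ⊢
      linarith
    · simp only [cosetMap, al, im_add, im_mul, im_natCast]
      ring

lemma AA_coset (h : b ^ 2 < 4 * c) (k : ℤ) (m : ℕ) :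
    ∃ K : ℝ, ∀ s : ℝ, 1 < s → s ≤ 2 →
      ‖AA b c k s * (1 - (fv b c m : ℂ) * GG k s (al b c m))‖ ≤ K := by
  have hpos : 0 < fv b c m := by
    rw [← norm_al]
    exact nm_pos h _ (fun h0 => by have := congrArg QuadraticAlgebra.im h0; simp [al] at this)
  obtain ⟨n, hn⟩ := Int.eq_ofNat_of_zero_le hpos.le
  have hn0 : 0 < n := by omega
  have hn' : (n : ℤ) = fv b c m := hn.symm
  set CC : ℝ := ∑ ρ : Fin n, (16 * ((ρ : ℕ) : ℝ) ^ 3 + 32 * |(k : ℝ)| * (ρ : ℕ) + 128 * (ρ : ℕ)) with hCC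
  have hal : al b c m ≠ 0 := fun h0 => by have := congrArg QuadraticAlgebra.im h0; simp [al] at this
  refine ⟨CC * (∑' v : Q b c, psi (3 / 2) v) + n, fun s hs hs2 => ?_⟩
  have hsum := GG_summable (b := b) (c := c) h k hs hs2
  let e : Q b c × Fin n ≃ Q b c := Equiv.ofBijective _ (cosetMap_bij m n hn' hn0)
  have he : ∀ p : Q b c × Fin n, e p = al b c m * p.1 + ((p.2 : ℕ) : Q b c) := fun p => rfl
  have hsum2 : Summable (fun p : Q b c × Fin n => GG k s (e p)) := (e.summable_iff (f := GG k s)).2 hsum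
  have h1 : AA b c k s = ∑' v : Q b c, ∑ ρ : Fin n, GG k s (al b c m * v + ((ρ : ℕ) : Q b c)) := by
    rw [AA, ← e.tsum_eq, hsum2.tsum_prod' (fun v => (hasSum_fintype _).summable)]
    refine tsum_congr fun v => ?_
    rw [tsum_fintype]
    rfl
  have hsum3 : Summable (fun v : Q b c => ∑ ρ : Fin n, GG k s (al b c m * v + ((ρ : ℕ) : Q b c))) := by
    have := hsum2.prod
    refine this.congr fun v => ?_
    rw [tsum_fintype]
    rfl
  have hsum4 : Summable (fun v : Q b c => (n : ℂ) * GG k s (al b c m) * GG k s v) :=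
    hsum.mul_left _
  have h2 : AA b c k s * (1 - (fv b c m : ℂ) * GG k s (al b c m))
      = ∑' v : Q b c, ((∑ ρ : Fin n, GG k s (al b c m * v + ((ρ : ℕ) : Q b c)))
        - (n : ℂ) * GG k s (al b c m) * GG k s v) := by
    rw [hsum3.tsum_sub hsum4, ← h1, tsum_mul_left, ← AA]
    rw [← hn']
    push_cast
    ring
  rw [h2]
  have hpsiS : Summable (psi (3 / 2) : Q b c → ℝ) := psi_summable h (by norm_num) (by norm_num)
  have hg1 : HasSum (fun v : Q b c => CC * psi (3 / 2) v) (CC * ∑' v : Q b c, psi (3 / 2) v) :=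
    hpsiS.hasSum.mul_left CC
  have hg2 : HasSum (fun v : Q b c => if v = 0 then (n : ℝ) else 0) (n : ℝ) := by
    exact hasSum_ite_eq (0 : Q b c) (n : ℝ)
  refine tsum_of_norm_bounded (hg1.add hg2) fun v => ?_
  by_cases hv : v = 0
  · subst hv
    rw [if_pos rfl, GG_zero (by linarith), mul_zero ((n : ℂ) * GG k s (al b c m)), sub_zero,
      psi_zero (by norm_num), mul_zero CC, zero_add]
    calc _ ≤ ∑ ρ : Fin n, ‖GG k s (al b c m * 0 + ((ρ : ℕ) : Q b c))‖ := norm_sum_le _ _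
      _ ≤ ∑ ρ : Fin n, 1 := by
          refine Finset.sum_le_sum fun ρ _ => ?_
          rw [GG_norm h k (by linarith)]
          exact psi_le_one h (by linarith) _
      _ = n := by simp
  · rw [if_neg hv, add_zero]
    have hx : al b c m * v ≠ 0 := by
      intro h0
      have : norm (al b c m) * norm v = 0 := by rw [← map_mul, h0, QuadraticAlgebra.norm_zero]
      rcases mul_eq_zero.mp this with h5 | h5
      · rw [norm_al] at h5; omega
      · have := nm_pos h v hv; omega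
    have e2 : (∑ ρ : Fin n, GG k s (al b c m * v + ((ρ : ℕ) : Q b c)))
        - (n : ℂ) * GG k s (al b c m) * GG k s v
        = ∑ ρ : Fin n, (GG k s (al b c m * v + ((ρ : ℕ) : Q b c)) - GG k s (al b c m * v)) := by
      rw [Finset.sum_sub_distrib, Finset.sum_const, Finset.card_univ, Fintype.card_fin,
        nsmul_eq_mul, GG_mul h]
      ring
    rw [e2]
    calc _ ≤ ∑ ρ : Fin n, ‖GG k s (al b c m * v + ((ρ : ℕ) : Q b c)) - GG k s (al b c m * v)‖ :=
          norm_sum_le _ _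
      _ ≤ ∑ ρ : Fin n, (16 * ((ρ : ℕ) : ℝ) ^ 3 + 32 * |(k : ℝ)| * (ρ : ℕ) + 128 * (ρ : ℕ))
            * psi (3 / 2) (al b c m * v) :=
          Finset.sum_le_sum fun ρ _ => GG_lip h k ρ hs.le hs2 hx
      _ = CC * psi (3 / 2) (al b c m * v) := by rw [← Finset.sum_mul]
      _ ≤ CC * psi (3 / 2) v := by
          have hCC0 : 0 ≤ CC := by
            rw [hCC]; exact Finset.sum_nonneg fun ρ _ => by positivity
          have h6 := psi_nonneg h (3 / 2) v
          have h7 := psi_le_one h (by norm_num : (0 : ℝ) < 3 / 2) (al b c m)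
          rw [psi_mul h]
          gcongr
          nlinarith

/-- some element `m + ω` has a direction which is not a `k`-th root of unity. -/
lemma exists_dir (h : b ^ 2 < 4 * c) (k : ℤ) (hk : k ≠ 0) : ∃ m : ℕ, eta (al b c m) ^ k ≠ 1 := by
  by_contra hcon
  push Not at hcon
  have hpos : (0 : ℝ) < 4 * c - b ^ 2 := by
    have : (b : ℝ) ^ 2 < 4 * c := by exact_mod_cast h
    linarith
  have hsq : 0 < √(4 * (c : ℝ) - b ^ 2) := Real.sqrt_pos.2 hpos
  have hinj : Function.Injective (fun m : ℕ => eta (al b c m)) := by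
    intro m m' heq
    have hm : al b c m ≠ 0 := fun h0 => by have := congrArg QuadraticAlgebra.im h0; simp [al] at this
    have hm' : al b c m' ≠ 0 := fun h0 => by have := congrArg QuadraticAlgebra.im h0; simp [al] at this
    have a1 : 0 < ‖emb (al b c m)‖ := by have := one_le_emb h hm; linarith
    have a2 : 0 < ‖emb (al b c m')‖ := by have := one_le_emb h hm'; linarith
    simp only [eta] at heq
    have a1c : (‖emb (al b c m)‖ : ℂ) ≠ 0 := by exact_mod_cast a1.ne'
    have a2c : (‖emb (al b c m')‖ : ℂ) ≠ 0 := by exact_mod_cast a2.ne'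
    rw [div_eq_div_iff a1c a2c] at heq
    generalize ‖emb (al b c m)‖ = X at *
    generalize ‖emb (al b c m')‖ = X' at *
    have e1 := congrArg Complex.im heq
    have e2 := congrArg Complex.re heq
    simp only [emb, al, zt, Complex.mul_im, Complex.mul_re, Complex.add_re, Complex.add_im,
      Complex.ofReal_re, Complex.ofReal_im, Complex.intCast_re, Complex.intCast_im] at e1 e2
    norm_num at e1 e2
    rcases e1 with e1 | e1
    · rw [e1] at e2
      have e3 := mul_right_cancel₀ a1.ne' e2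
      have e4 : (m : ℝ) = m' := by linarith
      exact_mod_cast e4
    · exact absurd e1 hsq.ne'
  have hfin : Set.Finite {z : ℂ | z ^ k.natAbs = 1} := by
    have hk' : 0 < k.natAbs := Int.natAbs_pos.2 hk
    refine (Polynomial.nthRoots k.natAbs (1 : ℂ)).toFinset.finite_toSet.subset fun z hz => ?_
    simp only [Finset.mem_coe, Multiset.mem_toFinset, Polynomial.mem_nthRoots hk']
    exact hz
  have hinf := Set.infinite_range_of_injective hinj
  apply hinf
  refine hfin.subset ?_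
  rintro _ ⟨m, rfl⟩
  have := hcon m
  show eta (al b c m) ^ k.natAbs = 1
  rcases k.natAbs_eq with h1 | h1
  · rw [h1, zpow_natCast] at this; exact this
  · rw [h1, zpow_neg, zpow_natCast, inv_eq_one] at this; exact this


lemma AA_bdd (h : b ^ 2 < 4 * c) (k : ℤ) (hk : k ≠ 0) :
    ∃ C : ℝ, 0 < C ∧ ∀ᶠ s in 𝓝[>] (1 : ℝ), ‖AA b c k s‖ ≤ C := by
  obtain ⟨m, hm⟩ := exists_dir (b := b) (c := c) h k hk
  obtain ⟨K, hK⟩ := AA_coset (b := b) (c := c) h k m
  have hpos : 0 < fv b c m := by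
    rw [← norm_al]
    exact nm_pos h _ (fun h0 => by have := congrArg QuadraticAlgebra.im h0; simp [al] at this)
  have hpos' : (0 : ℝ) < (fv b c m : ℝ) := by exact_mod_cast hpos
  have hlim : Tendsto (fun s : ℝ => (1 : ℂ) - (fv b c m : ℂ) * GG k s (al b c m)) (𝓝[>] 1)
      (𝓝 (1 - eta (al b c m) ^ k)) := by
    have h1 : ContinuousAt (fun s : ℝ => ((fv b c m : ℤ) : ℝ) ^ (-s)) 1 := by
      refine ContinuousAt.rpow continuousAt_const (by fun_prop) (Or.inl hpos'.ne')
    have h2 : ContinuousAt (fun s : ℝ => (1 : ℂ) - (fv b c m : ℂ) * (eta (al b c m) ^ k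
        * (((fv b c m : ℝ) ^ (-s) : ℝ) : ℂ))) 1 := by
      refine ContinuousAt.sub continuousAt_const (ContinuousAt.mul continuousAt_const
        (ContinuousAt.mul continuousAt_const ?_))
      exact Complex.continuous_ofReal.continuousAt.comp h1
    have h3 := h2.tendsto
    have e : (1 : ℂ) - (fv b c m : ℂ) * (eta (al b c m) ^ k * (((fv b c m : ℝ) ^ (-(1 : ℝ)) : ℝ) : ℂ))
        = 1 - eta (al b c m) ^ k := by
      rw [Real.rpow_neg_one]
      push_cast
      have : (fv b c m : ℂ) ≠ 0 := by exact_mod_cast hpos.ne'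
      field_simp
    rw [e] at h3
    refine (h3.mono_left nhdsWithin_le_nhds).congr fun s => ?_
    rw [GG, psi, norm_al]
  have hne : 0 < ‖1 - eta (al b c m) ^ k‖ := norm_pos_iff.2 (sub_ne_zero.2 (Ne.symm hm))
  have hev := hlim.norm.eventually (lt_mem_nhds (half_lt_self hne))
  refine ⟨max 1 (K / (‖1 - eta (al b c m) ^ k‖ / 2)), by positivity, ?_⟩
  filter_upwards [hev, ev12] with s h1 h2
  have h3 := hK s h2.1 h2.2
  rw [norm_mul] at h3
  refine le_trans ?_ (le_max_right _ _)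
  rw [le_div_iff₀ (by positivity)]
  refine le_trans ?_ h3
  gcongr

end Pool.Agent.SB
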