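import Mathlib
import Pool.Agent.Lib.MP_a17b09_nt.SB.Ang

open QuadraticAlgebra ENNReal Filter Topology

namespace Pool.Agent.SB

variable {b c : ℤ}

/-- canonical representative of an associate class -/
noncomputable def rep (w : Q b c) : Q b c := Quot.out (Associates.mk w)

lemma rep_assoc (w : Q b c) : Associated (rep w) w :=
  Associates.mk_quot_out w

lemma rep_eq_of_assoc {v w : Q b c} (h : Associated v w) : rep v = rep w := by
  unfold rep
  rw [Associates.mk_eq_mk_iff_associated.2 h]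

/-- canonical primes -/
def PP (b c : ℤ) : Set (Q b c) := {π | Prime π ∧ rep π = π}

lemma rep_mem_PP {π : Q b c} (h : Prime π) : rep π ∈ PP b c :=
  ⟨(rep_assoc π).symm.prime h, rep_eq_of_assoc (rep_assoc π)⟩

lemma PP_eq [IsCancelMulZero (Q b c)] {π π' : Q b c} (h : π ∈ PP b c) (h' : π' ∈ PP b c)
    (hd : π ∣ π') : π = π' := by
  have := (h.1.dvd_prime_iff_associated h'.1).1 hd
  rw [← h.2, ← h'.2, rep_eq_of_assoc this]

/-- elements free of the primes in `S` -/
def RS (S : Finset (Q b c)) : Set (Q b c) := {w | ∀ π ∈ S, ¬ π ∣ w}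

theorem removal [IsCancelMulZero (Q b c)] {𝕜 : Type*} [RCLike 𝕜] {f : Q b c → 𝕜}
    (hf : ∀ v w, f (v * w) = f v * f w) (hs : Summable f) (S : Finset (Q b c))
    (hS : ∀ π ∈ S, π ∈ PP b c) :
    ∑' w, (RS S).indicator f w = (∏ π ∈ S, (1 - f π)) * ∑' w, f w := by
  classical
  induction S using Finset.induction_on with
  | empty =>
    simp only [Finset.prod_empty, one_mul]
    refine tsum_congr fun w => ?_
    rw [Set.indicator_of_mem]
    intro π hπ
    simp at hπ
  | insert π₀ S hπ₀ ih =>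
    have ihS := ih (fun π hπ => hS π (Finset.mem_insert_of_mem hπ))
    have hp0 := hS π₀ (Finset.mem_insert_self _ _)
    rw [Finset.prod_insert hπ₀, mul_assoc, ← ihS, one_sub_mul]
    have hsplit : ∀ w, (RS S).indicator f w = (RS (insert π₀ S)).indicator f w
        + (RS S ∩ {w | π₀ ∣ w}).indicator f w := by
      intro w
      by_cases h1 : w ∈ RS S
      · by_cases h2 : π₀ ∣ w
        · rw [Set.indicator_of_mem h1, Set.indicator_of_notMem, Set.indicator_of_mem, zero_add]
          · exact ⟨h1, h2⟩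
          · intro h3
            exact h3 π₀ (Finset.mem_insert_self _ _) h2
        · rw [Set.indicator_of_mem h1, Set.indicator_of_mem, Set.indicator_of_notMem, add_zero]
          · intro h3
            exact h2 h3.2
          · intro π hπ
            rcases Finset.mem_insert.1 hπ with rfl | h4
            · exact h2
            · exact h1 π h4
      · rw [Set.indicator_of_notMem h1, Set.indicator_of_notMem, Set.indicator_of_notMem, add_zero]
        · intro h3
          exact h1 h3.1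
        · intro h3
          exact h1 fun π hπ => h3 π (Finset.mem_insert_of_mem hπ)
    have hmul : ∑' w, (RS S ∩ {w | π₀ ∣ w}).indicator f w = f π₀ * ∑' w, (RS S).indicator f w := by
      have hinj : Function.Injective (fun v : Q b c => π₀ * v) := by
        intro v v' h
        exact mul_left_cancel₀ hp0.1.ne_zero h
      rw [← hinj.tsum_eq, ← tsum_mul_left]
      · refine tsum_congr fun v => ?_
        by_cases h1 : v ∈ RS S
        · rw [Set.indicator_of_mem h1, Set.indicator_of_mem, hf]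
          refine ⟨fun π hπ hd => ?_, dvd_mul_right _ _⟩
          rcases (hS π (Finset.mem_insert_of_mem hπ)).1.dvd_or_dvd hd with h2 | h2
          · have := PP_eq (hS π (Finset.mem_insert_of_mem hπ)) hp0 h2
            subst this
            exact hπ₀ hπ
          · exact h1 π hπ h2
        · rw [Set.indicator_of_notMem h1, Set.indicator_of_notMem, mul_zero]
          intro h3
          apply h1
          intro π hπ hd
          exact h3.1 π hπ (hd.mul_left _)
      · intro w hw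
        have h1 : w ∈ RS S ∩ {w | π₀ ∣ w} := Set.mem_of_indicator_ne_zero hw
        obtain ⟨v, hv⟩ := h1.2
        exact ⟨v, hv.symm⟩
    rw [← hmul, eq_sub_iff_add_eq, ← (hs.indicator _).tsum_add (hs.indicator _)]
    exact tsum_congr fun w => (hsplit w).symm

lemma norm_PP (h : b ^ 2 < 4 * c) {π : Q b c} (hπ : π ∈ PP b c) : 2 ≤ norm π := by
  have h1 := nm_pos h π hπ.1.ne_zero
  by_contra hlt
  push Not at hlt
  have h2 : norm π = 1 := by omega
  apply hπ.1.not_isUnit
  rw [isUnit_iff_norm_isUnit, h2]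
  exact isUnit_one

lemma psi_PP_le (h : b ^ 2 < 4 * c) {π : Q b c} (hπ : π ∈ PP b c) {s : ℝ} (hs : 1 ≤ s) :
    0 < psi s π ∧ psi s π ≤ ((norm π : ℤ) : ℝ)⁻¹ ∧ psi s π ≤ 1 / 2 := by
  have h1 := norm_PP h hπ
  have h2 : (2 : ℝ) ≤ ((norm π : ℤ) : ℝ) := by exact_mod_cast h1
  have h3 : psi s π ≤ ((norm π : ℤ) : ℝ)⁻¹ := by
    rw [psi, ← Real.rpow_neg_one]
    exact Real.rpow_le_rpow_of_exponent_le (by linarith) (by linarith)
  refine ⟨by unfold psi; positivity, h3, h3.trans ?_⟩
  rw [one_div]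
  exact inv_anti₀ (by norm_num) h2

lemma normSq_one_sub {z : ℂ} (hz : ‖z‖ = 1) (x : ℝ) :
    ‖1 - z * x‖ ^ 2 = (1 - x) ^ 2 + 2 * x * (1 - z.re) := by
  have h1 : z.re ^ 2 + z.im ^ 2 = 1 := by
    have : ‖z‖ ^ 2 = 1 := by rw [hz]; norm_num
    rw [← Complex.normSq_eq_norm_sq, Complex.normSq_apply] at this
    nlinarith
  rw [← Complex.normSq_eq_norm_sq, Complex.normSq_apply]
  simp only [Complex.sub_re, Complex.sub_im, Complex.one_re, Complex.one_im, Complex.mul_re,
    Complex.mul_im, Complex.ofReal_re, Complex.ofReal_im]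
  linear_combination x ^ 2 * h1

/-- A unimodular completely multiplicative function. -/
structure Chr (χ : Q b c → ℂ) : Prop where
  mul : ∀ v w, v ≠ 0 → w ≠ 0 → χ (v * w) = χ v * χ w
  norm : ∀ w, w ≠ 0 → ‖χ w‖ = 1

lemma chr_f_mul [IsCancelMulZero (Q b c)] (h : b ^ 2 < 4 * c) {χ : Q b c → ℂ} (hχ : Chr χ) {s : ℝ} (hs : s ≠ 0)
    (v w : Q b c) : χ (v * w) * (psi s (v * w) : ℂ) = χ v * psi s v * (χ w * psi s w) := by
  by_cases hv : v = 0
  · subst hv; simp [psi_zero hs]
  by_cases hw : w = 0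
  · subst hw; simp [psi_zero hs]
  rw [hχ.mul v w hv hw, psi_mul h]
  push_cast; ring

lemma chr_norm (h : b ^ 2 < 4 * c) {χ : Q b c → ℂ} (hχ : Chr χ) {s : ℝ} (hs : s ≠ 0) (w : Q b c) :
    ‖χ w * (psi s w : ℂ)‖ = psi s w := by
  by_cases hw : w = 0
  · subst hw; simp [psi_zero hs]
  rw [norm_mul, hχ.norm w hw, one_mul, Complex.norm_real, Real.norm_eq_abs,
    abs_of_nonneg (psi_nonneg h s w)]

lemma chr_summable (h : b ^ 2 < 4 * c) {χ : Q b c → ℂ} (hχ : Chr χ) {s : ℝ} (hs : 1 < s)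
    (hs2 : s ≤ 2) : Summable (fun w => χ w * (psi s w : ℂ)) :=
  Summable.of_norm ((psi_summable h hs hs2).congr fun w => (chr_norm h hχ (by linarith) w).symm)

lemma sum_le_prod_one_add {ι : Type*} (S : Finset ι) (u : ι → ℝ) (hu : ∀ i ∈ S, 0 ≤ u i) :
    1 + ∑ i ∈ S, u i ≤ ∏ i ∈ S, (1 + u i) := by
  classical
  induction S using Finset.induction_on with
  | empty => simp
  | insert a S ha ih =>
    rw [Finset.sum_insert ha, Finset.prod_insert ha]
    have h1 := ih fun i hi => hu i (Finset.mem_insert_of_mem hi)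
    have h2 := hu a (Finset.mem_insert_self _ _)
    have h3 : 0 ≤ ∑ i ∈ S, u i := Finset.sum_nonneg fun i hi => hu i (Finset.mem_insert_of_mem hi)
    nlinarith

/-- upper bound for the twisted series -/
theorem upper [IsCancelMulZero (Q b c)] (h : b ^ 2 < 4 * c) {χ : Q b c → ℂ} (hχ : Chr χ) {s : ℝ} (hs : 1 < s)
    (hs2 : s ≤ 2) (S : Finset (Q b c)) (hS : ∀ π ∈ S, π ∈ PP b c) :
    ‖∑' w, χ w * (psi s w : ℂ)‖ ^ 2 * (∑ π ∈ S, 2 * psi s π * (1 - (χ π).re))
      ≤ (∑' w : Q b c, psi s w) ^ 2 := by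
  have r1 := removal (chr_f_mul h hχ (by linarith : s ≠ 0)) (chr_summable h hχ hs hs2) S hS
  have r2 := removal (𝕜 := ℝ) (psi_mul h s) (psi_summable h hs hs2) S hS
  have hle : ‖∑' w, (RS S).indicator (fun w => χ w * (psi s w : ℂ)) w‖
      ≤ ∑' w, (RS S).indicator (psi s) w := by
    refine tsum_of_norm_bounded ((psi_summable h hs hs2).indicator _).hasSum fun w => ?_
    by_cases hw : w ∈ RS S
    · rw [Set.indicator_of_mem hw, Set.indicator_of_mem hw, chr_norm h hχ (by linarith)]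
    · rw [Set.indicator_of_notMem hw, Set.indicator_of_notMem hw, _root_.norm_zero]
  rw [r1, r2, norm_mul, norm_prod] at hle
  set B := ‖∑' w, χ w * (psi s w : ℂ)‖ with hB
  set Z := ∑' w : Q b c, psi s w with hZ
  have hP : 0 < ∏ π ∈ S, (1 - psi s π) := by
    refine Finset.prod_pos fun π hπ => ?_
    have := (psi_PP_le h (hS π hπ) hs.le).2.2
    linarith
  have hsq : B ^ 2 * ∏ π ∈ S, ‖1 - χ π * (psi s π : ℂ)‖ ^ 2
      ≤ Z ^ 2 * ∏ π ∈ S, (1 - psi s π) ^ 2 := by
    rw [Finset.prod_pow, Finset.prod_pow, ← mul_pow, ← mul_pow, mul_comm B, mul_comm Z]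
    have : 0 ≤ (∏ π ∈ S, ‖1 - χ π * (psi s π : ℂ)‖) * B :=
      mul_nonneg (Finset.prod_nonneg fun _ _ => norm_nonneg _) (norm_nonneg _)
    gcongr
  have hratio : ∀ π ∈ S, ‖1 - χ π * (psi s π : ℂ)‖ ^ 2
      = (1 - psi s π) ^ 2 * (1 + 2 * psi s π * (1 - (χ π).re) / (1 - psi s π) ^ 2) := by
    intro π hπ
    have h1 := (psi_PP_le h (hS π hπ) hs.le).2.2
    rw [normSq_one_sub (hχ.norm π (hS π hπ).1.ne_zero)]
    have h2 : (1 - psi s π) ^ 2 ≠ 0 := by
      have : 0 < 1 - psi s π := by linarith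
      positivity
    generalize (1 - psi s π) ^ 2 = d at *
    field_simp
  rw [Finset.prod_congr rfl hratio, Finset.prod_mul_distrib] at hsq
  have hP2 : 0 < ∏ π ∈ S, (1 - psi s π) ^ 2 := by rw [Finset.prod_pow]; positivity
  have h1 : B ^ 2 * ∏ π ∈ S, (1 + 2 * psi s π * (1 - (χ π).re) / (1 - psi s π) ^ 2) ≤ Z ^ 2 := by
    have : (∏ π ∈ S, (1 - psi s π) ^ 2) *
        (B ^ 2 * ∏ π ∈ S, (1 + 2 * psi s π * (1 - (χ π).re) / (1 - psi s π) ^ 2))
        ≤ (∏ π ∈ S, (1 - psi s π) ^ 2) * Z ^ 2 := by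
      calc _ = B ^ 2 * ((∏ π ∈ S, (1 - psi s π) ^ 2) *
            ∏ π ∈ S, (1 + 2 * psi s π * (1 - (χ π).re) / (1 - psi s π) ^ 2)) := by ring
        _ ≤ _ := hsq
        _ = _ := by ring
    exact le_of_mul_le_mul_left this hP2
  refine le_trans ?_ h1
  gcongr
  have hre : ∀ π ∈ S, 0 ≤ 1 - (χ π).re := by
    intro π hπ
    have := Complex.re_le_norm (χ π)
    rw [hχ.norm π (hS π hπ).1.ne_zero] at this
    linarith
  have hu : ∀ π ∈ S, 0 ≤ 2 * psi s π * (1 - (χ π).re) / (1 - psi s π) ^ 2 := by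
    intro π hπ
    have := (psi_PP_le h (hS π hπ) hs.le).1
    have := hre π hπ
    positivity
  have hprod : ∑ π ∈ S, 2 * psi s π * (1 - (χ π).re) / (1 - psi s π) ^ 2
      ≤ ∏ π ∈ S, (1 + 2 * psi s π * (1 - (χ π).re) / (1 - psi s π) ^ 2) := by
    have := sum_le_prod_one_add S _ hu
    linarith
  refine le_trans ?_ hprod
  refine Finset.sum_le_sum fun π hπ => ?_
  have h2 := psi_PP_le h (hS π hπ) hs.le
  have h3 := hre π hπ
  rw [le_div_iff₀ (by have : 0 < 1 - psi s π := by linarith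
                      positivity)]
  have h4 : (1 - psi s π) ^ 2 ≤ 1 := by nlinarith
  have h5 : 0 ≤ 2 * psi s π * (1 - (χ π).re) := by have := h2.1; positivity
  nlinarith


lemma re_le_one_of_norm {z : ℂ} (hz : ‖z‖ = 1) : 0 ≤ 1 - z.re := by
  have := Complex.re_le_norm z
  rw [hz] at this
  linarith

/-- a finite set of primes hitting all nonunits outside a small set -/
lemma exists_S [UniqueFactorizationMonoid (Q b c)] (T : Finset (Q b c)) :
    ∃ S : Finset (Q b c), (∀ π ∈ S, π ∈ PP b c) ∧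
      ∀ w ∈ RS S, w ≠ 0 → ¬ IsUnit w → w ∉ T := by
  classical
  have hex : ∀ w : Q b c, w ≠ 0 → ¬ IsUnit w → ∃ π ∈ PP b c, π ∣ w := by
    intro w h0 h1
    obtain ⟨i, hi, hd⟩ := WfDvdMonoid.exists_irreducible_factor h1 h0
    have hp : Prime i := UniqueFactorizationMonoid.irreducible_iff_prime.1 hi
    exact ⟨rep i, rep_mem_PP hp, (rep_assoc i).dvd.trans hd⟩
  choose! pf hpf using hex
  refine ⟨(T.filter (fun w => w ≠ 0 ∧ ¬ IsUnit w)).image pf, ?_, ?_⟩
  · intro π hπ
    obtain ⟨w, hw, rfl⟩ := Finset.mem_image.1 hπ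
    obtain ⟨_, h0, h1⟩ := Finset.mem_filter.1 hw
    exact (hpf w h0 h1).1
  · intro w hw h0 h1 hT
    exact hw (pf w) (Finset.mem_image_of_mem _ (Finset.mem_filter.2 ⟨hT, h0, h1⟩)) (hpf w h0 h1).2

/-- lower bound for the twisted series, when the character is close to one at primes. -/
theorem lower [UniqueFactorizationMonoid (Q b c)] (h : b ^ 2 < 4 * c) {χ : Q b c → ℂ}
    (hχ : Chr χ) (hu : ∀ ε, IsUnit ε → χ ε = 1) {M : ℝ}
    (hM : ∀ S : Finset (Q b c), (∀ π ∈ S, π ∈ PP b c) →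
      ∑ π ∈ S, (1 - (χ π).re) / ((norm π : ℤ) : ℝ) ≤ M) {s : ℝ} (hs : 1 < s) (hs2 : s ≤ 2) :
    ∑' w : Q b c, psi s w ≤ 3 * Real.exp (4 * M) * ‖∑' w, χ w * (psi s w : ℂ)‖ := by
  classical
  have hsum := psi_summable h hs hs2
  have hlim := tendsto_tsum_compl_atTop_zero (fun w : Q b c => psi s w)
  obtain ⟨T, hT⟩ := (hlim.eventually (gt_mem_nhds (by norm_num : (0 : ℝ) < 1 / 2))).exists
  obtain ⟨S, hS, hST⟩ := exists_S T
  have hT' : ∑' w, ({w | w ∉ T} : Set (Q b c)).indicator (psi s) w ≤ 1 / 2 := by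
    rw [← tsum_subtype]
    exact hT.le
  set U : Set (Q b c) := {w | IsUnit w} with hU
  set u0 : ℝ := ∑' w, U.indicator (psi s) w with hu0
  have hu1 : 1 ≤ u0 := by
    have h1 := (hsum.indicator U).le_tsum 1
      (fun w _ => Set.indicator_nonneg (fun w _ => psi_nonneg h s w) w)
    rw [Set.indicator_of_mem (show (1 : Q b c) ∈ U from isUnit_one), psi_one] at h1
    exact h1
  have hUR : ∀ w ∈ U, w ∈ RS S := by
    intro w hw π hπ hd
    exact (hS π hπ).1.not_isUnit (isUnit_of_dvd_unit hd hw)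
  have hpos : ∀ w, 0 ≤ psi s w := psi_nonneg h s
  have hR1 : ∑' w, (RS S).indicator (psi s) w ≤ u0 + 1 / 2 := by
    calc ∑' w, (RS S).indicator (psi s) w
        ≤ ∑' w, (U.indicator (psi s) w + ({w | w ∉ T} : Set (Q b c)).indicator (psi s) w) := by
          refine (hsum.indicator _).tsum_le_tsum (fun w => ?_) ((hsum.indicator _).add (hsum.indicator _))
          have i1 : 0 ≤ U.indicator (psi s) w := Set.indicator_nonneg (fun w _ => hpos w) w
          have i2 : 0 ≤ ({w | w ∉ T} : Set (Q b c)).indicator (psi s) w :=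
            Set.indicator_nonneg (fun w _ => hpos w) w
          by_cases hw : w ∈ RS S
          · rw [Set.indicator_of_mem hw]
            by_cases h0 : w = 0
            · rw [h0, psi_zero (by linarith)]; rw [h0] at i1 i2; linarith
            by_cases h1 : IsUnit w
            · rw [Set.indicator_of_mem (show w ∈ U from h1)]; linarith
            · rw [Set.indicator_of_mem (show w ∈ ({w | w ∉ T} : Set (Q b c)) from hST w hw h0 h1)]
              linarith
          · rw [Set.indicator_of_notMem hw]; linarith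
      _ = u0 + ∑' w, ({w | w ∉ T} : Set (Q b c)).indicator (psi s) w :=
          (hsum.indicator _).tsum_add (hsum.indicator _)
      _ ≤ _ := by linarith
  have hfsum := chr_summable h hχ hs hs2
  have hUs : Summable (fun w => ((U.indicator (psi s) w : ℝ) : ℂ)) := by
    exact_mod_cast (hsum.indicator U)
  have hR2 : u0 - 1 / 2 ≤ ‖∑' w, (RS S).indicator (fun w => χ w * (psi s w : ℂ)) w‖ := by
    have h1 : ‖∑' w, ((RS S).indicator (fun w => χ w * (psi s w : ℂ)) w
        - ((U.indicator (psi s) w : ℝ) : ℂ))‖ ≤ 1 / 2 := by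
      refine le_trans (tsum_of_norm_bounded
        (hsum.indicator ({w | w ∉ T} : Set (Q b c))).hasSum fun w => ?_) hT'
      have i2 : 0 ≤ ({w | w ∉ T} : Set (Q b c)).indicator (psi s) w :=
        Set.indicator_nonneg (fun w _ => hpos w) w
      by_cases hw : w ∈ RS S
      · rw [Set.indicator_of_mem hw]
        by_cases h1 : IsUnit w
        · rw [Set.indicator_of_mem (show w ∈ U from h1), hu w h1, one_mul, sub_self,
            _root_.norm_zero]
          exact i2
        · rw [Set.indicator_of_notMem (show w ∉ U from h1), Complex.ofReal_zero, sub_zero,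
            chr_norm h hχ (by linarith)]
          by_cases h0 : w = 0
          · rw [h0, psi_zero (by linarith)]; rw [h0] at i2; exact i2
          · rw [Set.indicator_of_mem (show w ∈ ({w | w ∉ T} : Set (Q b c)) from hST w hw h0 h1)]
      · rw [Set.indicator_of_notMem hw, Set.indicator_of_notMem (fun h1 => hw (hUR w h1)),
          Complex.ofReal_zero, sub_zero, _root_.norm_zero]
        exact i2
    rw [(hfsum.indicator _).tsum_sub hUs, ← Complex.ofReal_tsum, ← hu0] at h1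
    have h2 : ‖(u0 : ℂ)‖ = u0 := by rw [Complex.norm_real, Real.norm_eq_abs, abs_of_nonneg (by linarith)]
    have h3 := norm_sub_norm_le (u0 : ℂ) (∑' w, (RS S).indicator (fun w => χ w * (psi s w : ℂ)) w)
    rw [norm_sub_rev] at h1
    linarith
  have hR3 : ∑' w, (RS S).indicator (psi s) w
      ≤ 3 * ‖∑' w, (RS S).indicator (fun w => χ w * (psi s w : ℂ)) w‖ := by linarith
  have r1 := removal (chr_f_mul h hχ (by linarith : s ≠ 0)) hfsum S hS
  have r2 := removal (𝕜 := ℝ) (psi_mul h s) hsum S hS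
  rw [r1, r2, norm_mul, norm_prod] at hR3
  have hP : 0 < ∏ π ∈ S, (1 - psi s π) := by
    refine Finset.prod_pos fun π hπ => ?_
    have := (psi_PP_le h (hS π hπ) hs.le).2.2
    linarith
  have hfac : ∀ π ∈ S, ‖1 - χ π * (psi s π : ℂ)‖
      ≤ (1 - psi s π) * Real.exp (4 * ((1 - (χ π).re) / ((norm π : ℤ) : ℝ))) := by
    intro π hπ
    obtain ⟨x0, x1, x2⟩ := psi_PP_le h (hS π hπ) hs.le
    have hn := norm_PP h (hS π hπ)
    have hn' : (2 : ℝ) ≤ ((norm π : ℤ) : ℝ) := by exact_mod_cast hn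
    have hre := re_le_one_of_norm (hχ.norm π (hS π hπ).1.ne_zero)
    refine le_of_sq_le_sq ?_ (mul_nonneg (by linarith) (Real.exp_pos _).le)
    rw [normSq_one_sub (hχ.norm π (hS π hπ).1.ne_zero), mul_pow, ← Real.exp_nat_mul]
    have h1 : 1 + (2 : ℕ) * (4 * ((1 - (χ π).re) / ((norm π : ℤ) : ℝ)))
        ≤ Real.exp ((2 : ℕ) * (4 * ((1 - (χ π).re) / ((norm π : ℤ) : ℝ)))) := by
      have := Real.add_one_le_exp ((2 : ℕ) * (4 * ((1 - (χ π).re) / ((norm π : ℤ) : ℝ))))
      linarith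
    have h2 : psi s π * (1 - (χ π).re) ≤ (1 - (χ π).re) / ((norm π : ℤ) : ℝ) := by
      rw [div_eq_inv_mul]; gcongr
    have h3 : (1 : ℝ) / 4 ≤ (1 - psi s π) ^ 2 := by nlinarith
    have h4 : 0 ≤ (1 - (χ π).re) / ((norm π : ℤ) : ℝ) := by positivity
    calc (1 - psi s π) ^ 2 + 2 * psi s π * (1 - (χ π).re)
        ≤ (1 - psi s π) ^ 2 + (1 - psi s π) ^ 2 * (8 * ((1 - (χ π).re) / ((norm π : ℤ) : ℝ))) := by
          nlinarith
      _ = (1 - psi s π) ^ 2 * (1 + (2 : ℕ) * (4 * ((1 - (χ π).re) / ((norm π : ℤ) : ℝ)))) := by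
          push_cast; ring
      _ ≤ _ := by gcongr
  have hprod : ∏ π ∈ S, ‖1 - χ π * (psi s π : ℂ)‖
      ≤ (∏ π ∈ S, (1 - psi s π)) * Real.exp (4 * M) := by
    calc _ ≤ ∏ π ∈ S, ((1 - psi s π) * Real.exp (4 * ((1 - (χ π).re) / ((norm π : ℤ) : ℝ)))) :=
          Finset.prod_le_prod (fun _ _ => norm_nonneg _) hfac
      _ = (∏ π ∈ S, (1 - psi s π)) * Real.exp (4 * ∑ π ∈ S, ((1 - (χ π).re) / ((norm π : ℤ) : ℝ))) := by
          rw [Finset.prod_mul_distrib, ← Real.exp_sum, Finset.mul_sum]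
      _ ≤ _ := by
          gcongr
          exact hM S hS
  set P := ∏ π ∈ S, (1 - psi s π) with hPdef
  set B := ‖∑' w, χ w * (psi s w : ℂ)‖ with hB
  have h5 : P * ∑' w : Q b c, psi s w ≤ P * (3 * Real.exp (4 * M) * B) := by
    calc P * ∑' w : Q b c, psi s w ≤ 3 * ((∏ π ∈ S, ‖1 - χ π * (psi s π : ℂ)‖) * B) := hR3
      _ ≤ 3 * ((P * Real.exp (4 * M)) * B) := by
          have : 0 ≤ B := norm_nonneg _
          gcongr
      _ = _ := by ring
  exact le_of_mul_le_mul_left h5 hP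

end Pool.Agent.SB
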