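import Mathlib
import Pool.Agent.Lib.MP_a17b09_nt.SB.Pairs

open Finset

namespace Pool.Agent.SB

/-- number of divisors -/
def tau (n : ℕ) : ℕ := n.divisors.card

lemma tau_pos {n : ℕ} (hn : n ≠ 0) : 1 ≤ tau n :=
  Finset.card_pos.2 ⟨1, Nat.one_mem_divisors.2 hn⟩

lemma tau_mul_le (m n : ℕ) : tau (m * n) ≤ tau m * tau n := by
  unfold tau
  rw [Nat.divisors_mul]
  exact Finset.card_mul_le

lemma tau_prime_le {p : ℕ} (hp : p.Prime) : tau p ≤ 2 := by
  unfold tau
  rw [hp.divisors]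
  exact Finset.card_le_two

lemma exists_half {n : ℕ} (hn : n ≠ 0) : ∃ d, d ∣ n ∧ d ^ 2 ≤ n ∧ tau n ≤ 2 * tau d ^ 2 := by
  classical
  set A : Finset ℕ := n.divisors.filter (fun d => d ^ 2 ≤ n) with hA
  have hne : A.Nonempty := ⟨1, by rw [hA, Finset.mem_filter]; exact ⟨Nat.one_mem_divisors.2 hn, by
    have := Nat.pos_of_ne_zero hn; omega⟩⟩
  obtain ⟨u, huA, humax⟩ := A.exists_max_image id hne
  rw [hA, Finset.mem_filter] at huA
  obtain ⟨hud, hu2⟩ := huA
  have hud' : u ∣ n := Nat.dvd_of_mem_divisors hud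
  obtain ⟨m, hm⟩ := hud'
  have hu0 : u ≠ 0 := by rintro rfl; simp at hm; exact hn hm
  have hm0 : m ≠ 0 := by rintro rfl; simp at hm; exact hn hm
  by_cases hm1 : m = 1
  · subst hm1
    refine ⟨u, ⟨1, hm⟩, hu2, ?_⟩
    rw [hm, mul_one]
    have := tau_pos hu0
    nlinarith
  obtain ⟨p, hp, hpm⟩ := Nat.exists_prime_and_dvd hm1
  obtain ⟨v, hv⟩ := hpm
  have hup : n < (u * p) ^ 2 := by
    by_contra hle
    push Not at hle
    have hmem : u * p ∈ A := by
      rw [hA, Finset.mem_filter, Nat.mem_divisors]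
      exact ⟨⟨⟨v, by rw [hm, hv]; ring⟩, hn⟩, hle⟩
    have := humax _ hmem
    simp only [id] at this
    have hp2 := hp.two_le
    have : 0 < u := Nat.pos_of_ne_zero hu0
    nlinarith
  have hn' : n = u * p * v := by rw [hm, hv]; ring
  have hv2 : v ^ 2 ≤ n := by
    by_contra hlt
    push Not at hlt
    have h1 : n * n < (u * p) ^ 2 * v ^ 2 :=
      Nat.mul_lt_mul'' hup hlt
    have h2 : (u * p) ^ 2 * v ^ 2 = n * n := by rw [hn']; ring
    omega
  have hv0 : v ≠ 0 := by rintro rfl; simp at hn'; exact hn hn'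
  have htau : tau n ≤ 2 * (tau u * tau v) := by
    calc tau n = tau (u * p * v) := by rw [← hn']
      _ ≤ tau (u * p) * tau v := tau_mul_le _ _
      _ ≤ (tau u * tau p) * tau v := Nat.mul_le_mul_right _ (tau_mul_le _ _)
      _ ≤ (tau u * 2) * tau v := by gcongr; exact tau_prime_le hp
      _ = _ := by ring
  rcases le_total (tau u) (tau v) with h | h
  · refine ⟨v, ⟨u * p, by rw [hn']; ring⟩, hv2, htau.trans ?_⟩
    nlinarith
  · refine ⟨u, ⟨m, hm⟩, hu2, htau.trans ?_⟩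
    nlinarith

lemma tau_sq_le {n : ℕ} (hn : n ≠ 0) :
    tau n ^ 2 ≤ 4 * ∑ d ∈ n.divisors with d ^ 2 ≤ n, tau d ^ 4 := by
  obtain ⟨d, hd, hd2, hle⟩ := exists_half hn
  have hmem : d ∈ n.divisors.filter (fun d => d ^ 2 ≤ n) :=
    Finset.mem_filter.2 ⟨Nat.mem_divisors.2 ⟨hd, hn⟩, hd2⟩
  calc tau n ^ 2 ≤ (2 * tau d ^ 2) ^ 2 := by gcongr
    _ = 4 * tau d ^ 4 := by ring
    _ ≤ _ := by
        gcongr
        exact Finset.single_le_sum (f := fun d => tau d ^ 4) (fun _ _ => Nat.zero_le _) hmem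

/-- `∑_{d ≤ Y} τ(d)^k / d`. -/
noncomputable def Hk (k Y : ℕ) : ℝ := ∑ d ∈ Icc 1 Y, (tau d : ℝ) ^ k / d

lemma Hk_nonneg (k Y : ℕ) : 0 ≤ Hk k Y := Finset.sum_nonneg fun _ _ => by positivity

lemma Hk_succ_le (k Y : ℕ) : Hk (k + 1) Y ≤ Hk k Y ^ 2 := by
  classical
  unfold Hk
  have h1 : ∀ d ∈ Icc 1 Y, (tau d : ℝ) ^ (k + 1) / d
      = ∑ a ∈ d.divisors, (tau d : ℝ) ^ k / d := by
    intro d _
    rw [Finset.sum_const, nsmul_eq_mul, pow_succ]
    unfold tau
    ring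
  rw [Finset.sum_congr rfl h1, pow_two, Finset.sum_mul_sum, ← Finset.sum_product', Finset.sum_sigma']
  -- inject (d, a) to (a, d / a)
  let f : (Σ _ : ℕ, ℕ) → ℕ × ℕ := fun x => (x.2, x.1 / x.2)
  have hinj : Set.InjOn f ((Icc 1 Y).sigma fun d => d.divisors : Finset (Σ _ : ℕ, ℕ)) := by
    rintro ⟨d, a⟩ h ⟨d', a'⟩ h' heq
    simp only [Finset.coe_sigma, Set.mem_sigma_iff, Finset.mem_coe, Nat.mem_divisors] at h h'
    simp only [f, Prod.mk.injEq] at heq
    obtain ⟨e1, e2⟩ := heq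
    subst e1
    have hd := Nat.mul_div_cancel' h.2.1
    have hd' := Nat.mul_div_cancel' h'.2.1
    have : d = d' := by rw [← hd, ← hd', e2]
    subst this
    rfl
  calc _ ≤ ∑ x ∈ (Icc 1 Y).sigma fun d => d.divisors,
        ((tau (f x).1 : ℝ) ^ k / (f x).1 * ((tau (f x).2 : ℝ) ^ k / (f x).2)) := by
        refine Finset.sum_le_sum fun x hx => ?_
        obtain ⟨d, a⟩ := x
        simp only [Finset.mem_sigma, Nat.mem_divisors, Finset.mem_Icc] at hx
        obtain ⟨⟨hd1, hd2⟩, ha, _⟩ := hx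
        have hd := Nat.mul_div_cancel' ha
        simp only [f]
        have h2 : (tau d : ℝ) ≤ tau a * tau (d / a) := by
          have := tau_mul_le a (d / a)
          rw [hd] at this
          exact_mod_cast this
        have h3 : (d : ℝ) = (a : ℝ) * ((d / a : ℕ) : ℝ) := by exact_mod_cast hd.symm
        rw [div_mul_div_comm, ← mul_pow, ← h3]
        gcongr
    _ = ∑ y ∈ ((Icc 1 Y).sigma fun d => d.divisors).image f,
        ((tau y.1 : ℝ) ^ k / y.1 * ((tau y.2 : ℝ) ^ k / y.2)) := by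
        rw [Finset.sum_image hinj]
    _ ≤ _ := by
        refine Finset.sum_le_sum_of_subset_of_nonneg ?_ fun _ _ _ => by positivity
        intro y hy
        obtain ⟨⟨d, a⟩, hx, rfl⟩ := Finset.mem_image.1 hy
        simp only [Finset.mem_sigma, Nat.mem_divisors, Finset.mem_Icc] at hx
        obtain ⟨⟨hd1, hd2⟩, ha, _⟩ := hx
        simp only [f, Finset.mem_product, Finset.mem_Icc]
        have ha0 : 0 < a := Nat.pos_of_dvd_of_pos ha hd1
        have hale : a ≤ d := Nat.le_of_dvd hd1 ha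
        have := Nat.div_pos hale ha0
        have := Nat.div_le_self d a
        exact ⟨⟨ha0, by omega⟩, by omega, by omega⟩

lemma Hk_zero_le (Y : ℕ) : Hk 0 Y ≤ 1 + Real.log Y := by
  unfold Hk
  have h := harmonic_le_one_add_log Y
  have h2 : ((harmonic Y : ℚ) : ℝ) = ∑ d ∈ Icc 1 Y, (tau d : ℝ) ^ 0 / d := by
    rw [harmonic_eq_sum_Icc]
    push_cast
    refine Finset.sum_congr rfl fun d _ => ?_
    simp
  rw [← h2]
  exact h

lemma Hk_le (Y : ℕ) (k : ℕ) : Hk k Y ≤ (1 + Real.log Y) ^ (2 ^ k) := by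
  induction k with
  | zero => simpa using Hk_zero_le Y
  | succ k ih =>
    calc Hk (k + 1) Y ≤ Hk k Y ^ 2 := Hk_succ_le k Y
      _ ≤ ((1 + Real.log Y) ^ (2 ^ k)) ^ 2 := by
          have := Hk_nonneg k Y
          gcongr
      _ = _ := by rw [← pow_mul, pow_succ]


lemma card_class_le (B : Finset ℕ) (X m : ℕ) (hB : ∀ t ∈ B, t ≤ X)
    (hd : ∀ t ∈ B, ∀ t' ∈ B, (m : ℤ) ∣ (t : ℤ) - t') : B.card ≤ X / m + 1 := by
  have h1 : B.card ≤ (Finset.range (X / m + 1)).card := by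
    refine Finset.card_le_card_of_injOn (fun t => t / m) ?_ ?_
    · intro t ht
      simp only [Finset.coe_range, Set.mem_Iio]
      exact Nat.lt_succ_of_le (Nat.div_le_div_right (hB t ht))
    · intro t ht t' ht' heq
      simp only at heq
      have h2 := hd t ht t' ht'
      have h3 : t % m = t' % m := by
        have : (t : ℤ) ≡ t' [ZMOD m] := (Int.modEq_iff_dvd.2 (by
          have := hd t' ht' t ht; exact this)) 
        exact_mod_cast (Int.natCast_modEq_iff.1 this)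
      have h4 := Nat.div_add_mod t m
      have h5 := Nat.div_add_mod t' m
      rw [heq, h3] at h4
      omega
  simpa using h1

lemma roots_le (b c : ℤ) (h : b ^ 2 < 4 * c) (X d : ℕ) (hd : 0 < d) :
    (((Icc 1 X).filter (fun t : ℕ => (d : ℤ) ∣ fv b c t)).card : ℝ)
      ≤ tau d * ((4 * c - b ^ 2 : ℤ) * X / d + 1) := by
  classical
  set A := (Icc 1 X).filter (fun t : ℕ => (d : ℤ) ∣ fv b c t) with hA
  have hD : 0 < 4 * c - b ^ 2 := by linarith
  have hDr : (0 : ℝ) < ((4 * c - b ^ 2 : ℤ) : ℝ) := by exact_mod_cast hD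
  by_cases hne : A.Nonempty
  swap
  · rw [Finset.not_nonempty_iff_eq_empty] at hne
    rw [hne]
    simp only [Finset.card_empty, Nat.cast_zero]
    positivity
  obtain ⟨t0, ht0⟩ := hne
  rw [hA, Finset.mem_filter] at ht0
  have hmaps : ∀ t ∈ A, Nat.gcd d ((t : ℤ) - t0).natAbs ∈ d.divisors := fun t _ =>
    Nat.mem_divisors.2 ⟨Nat.gcd_dvd_left _ _, hd.ne'⟩
  have hcard := Finset.card_eq_sum_card_fiberwise hmaps
  have hfib : ∀ e ∈ d.divisors, ((A.filter (fun t : ℕ => Nat.gcd d ((t : ℤ) - t0).natAbs = e)).card : ℝ)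
      ≤ (4 * c - b ^ 2 : ℤ) * X / d + 1 := by
    intro e he
    have hed : e ∣ d := Nat.dvd_of_mem_divisors he
    obtain ⟨e', he'⟩ := hed
    have he0 : 0 < e := Nat.pos_of_ne_zero (by rintro rfl; simp at he'; omega)
    have he'0 : 0 < e' := Nat.pos_of_ne_zero (by rintro rfl; simp at he'; omega)
    set B := A.filter (fun t : ℕ => Nat.gcd d ((t : ℤ) - t0).natAbs = e) with hB
    by_cases hBne : B.Nonempty
    swap
    · rw [Finset.not_nonempty_iff_eq_empty] at hBne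
      rw [hBne]
      simp only [Finset.card_empty, Nat.cast_zero]
      positivity
    have hprop : ∀ t ∈ B, (e : ℤ) ∣ (t : ℤ) - t0 ∧ (e' : ℤ) ∣ (t : ℤ) + t0 + b := by
      intro t ht
      rw [hB, Finset.mem_filter, hA, Finset.mem_filter] at ht
      obtain ⟨⟨_, h1⟩, h2⟩ := ht
      have h3 : (e : ℤ) ∣ (t : ℤ) - t0 := by
        rw [← h2]
        exact Int.natCast_dvd.2 (Nat.gcd_dvd_right _ _)
      refine ⟨h3, ?_⟩
      have h4 : (d : ℤ) ∣ ((t : ℤ) - t0) * ((t : ℤ) + t0 + b) := by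
        have h5 := dvd_sub h1 ht0.2
        have h6 : fv b c t - fv b c t0 = ((t : ℤ) - t0) * ((t : ℤ) + t0 + b) := by
          unfold fv; ring
        rwa [h6] at h5
      obtain ⟨k, hk⟩ := h3
      have hcop : IsCoprime (e' : ℤ) k := by
        have h7 : Nat.gcd (e * e') ((e : ℤ) * k).natAbs = e := by rw [← he', ← hk]; exact h2
        rw [Int.natAbs_mul, Int.natAbs_natCast, Nat.gcd_mul_left] at h7
        have h8 : Nat.gcd e' k.natAbs = 1 := by
          have : e * Nat.gcd e' k.natAbs = e * 1 := by rw [h7, mul_one]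
          exact Nat.eq_of_mul_eq_mul_left he0 this
        rw [Int.isCoprime_iff_gcd_eq_one, Int.gcd_def]
        simpa using h8
      rw [hk, he'] at h4
      push_cast at h4
      have h9 : (e' : ℤ) ∣ k * ((t : ℤ) + t0 + b) := by
        have : (e : ℤ) * e' ∣ e * (k * ((t : ℤ) + t0 + b)) := by rw [← mul_assoc]; exact h4
        exact Int.dvd_of_mul_dvd_mul_left (by exact_mod_cast he0.ne') this
      exact hcop.dvd_of_dvd_mul_left h9
    set g := Nat.gcd e e' with hg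
    have hg0 : 0 < g := Nat.gcd_pos_of_pos_left _ he0
    set m := Nat.lcm e e' with hm
    have hm0 : 0 < m := Nat.lcm_pos he0 he'0
    have hgm : g * m = d := by rw [hg, hm, Nat.gcd_mul_lcm, he']
    have hgD : (g : ℤ) ≤ 4 * c - b ^ 2 := by
      obtain ⟨t, ht⟩ := hBne
      obtain ⟨h1, h2⟩ := hprop t ht
      have g1 : (g : ℤ) ∣ (e : ℤ) := by exact_mod_cast Nat.gcd_dvd_left e e'
      have g2 : (g : ℤ) ∣ (e' : ℤ) := by exact_mod_cast Nat.gcd_dvd_right e e'
      have h3 : (g : ℤ) ∣ 2 * t0 + b := by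
        have := dvd_sub (g2.trans h2) (g1.trans h1)
        have e : ((t : ℤ) + t0 + b) - ((t : ℤ) - t0) = 2 * t0 + b := by ring
        rwa [e] at this
      have h4 : (g : ℤ) ^ 2 ∣ 4 * fv b c t0 := by
        have h5 : (g : ℤ) ^ 2 ∣ (d : ℤ) := by
          rw [he', pow_two]; push_cast
          exact mul_dvd_mul g1 g2
        exact (h5.trans ht0.2).mul_left 4
      have h6 : (g : ℤ) ^ 2 ∣ (4 * c - b ^ 2) := by
        have h7 : (g : ℤ) ^ 2 ∣ (2 * t0 + b) ^ 2 := pow_dvd_pow_of_dvd h3 2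
        have h8 := dvd_sub h4 h7
        have h9 : 4 * fv b c t0 - (2 * (t0 : ℤ) + b) ^ 2 = 4 * c - b ^ 2 := by unfold fv; ring
        rwa [h9] at h8
      have h10 := Int.le_of_dvd hD h6
      have : (1 : ℤ) ≤ g := by exact_mod_cast hg0
      nlinarith
    have hcls := card_class_le B X m (fun t ht => by
        rw [hB, Finset.mem_filter, hA, Finset.mem_filter, Finset.mem_Icc] at ht
        exact ht.1.1.2) (fun t ht t' ht' => by
        have h1 := hprop t ht
        have h2 := hprop t' ht'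
        have h3 : (e : ℤ) ∣ (t : ℤ) - t' := by
          have := dvd_sub h1.1 h2.1
          have e : ((t : ℤ) - t0) - ((t' : ℤ) - t0) = (t : ℤ) - t' := by ring
          rwa [e] at this
        have h4 : (e' : ℤ) ∣ (t : ℤ) - t' := by
          have := dvd_sub h1.2 h2.2
          have e : ((t : ℤ) + t0 + b) - ((t' : ℤ) + t0 + b) = (t : ℤ) - t' := by ring
          rwa [e] at this
        rw [hm]
        have h5 : (e : ℕ) ∣ ((t : ℤ) - t').natAbs := Int.natCast_dvd.1 h3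
        have h6 : (e' : ℕ) ∣ ((t : ℤ) - t').natAbs := Int.natCast_dvd.1 h4
        exact Int.natCast_dvd.2 (Nat.lcm_dvd h5 h6))
    have hmr : (0 : ℝ) < m := by exact_mod_cast hm0
    have hdr : (d : ℝ) = g * m := by exact_mod_cast hgm.symm
    have hgr : (0 : ℝ) < g := by exact_mod_cast hg0
    calc (B.card : ℝ) ≤ ((X / m + 1 : ℕ) : ℝ) := by exact_mod_cast hcls
      _ ≤ (X : ℝ) / m + 1 := by push_cast; gcongr; exact Nat.cast_div_le
      _ = g * X / d + 1 := by rw [hdr]; field_simp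
      _ ≤ _ := by
          gcongr
          exact_mod_cast hgD
  rw [hcard, Nat.cast_sum]
  refine (Finset.sum_le_sum hfib).trans (le_of_eq ?_)
  rw [Finset.sum_const, nsmul_eq_mul]
  rfl

theorem second_moment (b c : ℤ) (hb : 0 ≤ b) (h : b ^ 2 < 4 * c) :
    ∃ C : ℝ, 0 < C ∧ ∀ N : ℕ, 1 ≤ N →
      ∑ t ∈ Icc 1 N, (tau (fv b c t).natAbs : ℝ) ^ 2 ≤ C * N * (1 + Real.log N) ^ 32 := by
  classical
  have hc : 1 ≤ c := by nlinarith [sq_nonneg b]
  obtain ⟨C1, hC1⟩ := Int.eq_ofNat_of_zero_le (show 0 ≤ 1 + b + c by omega)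
  have hC1pos : 1 ≤ C1 := by omega
  have hD : 0 < 4 * c - b ^ 2 := by linarith
  set D : ℝ := ((4 * c - b ^ 2 : ℤ) : ℝ) with hDdef
  have hDr : (0 : ℝ) < D := by rw [hDdef]; exact_mod_cast hD
  have hC1r : (1 : ℝ) ≤ C1 := by exact_mod_cast hC1pos
  have hlogC1 : 0 ≤ Real.log C1 := Real.log_nonneg hC1r
  refine ⟨4 * (D + C1) * (1 + Real.log C1) ^ 32, by positivity, fun N hN => ?_⟩
  have hNr : (1 : ℝ) ≤ N := by exact_mod_cast hN
  have hpos : ∀ t : ℕ, 0 < fv b c t := by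
    intro t; unfold fv; positivity
  have hle : ∀ t ∈ Icc 1 N, (fv b c t).natAbs ≤ (C1 * N) ^ 2 := by
    intro t ht
    rw [Finset.mem_Icc] at ht
    have h1 : fv b c t ≤ (1 + b + c) * (N : ℤ) ^ 2 := by
      unfold fv
      have a1 : (1 : ℤ) ≤ t := by exact_mod_cast ht.1
      have a2 : (t : ℤ) ≤ N := by exact_mod_cast ht.2
      have a3 : (t : ℤ) ^ 2 ≤ (N : ℤ) ^ 2 := by gcongr
      have a4 : (t : ℤ) ≤ (N : ℤ) ^ 2 := by nlinarith
      have a5 : (1 : ℤ) ≤ (N : ℤ) ^ 2 := by nlinarith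
      nlinarith [mul_le_mul_of_nonneg_left a4 hb]
    rw [hC1] at h1
    have h2 : ((fv b c t).natAbs : ℤ) = fv b c t := Int.natAbs_of_nonneg (hpos t).le
    have h3 : ((fv b c t).natAbs : ℤ) ≤ (C1 : ℤ) * (N : ℤ) ^ 2 := by rw [h2]; exact h1
    have h4 : (fv b c t).natAbs ≤ C1 * N ^ 2 := by exact_mod_cast h3
    nlinarith [Nat.mul_le_mul_right (C1 * N ^ 2) hC1pos]
  have hstep : ∀ t ∈ Icc 1 N, (tau (fv b c t).natAbs : ℝ) ^ 2
      ≤ 4 * ∑ d ∈ Icc 1 (C1 * N), if (d : ℤ) ∣ fv b c t then (tau d : ℝ) ^ 4 else 0 := by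
    intro t ht
    have hn : (fv b c t).natAbs ≠ 0 := by have := hpos t; omega
    have h1 := tau_sq_le hn
    have h2 : (tau (fv b c t).natAbs : ℝ) ^ 2
        ≤ 4 * ∑ d ∈ (fv b c t).natAbs.divisors with d ^ 2 ≤ (fv b c t).natAbs, (tau d : ℝ) ^ 4 := by
      exact_mod_cast h1
    refine h2.trans ?_
    rw [← Finset.sum_filter]
    refine mul_le_mul_of_nonneg_left (Finset.sum_le_sum_of_subset_of_nonneg ?_
      fun _ _ _ => by positivity) (by norm_num)
    intro d hd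
    rw [Finset.mem_filter, Nat.mem_divisors] at hd
    obtain ⟨⟨h3, _⟩, h4⟩ := hd
    rw [Finset.mem_filter, Finset.mem_Icc]
    refine ⟨⟨Nat.pos_of_dvd_of_pos h3 (Nat.pos_of_ne_zero hn), ?_⟩, Int.natCast_dvd.2 h3⟩
    have h5 := h4.trans (hle t ht)
    exact (Nat.pow_le_pow_iff_left (by norm_num)).1 h5
  calc ∑ t ∈ Icc 1 N, (tau (fv b c t).natAbs : ℝ) ^ 2
      ≤ ∑ t ∈ Icc 1 N, 4 * ∑ d ∈ Icc 1 (C1 * N), (if (d : ℤ) ∣ fv b c t then (tau d : ℝ) ^ 4 else 0) :=
        Finset.sum_le_sum hstep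
    _ = 4 * ∑ d ∈ Icc 1 (C1 * N), (tau d : ℝ) ^ 4 *
          ((Icc 1 N).filter (fun t : ℕ => (d : ℤ) ∣ fv b c t)).card := by
        rw [← Finset.mul_sum, Finset.sum_comm]
        congr 1
        refine Finset.sum_congr rfl fun d _ => ?_
        rw [← Finset.sum_filter, Finset.sum_const, nsmul_eq_mul, mul_comm]
    _ ≤ 4 * ∑ d ∈ Icc 1 (C1 * N), (D + C1) * N * ((tau d : ℝ) ^ 5 / d) := by
        refine mul_le_mul_of_nonneg_left (Finset.sum_le_sum fun d hd => ?_) (by norm_num)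
        rw [Finset.mem_Icc] at hd
        have hd0 : (0 : ℝ) < d := by exact_mod_cast hd.1
        have hd1 : (d : ℝ) ≤ C1 * N := by exact_mod_cast hd.2
        have h1 := roots_le b c h N d hd.1
        have h2 : D * N / d + 1 ≤ (D + C1) * N / d := by
          rw [add_mul, add_div]
          gcongr
          rw [le_div_iff₀ hd0, one_mul]; exact hd1
        calc (tau d : ℝ) ^ 4 * (((Icc 1 N).filter (fun t : ℕ => (d : ℤ) ∣ fv b c t)).card : ℝ)
            ≤ (tau d : ℝ) ^ 4 * (tau d * (D * N / d + 1)) := by gcongr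
          _ ≤ (tau d : ℝ) ^ 4 * (tau d * ((D + C1) * N / d)) := by gcongr
          _ = _ := by ring
    _ = 4 * (D + C1) * N * Hk 5 (C1 * N) := by
        unfold Hk
        rw [← Finset.mul_sum]
        ring
    _ ≤ 4 * (D + C1) * N * (1 + Real.log ((C1 * N : ℕ) : ℝ)) ^ 32 := by
        gcongr
        exact Hk_le _ 5
    _ ≤ 4 * (D + C1) * N * ((1 + Real.log C1) * (1 + Real.log N)) ^ 32 := by
        have hlogN : 0 ≤ Real.log N := Real.log_nonneg hNr
        have hl : 0 ≤ Real.log ((C1 * N : ℕ) : ℝ) := Real.log_natCast_nonneg _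
        gcongr
        push_cast
        rw [Real.log_mul (by positivity) (by positivity)]
        nlinarith
    _ = _ := by rw [mul_pow]; ring

end Pool.Agent.SB
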