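import Mathlib
import Pool.Agent.Lib.MP_a17b09_nt.SB.Euler

open QuadraticAlgebra ENNReal Filter Topology

namespace Pool.Agent.SB

variable {b c : ℤ}

lemma total_lower (hb : 0 ≤ b) (h : b ^ 2 < 4 * c) {s : ℝ} (hs : 1 < s) (hs2 : s ≤ 2) :
    ((1 + b + c : ℤ) : ℝ) ^ (-2 : ℝ) * z0 s ≤ ∑' w : Q b c, psi s w := by
  refine (root_lower hb h hs hs2).trans ?_
  refine (ind_summable h hs hs2 _).tsum_le_tsum (fun w => ?_) (psi_summable h hs hs2)
  exact Set.indicator_le_self' (fun w _ => psi_nonneg h s w) w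

lemma total_tendsto (hb : 0 ≤ b) (h : b ^ 2 < 4 * c) (K : ℝ) :
    ∀ᶠ s in 𝓝[>] (1 : ℝ), K < ∑' w : Q b c, psi s w := by
  have hc : 1 ≤ c := by nlinarith [sq_nonneg b]
  have hm : (0 : ℝ) < ((1 + b + c : ℤ) : ℝ) := by exact_mod_cast (by omega : 0 < 1 + b + c)
  set κ : ℝ := ((1 + b + c : ℤ) : ℝ) ^ (-2 : ℝ) with hκ
  have hκ0 : 0 < κ := by positivity
  filter_upwards [ev12, z0_pos_ev ((|K| + 1) / κ)] with s h1 h2
  have h3 := total_lower hb h h1.1 h1.2
  rw [div_le_iff₀ hκ0] at h2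
  have := le_abs_self K
  rw [← hκ] at h3
  linarith

lemma chr_eta (h : b ^ 2 < 4 * c) (j : ℤ) : Chr (fun w : Q b c => eta w ^ j) where
  mul v w _ _ := by simp only [eta_mul h, mul_zpow]
  norm w hw := by simp only [norm_zpow, eta_norm h hw, one_zpow]

theorem dir_div [UniqueFactorizationMonoid (Q b c)] (hb : 0 ≤ b) (h : b ^ 2 < 4 * c) (j : ℤ)
    (hj : j ≠ 0) (hu : ∀ ε : Q b c, IsUnit ε → eta ε ^ j = 1) (M : ℝ) :
    ∃ S : Finset (Q b c), (∀ π ∈ S, π ∈ PP b c) ∧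
      M < ∑ π ∈ S, (1 - (eta π ^ j).re) / ((norm π : ℤ) : ℝ) := by
  by_contra hcon
  push Not at hcon
  obtain ⟨C, hC, hev⟩ := AA_bdd (b := b) (c := c) h j hj
  obtain ⟨s, h1, h2, h3⟩ := (hev.and (ev12.and (total_tendsto hb h (3 * Real.exp (4 * M) * C)))).exists
  have h4 := lower h (chr_eta h j) hu (fun S hS => hcon S hS) h2.1 h2.2
  have h5 : 3 * Real.exp (4 * M) * ‖∑' w : Q b c, eta w ^ j * (psi s w : ℂ)‖
      ≤ 3 * Real.exp (4 * M) * C := by
    gcongr
    exact h1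
  linarith

/-- A completely multiplicative sign function, trivial on units and not close to one. -/
structure MulSign (F : Q b c → ℝ) : Prop where
  one : ∀ w, w ≠ 0 → F w = 1 ∨ F w = -1
  mul : ∀ v w, v ≠ 0 → w ≠ 0 → F (v * w) = F v * F w
  unit : ∀ ε, IsUnit ε → F ε = 1
  div : ∀ M : ℝ, ∃ S : Finset (Q b c), (∀ π ∈ S, π ∈ PP b c) ∧
    M < ∑ π ∈ S, (1 - F π) / ((norm π : ℤ) : ℝ)

lemma MulSign.chr {F : Q b c → ℝ} (hF : MulSign F) (h : b ^ 2 < 4 * c) (k : ℤ) :
    Chr (fun w : Q b c => (F w : ℂ) * eta w ^ k) where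
  mul v w hv hw := by
    simp only [hF.mul v w hv hw, eta_mul h, mul_zpow]
    push_cast; ring
  norm w hw := by
    rw [norm_mul, norm_zpow, eta_norm h hw, one_zpow, mul_one, Complex.norm_real]
    rcases hF.one w hw with h1 | h1 <;> rw [h1] <;> norm_num

lemma mean_of_div [UniqueFactorizationMonoid (Q b c)] (h : b ^ 2 < 4 * c) {χ : Q b c → ℂ}
    (hχ : Chr χ) (hD : ∀ M : ℝ, ∃ S : Finset (Q b c), (∀ π ∈ S, π ∈ PP b c) ∧
      M < ∑ π ∈ S, (1 - (χ π).re) / ((norm π : ℤ) : ℝ)) (ε : ℝ) (hε : 0 < ε) :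
    ∀ᶠ s in 𝓝[>] (1 : ℝ), ‖∑' w, χ w * (psi s w : ℂ)‖ ≤ ε * z0 s := by
  have hc : (0 : ℝ) < c := by
    have : 0 < c := by nlinarith [sq_nonneg b]
    exact_mod_cast this
  have hKK : 0 < KK c := by unfold KK; positivity
  set K : ℝ := (KK c / ε) ^ 2 with hK
  have hK0 : 0 < K := by positivity
  obtain ⟨S, hS, hSM⟩ := hD K
  have hlim : Tendsto (fun s : ℝ => ∑ π ∈ S, 2 * psi s π * (1 - (χ π).re)) (𝓝[>] 1)
      (𝓝 (∑ π ∈ S, 2 * psi 1 π * (1 - (χ π).re))) := by
    refine tendsto_finsetSum _ fun π hπ => ?_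
    have hn := norm_PP h (hS π hπ)
    have hn' : (0 : ℝ) < ((norm π : ℤ) : ℝ) := by exact_mod_cast (by omega : 0 < norm π)
    have h1 : ContinuousAt (fun s : ℝ => 2 * ((norm π : ℤ) : ℝ) ^ (-s) * (1 - (χ π).re)) 1 := by
      refine ContinuousAt.mul (ContinuousAt.mul continuousAt_const ?_) continuousAt_const
      exact ContinuousAt.rpow continuousAt_const (by fun_prop) (Or.inl hn'.ne')
    exact h1.tendsto.mono_left nhdsWithin_le_nhds
  have hval : K < ∑ π ∈ S, 2 * psi 1 π * (1 - (χ π).re) := by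
    refine hSM.trans_le ?_
    refine Finset.sum_le_sum fun π hπ => ?_
    have hn := norm_PP h (hS π hπ)
    have hn' : (0 : ℝ) < ((norm π : ℤ) : ℝ) := by exact_mod_cast (by omega : 0 < norm π)
    have hre := re_le_one_of_norm (hχ.norm π (hS π hπ).1.ne_zero)
    rw [psi, Real.rpow_neg_one, div_eq_inv_mul]
    have : 0 ≤ ((norm π : ℤ) : ℝ)⁻¹ * (1 - (χ π).re) := by positivity
    linarith
  filter_upwards [hlim.eventually (lt_mem_nhds hval), ev12] with s h1 h2
  have h3 := upper h hχ h2.1 h2.2 S hS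
  have h4 := psi_tsum_le (b := b) h h2.1 h2.2
  have hz := z0_nonneg s
  have hZ0 : 0 ≤ ∑' w : Q b c, psi s w := tsum_nonneg (psi_nonneg h s)
  set B := ‖∑' w, χ w * (psi s w : ℂ)‖ with hB
  have h5 : B ^ 2 * K ≤ (KK c * z0 s) ^ 2 := by
    calc B ^ 2 * K ≤ B ^ 2 * (∑ π ∈ S, 2 * psi s π * (1 - (χ π).re)) := by gcongr
      _ ≤ _ := h3
      _ ≤ _ := by gcongr
  refine le_of_sq_le_sq ?_ (by positivity)
  have h6 : B ^ 2 ≤ (KK c * z0 s) ^ 2 / K := by rw [le_div_iff₀ hK0]; exact h5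
  refine h6.trans (le_of_eq ?_)
  rw [hK]; field_simp

theorem mean_zero [UniqueFactorizationMonoid (Q b c)] (hb : 0 ≤ b) (h : b ^ 2 < 4 * c)
    {F : Q b c → ℝ} (hF : MulSign F) (k : ℤ) (ε : ℝ) (hε : 0 < ε) :
    ∀ᶠ s in 𝓝[>] (1 : ℝ), ‖∑' w, ((F w : ℂ) * eta w ^ k) * (psi s w : ℂ)‖ ≤ ε * z0 s := by
  by_cases hu : ∀ e : Q b c, IsUnit e → eta e ^ k = 1
  · refine mean_of_div h (hF.chr h k) (fun M => ?_) ε hε
    by_cases hk : k = 0
    · subst hk
      obtain ⟨S, hS, hM⟩ := hF.div M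
      refine ⟨S, hS, ?_⟩
      simpa using hM
    · obtain ⟨S, hS, hM⟩ := dir_div hb h (2 * k) (by omega)
        (fun e he => by rw [mul_comm, zpow_mul, hu e he, one_zpow]) (4 * M)
      refine ⟨S, hS, ?_⟩
      have hle : ∑ π ∈ S, (1 - (eta π ^ (2 * k)).re) / ((norm π : ℤ) : ℝ)
          ≤ 4 * ∑ π ∈ S, (1 - ((F π : ℂ) * eta π ^ k).re) / ((norm π : ℤ) : ℝ) := by
        rw [Finset.mul_sum]
        refine Finset.sum_le_sum fun π hπ => ?_
        have hn := norm_PP h (hS π hπ)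
        have hn' : (0 : ℝ) < ((norm π : ℤ) : ℝ) := by exact_mod_cast (by omega : 0 < norm π)
        have hne := (hS π hπ).1.ne_zero
        set z : ℂ := (F π : ℂ) * eta π ^ k with hz
        have hz1 : ‖z‖ = 1 := (hF.chr h k).norm π hne
        have hz2 : eta π ^ (2 * k) = z ^ 2 := by
          rw [hz, mul_pow, mul_comm 2 k, zpow_mul]
          have : (F π : ℂ) ^ 2 = 1 := by
            rcases hF.one π hne with h1 | h1 <;> rw [h1] <;> norm_num
          rw [this, one_mul]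
          norm_cast
        have h1 : z.re ^ 2 + z.im ^ 2 = 1 := by
          have : ‖z‖ ^ 2 = 1 := by rw [hz1]; norm_num
          rw [← Complex.normSq_eq_norm_sq, Complex.normSq_apply] at this
          nlinarith
        have h2 : 1 - (z ^ 2).re ≤ 4 * (1 - z.re) := by
          rw [pow_two, Complex.mul_re]
          nlinarith [sq_nonneg (1 - z.re)]
        rw [hz2, ← mul_div_assoc]
        gcongr
      linarith
  · push Not at hu
    obtain ⟨e, he, hne⟩ := hu
    obtain ⟨u, rfl⟩ := he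
    filter_upwards [ev12] with s hs
    have h0 : ∑' w : Q b c, ((F w : ℂ) * eta w ^ k) * (psi s w : ℂ) = 0 := by
      set f : Q b c → ℂ := fun w => ((F w : ℂ) * eta w ^ k) * (psi s w : ℂ) with hf
      have hmul := chr_f_mul h (hF.chr h k) (by linarith [hs.1] : s ≠ 0)
      have h1 : ∑' w, f w = ∑' w, f (u * w) := (u.mulLeft.tsum_eq f).symm
      have hpsi : psi s (u : Q b c) = 1 := by
        have h2 : norm (u : Q b c) = 1 := by
          have h3 := (isUnit_iff_norm_isUnit (x := (u : Q b c))).1 u.isUnit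
          have h4 := nm_nonneg h (u : Q b c)
          rcases Int.isUnit_iff.1 h3 with h5 | h5
          · exact h5
          · omega
        rw [psi, h2]; simp
      have h2 : ∀ w, f (u * w) = eta (u : Q b c) ^ k * f w := by
        intro w
        have := hmul u w
        simp only [hf]
        rw [this, hF.unit _ u.isUnit, hpsi]
        push_cast; ring
      rw [tsum_congr h2, tsum_mul_left] at h1
      have h3 : (1 - eta (u : Q b c) ^ k) * ∑' w, f w = 0 := by
        rw [sub_mul, one_mul, ← h1, sub_self]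
      rcases mul_eq_zero.1 h3 with h4 | h4
      · exact absurd (sub_eq_zero.1 h4).symm hne
      · exact h4
    rw [h0, _root_.norm_zero]
    exact mul_nonneg hε.le (z0_nonneg s)

end Pool.Agent.SB
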