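import Mathlib
import Pool.Agent.Lib.MP_a17b09_nt.SB.Means

open QuadraticAlgebra ENNReal Filter Topology

namespace Pool.Agent.SB

variable {b c : ℤ}

/-- the angle -/
noncomputable def ang (w : Q b c) : AddCircle (2 * Real.pi) := ((Complex.arg (emb w) : ℝ) : AddCircle (2 * Real.pi))

instance : Fact (0 < 2 * Real.pi) := ⟨Real.two_pi_pos⟩

lemma toCircle_ang (h : b ^ 2 < 4 * c) {w : Q b c} (hw : w ≠ 0) :
    (AddCircle.toCircle (ang w) : ℂ) = eta w := by
  have h1 := one_le_emb h hw
  have h2 : (‖emb w‖ : ℂ) ≠ 0 := by exact_mod_cast (by linarith : ‖emb w‖ ≠ 0)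
  rw [ang, AddCircle.toCircle_apply_mk, Circle.coe_exp, eta, eq_div_iff h2, mul_comm]
  have h3 := Complex.norm_mul_exp_arg_mul_I (emb w)
  rw [← h3]
  congr 2
  · rw [h3]
  · push_cast
    rw [h3]
    have : (Real.pi : ℂ) ≠ 0 := by exact_mod_cast Real.pi_ne_zero
    field_simp

lemma fourier_ang (h : b ^ 2 < 4 * c) (k : ℤ) {w : Q b c} (hw : w ≠ 0) :
    (fourier k (ang w) : ℂ) = eta w ^ k := by
  rw [fourier_apply, AddCircle.toCircle_zsmul, Circle.coe_zpow, toCircle_ang h hw]

/-- the summand attached to a continuous function of the angle -/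
noncomputable def LL (F : Q b c → ℝ) (Ψ : C(AddCircle (2 * Real.pi), ℂ)) (s : ℝ) (w : Q b c) : ℂ :=
  (F w : ℂ) * Ψ (ang w) * (psi s w : ℂ)

lemma LL_norm_le (h : b ^ 2 < 4 * c) {F : Q b c → ℝ} (hF : ∀ w, w ≠ 0 → F w = 1 ∨ F w = -1)
    (Ψ : C(AddCircle (2 * Real.pi), ℂ)) {s : ℝ} (hs : s ≠ 0) (w : Q b c) :
    ‖LL F Ψ s w‖ ≤ ‖Ψ‖ * psi s w := by
  by_cases hw : w = 0
  · subst hw
    simp [LL, psi_zero hs]
  · have h1 : ‖(F w : ℂ)‖ = 1 := by
      rw [Complex.norm_real]
      rcases hF w hw with h1 | h1 <;> rw [h1] <;> norm_num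
    rw [LL, norm_mul, norm_mul, h1, one_mul, Complex.norm_real, Real.norm_eq_abs,
      abs_of_nonneg (psi_nonneg h s w)]
    gcongr
    · exact psi_nonneg h s w
    · exact Ψ.norm_coe_le_norm _

lemma LL_summable (h : b ^ 2 < 4 * c) {F : Q b c → ℝ} (hF : ∀ w, w ≠ 0 → F w = 1 ∨ F w = -1)
    (Ψ : C(AddCircle (2 * Real.pi), ℂ)) {s : ℝ} (hs : 1 < s) (hs2 : s ≤ 2) :
    Summable (LL F Ψ s) :=
  Summable.of_norm_bounded ((psi_summable h hs hs2).mul_left ‖Ψ‖)
    fun w => LL_norm_le h hF Ψ (by linarith) w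

/-- mean value zero against a continuous function of the angle -/
def MZ (F : Q b c → ℝ) (Ψ : C(AddCircle (2 * Real.pi), ℂ)) : Prop :=
  ∀ ε : ℝ, 0 < ε → ∀ᶠ s in 𝓝[>] (1 : ℝ), ‖∑' w, LL F Ψ s w‖ ≤ ε * z0 s

theorem mz_all [UniqueFactorizationMonoid (Q b c)] (hb : 0 ≤ b) (h : b ^ 2 < 4 * c)
    {F : Q b c → ℝ} (hF : MulSign F) (Ψ : C(AddCircle (2 * Real.pi), ℂ)) : MZ F Ψ := by
  have hspan : ∀ Φ ∈ Submodule.span ℂ (Set.range <| @fourier (2 * Real.pi)), MZ F Φ := by
    intro Φ hΦ
    induction hΦ using Submodule.span_induction with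
    | mem x hx =>
      obtain ⟨k, rfl⟩ := hx
      intro ε hε
      filter_upwards [mean_zero hb h hF k ε hε, ev12] with s h1 h2
      refine le_trans (le_of_eq ?_) h1
      congr 1
      refine tsum_congr fun w => ?_
      by_cases hw : w = 0
      · subst hw; simp [LL, psi_zero (by linarith [h2.1] : s ≠ 0)]
      · rw [LL, fourier_ang h k hw]
    | zero =>
      intro ε hε
      filter_upwards with s
      have : ∀ w, LL F 0 s w = 0 := fun w => by simp [LL]
      rw [tsum_congr this, tsum_zero, _root_.norm_zero]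
      exact mul_nonneg hε.le (z0_nonneg s)
    | add x y _ _ hx hy =>
      intro ε hε
      filter_upwards [hx (ε / 2) (by positivity), hy (ε / 2) (by positivity), ev12] with s h1 h2 h3
      have : ∀ w, LL F (x + y) s w = LL F x s w + LL F y s w := fun w => by
        simp only [LL, ContinuousMap.add_apply]; ring
      rw [tsum_congr this, (LL_summable h hF.one x h3.1 h3.2).tsum_add
        (LL_summable h hF.one y h3.1 h3.2)]
      refine (norm_add_le _ _).trans ?_
      linarith
    | smul a x _ hx =>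
      intro ε hε
      filter_upwards [hx (ε / (‖a‖ + 1)) (by positivity), ev12] with s h1 h3
      have : ∀ w, LL F (a • x) s w = a * LL F x s w := fun w => by
        simp only [LL, ContinuousMap.smul_apply, smul_eq_mul]; ring
      rw [tsum_congr this, tsum_mul_left, norm_mul]
      have hz := z0_nonneg s
      calc ‖a‖ * ‖∑' w, LL F x s w‖ ≤ ‖a‖ * (ε / (‖a‖ + 1) * z0 s) := by gcongr
        _ ≤ (‖a‖ + 1) * (ε / (‖a‖ + 1) * z0 s) := by
            gcongr
            linarith
        _ = ε * z0 s := by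
            have : ‖a‖ + 1 ≠ 0 := by positivity
            field_simp
  have hc : (0 : ℝ) < c := by
    have : 0 < c := by nlinarith [sq_nonneg b]
    exact_mod_cast this
  have hKK : 0 < KK c := by unfold KK; positivity
  intro ε hε
  have hmem : Ψ ∈ (Submodule.span ℂ (Set.range <| @fourier (2 * Real.pi))).topologicalClosure := by
    rw [span_fourier_closure_eq_top]; trivial
  have hmem' : Ψ ∈ closure (Submodule.span ℂ (Set.range <| @fourier (2 * Real.pi)) :
    Set (C(AddCircle (2 * Real.pi), ℂ))) := hmem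
  obtain ⟨Φ, hΦ, hd⟩ := Metric.mem_closure_iff.1 hmem' (ε / (2 * KK c)) (by positivity)
  filter_upwards [hspan Φ hΦ (ε / 2) (by positivity), ev12] with s h1 h2
  have hsp := LL_summable h hF.one (Ψ - Φ) h2.1 h2.2
  have heq : ∑' w, LL F Ψ s w = ∑' w, LL F (Ψ - Φ) s w + ∑' w, LL F Φ s w := by
    rw [← hsp.tsum_add (LL_summable h hF.one Φ h2.1 h2.2)]
    refine tsum_congr fun w => ?_
    simp only [LL, ContinuousMap.sub_apply]; ring
  have hn : ‖∑' w, LL F (Ψ - Φ) s w‖ ≤ ‖Ψ - Φ‖ * ∑' w : Q b c, psi s w :=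
    tsum_of_norm_bounded ((psi_summable h h2.1 h2.2).hasSum.mul_left _)
      fun w => LL_norm_le h hF.one _ (by linarith [h2.1]) w
  have hpsi := psi_tsum_le (b := b) h h2.1 h2.2
  have hz := z0_nonneg s
  have hd' : ‖Ψ - Φ‖ ≤ ε / (2 * KK c) := by rw [← dist_eq_norm]; exact hd.le
  rw [heq]
  calc _ ≤ ‖∑' w, LL F (Ψ - Φ) s w‖ + ‖∑' w, LL F Φ s w‖ := norm_add_le _ _
    _ ≤ ‖Ψ - Φ‖ * ∑' w : Q b c, psi s w + ε / 2 * z0 s := by gcongr
    _ ≤ ε / (2 * KK c) * (KK c * z0 s) + ε / 2 * z0 s := by
        have : 0 ≤ ∑' w : Q b c, psi s w := tsum_nonneg (psi_nonneg h s)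
        gcongr
    _ = ε * z0 s := by field_simp; ring


/-- cut-off function -/
noncomputable def cut (δ t : ℝ) : ℝ := max 0 (min 1 (t / δ))

lemma cut_nonneg (δ t : ℝ) : 0 ≤ cut δ t := le_max_left _ _

lemma cut_le_one (δ t : ℝ) : cut δ t ≤ 1 := max_le zero_le_one (min_le_left _ _)

lemma cut_of_nonpos {δ t : ℝ} (hδ : 0 < δ) (ht : t ≤ 0) : cut δ t = 0 := by
  unfold cut
  have : t / δ ≤ 0 := div_nonpos_of_nonpos_of_nonneg ht hδ.le
  rw [min_eq_right (by linarith), max_eq_left this]

lemma cut_of_ge {δ t : ℝ} (hδ : 0 < δ) (ht : δ ≤ t) : cut δ t = 1 := by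
  unfold cut
  have : 1 ≤ t / δ := by rw [le_div_iff₀ hδ]; linarith
  rw [min_eq_left this, max_eq_right zero_le_one]

lemma cut_continuous (δ : ℝ) : Continuous (cut δ) := by
  unfold cut; fun_prop

/-- continuous approximation to the indicator of a cone -/
noncomputable def coneFn (l r : Q b c) (δ : ℝ) : C(AddCircle (2 * Real.pi), ℂ) where
  toFun θ := ((cut δ ((star (emb l) * (AddCircle.toCircle θ : ℂ)).im / (zt b c).im)
    * cut δ ((star (AddCircle.toCircle θ : ℂ) * emb r).im / (zt b c).im) : ℝ) : ℂ)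
  continuous_toFun := by
    have h0 : Continuous (fun θ : AddCircle (2 * Real.pi) => (AddCircle.toCircle θ : ℂ)) :=
      continuous_induced_dom.comp AddCircle.continuous_toCircle
    have h0' : Continuous (fun θ : AddCircle (2 * Real.pi) => star (AddCircle.toCircle θ : ℂ)) :=
      continuous_star.comp h0
    refine Complex.continuous_ofReal.comp (Continuous.mul ?_ ?_)
    · refine (cut_continuous δ).comp (Continuous.div_const ?_ _)
      exact Complex.continuous_im.comp (continuous_const.mul h0)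
    · refine (cut_continuous δ).comp (Continuous.div_const ?_ _)
      exact Complex.continuous_im.comp (h0'.mul continuous_const)

lemma zt_im_pos (h : b ^ 2 < 4 * c) : 0 < (zt b c).im := by
  have : (b : ℝ) ^ 2 < 4 * c := by exact_mod_cast h
  have h1 : 0 < √(4 * (c : ℝ) - b ^ 2) := Real.sqrt_pos.2 (by linarith)
  simp only [zt]
  linarith

lemma emb_det (l w : Q b c) : (star (emb l) * emb w).im = det l w * (zt b c).im := by
  simp only [emb, det, Complex.star_def, map_add, map_mul, Complex.mul_im, Complex.add_re,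
    Complex.add_im, Complex.mul_re, Complex.conj_re, Complex.conj_im, Complex.intCast_re,
    Complex.intCast_im]
  push_cast
  ring

lemma coneFn_ang (h : b ^ 2 < 4 * c) (l r : Q b c) (δ : ℝ) {w : Q b c} (hw : w ≠ 0) :
    coneFn l r δ (ang w) = ((cut δ ((det l w : ℝ) / √((norm w : ℤ) : ℝ))
      * cut δ ((det w r : ℝ) / √((norm w : ℤ) : ℝ)) : ℝ) : ℂ) := by
  have hz := zt_im_pos h
  have h1 := one_le_emb h hw
  have hn : √((norm w : ℤ) : ℝ) = ‖emb w‖ := by
    rw [← emb_normSq h w, Real.sqrt_sq (norm_nonneg _)]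
  have e1 : (star (emb l) * eta w).im / (zt b c).im = (det l w : ℝ) / ‖emb w‖ := by
    have : star (emb l) * eta w = (star (emb l) * emb w) / (‖emb w‖ : ℂ) := by
      rw [eta]; ring
    rw [this, Complex.div_ofReal_im, emb_det]
    field_simp
  have e2 : (star (eta w) * emb r).im / (zt b c).im = (det w r : ℝ) / ‖emb w‖ := by
    have : star (eta w) * emb r = (star (emb w) * emb r) / (‖emb w‖ : ℂ) := by
      rw [eta, star_div₀]
      simp only [Complex.star_def, Complex.conj_ofReal]
      ring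
    rw [this, Complex.div_ofReal_im, emb_det]
    field_simp
  show ((cut δ ((star (emb l) * (AddCircle.toCircle (ang w) : ℂ)).im / (zt b c).im)
    * cut δ ((star (AddCircle.toCircle (ang w) : ℂ) * emb r).im / (zt b c).im) : ℝ) : ℂ) = _
  rw [toCircle_ang h hw, e1, e2, hn]

theorem secMean [UniqueFactorizationMonoid (Q b c)] (hb : 0 ≤ b) (h : b ^ 2 < 4 * c)
    {F : Q b c → ℝ} (hF : MulSign F) : SecMean F := by
  intro l r hp ε hε
  have hl1 := one_le_norm h hp.ne_zero_left
  have hr1 := one_le_norm h hp.ne_zero_right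
  set L : ℝ := √((norm l : ℤ) : ℝ) with hL
  set R : ℝ := √((norm r : ℤ) : ℝ) with hR
  have hL1 : 1 ≤ L := by rw [hL]; exact Real.one_le_sqrt.mpr hl1
  have hR1 : 1 ≤ R := by rw [hR]; exact Real.one_le_sqrt.mpr hr1
  set δ : ℝ := min (ε / 8) (min (1 / (2 * L)) (1 / (2 * R))) with hδ
  have hδ0 : 0 < δ := by
    rw [hδ]; refine lt_min (by positivity) (lt_min (by positivity) (by positivity))
  have hδ1 : δ ≤ ε / 8 := min_le_left _ _
  have hδL : δ * L ≤ 1 / 2 := by
    calc δ * L ≤ 1 / (2 * L) * L := by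
          gcongr
          exact (min_le_right _ _).trans (min_le_left _ _)
      _ = 1 / 2 := by field_simp
  have hδR : δ * R ≤ 1 / 2 := by
    calc δ * R ≤ 1 / (2 * R) * R := by
          gcongr
          exact (min_le_right _ _).trans (min_le_right _ _)
      _ = 1 / 2 := by field_simp
  filter_upwards [mz_all hb h hF (coneFn l r δ) (ε / 2) (by positivity), ev12] with s h1 h2
  have hsF : Summable ((cone l r).indicator (fun w => F w * psi s w)) :=
    Summable.of_norm_bounded (psi_summable h h2.1 h2.2) fun w => by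
      by_cases hw : w ∈ cone l r
      · rw [Set.indicator_of_mem hw, Real.norm_eq_abs, abs_mul, abs_of_nonneg (psi_nonneg h s w)]
        have h3 : |F w| = 1 := by
          rcases hF.one w (ne_zero_of_cone hw) with h4 | h4 <;> rw [h4] <;> norm_num
        rw [h3, one_mul]
      · rw [Set.indicator_of_notMem hw, _root_.norm_zero]
        exact psi_nonneg h s w
  have hsL := LL_summable h hF.one (coneFn l r δ) h2.1 h2.2
  have hsC : Summable (fun w => (((cone l r).indicator (fun w => F w * psi s w) w : ℝ) : ℂ)) := by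
    exact_mod_cast hsF
  have hdiff : ‖∑' w, ((((cone l r).indicator (fun w => F w * psi s w) w : ℝ) : ℂ)
      - LL F (coneFn l r δ) s w)‖ ≤ 4 * δ * z0 s := by
    have t1 := thin_left hb h hp h2.1 h2.2 hδ0.le hδR
    have t2 := thin_right hb h hp h2.1 h2.2 hδ0.le hδL
    set T1 : Set (Q b c) := {w | InCone l r w ∧ (det l w : ℝ) ≤ δ * √((norm w : ℤ) : ℝ)} with hT1
    set T2 : Set (Q b c) := {w | InCone l r w ∧ (det w r : ℝ) ≤ δ * √((norm w : ℤ) : ℝ)} with hT2
    have s1 := ind_summable h h2.1 h2.2 T1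
    have s2 := ind_summable h h2.1 h2.2 T2
    refine le_trans (tsum_of_norm_bounded (s1.add s2).hasSum fun w => ?_) ?_
    · have i1 : 0 ≤ T1.indicator (psi s) w := Set.indicator_nonneg (fun w _ => psi_nonneg h s w) w
      have i2 : 0 ≤ T2.indicator (psi s) w := Set.indicator_nonneg (fun w _ => psi_nonneg h s w) w
      by_cases hw0 : w = 0
      · subst hw0
        have e1 : LL F (coneFn l r δ) s 0 = 0 := by
          simp [LL, psi_zero (by linarith [h2.1] : s ≠ 0)]
        have e2 : (cone l r).indicator (fun w => F w * psi s w) 0 = 0 := by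
          rw [Set.indicator_of_notMem]
          intro h3
          exact ne_zero_of_cone h3 rfl
        rw [e1, e2, Complex.ofReal_zero, sub_zero, _root_.norm_zero]
        linarith
      have hn1 := one_le_norm h hw0
      have hsn : 0 < √((norm w : ℤ) : ℝ) := Real.sqrt_pos.2 (by linarith)
      have hFw : |F w| = 1 := by
        rcases hF.one w hw0 with h4 | h4 <;> rw [h4] <;> norm_num
      rw [LL, coneFn_ang h l r δ hw0]
      set a : ℝ := cut δ ((det l w : ℝ) / √((norm w : ℤ) : ℝ)) with ha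
      set b' : ℝ := cut δ ((det w r : ℝ) / √((norm w : ℤ) : ℝ)) with hb'
      by_cases hw : w ∈ cone l r
      · rw [Set.indicator_of_mem hw]
        have e1 : (((F w * psi s w : ℝ) : ℂ) - (F w : ℂ) * ((a * b' : ℝ) : ℂ) * (psi s w : ℂ))
            = ((F w * ((1 - a * b') * psi s w) : ℝ) : ℂ) := by push_cast; ring
        rw [e1, Complex.norm_real, Real.norm_eq_abs, abs_mul, hFw, one_mul]
        have a0 := cut_nonneg δ ((det l w : ℝ) / √((norm w : ℤ) : ℝ))
        have a1 := cut_le_one δ ((det l w : ℝ) / √((norm w : ℤ) : ℝ))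
        have b0 := cut_nonneg δ ((det w r : ℝ) / √((norm w : ℤ) : ℝ))
        have b1 := cut_le_one δ ((det w r : ℝ) / √((norm w : ℤ) : ℝ))
        rw [← ha] at a0 a1
        rw [← hb'] at b0 b1
        have hpsi := psi_nonneg h s w
        have hab : 0 ≤ 1 - a * b' := by nlinarith
        rw [abs_of_nonneg (mul_nonneg hab hpsi)]
        by_cases c1 : w ∈ T1
        · rw [Set.indicator_of_mem c1]
          nlinarith [mul_nonneg a0 b0]
        by_cases c2 : w ∈ T2
        · rw [Set.indicator_of_mem c2]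
          nlinarith [mul_nonneg a0 b0]
        have d1 : a = 1 := by
          rw [ha]
          refine cut_of_ge hδ0 ?_
          rw [le_div_iff₀ hsn]
          by_contra hlt
          push Not at hlt
          exact c1 ⟨hw, hlt.le⟩
        have d2 : b' = 1 := by
          rw [hb']
          refine cut_of_ge hδ0 ?_
          rw [le_div_iff₀ hsn]
          by_contra hlt
          push Not at hlt
          exact c2 ⟨hw, hlt.le⟩
        rw [d1, d2]
        norm_num
        linarith
      · rw [Set.indicator_of_notMem hw]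
        have hab : a * b' = 0 := by
          have h3 : ¬ (0 < det l w ∧ 0 < det w r) := hw
          by_cases h4 : 0 < det l w
          · have h5 : det w r ≤ 0 := by
              by_contra h6
              exact h3 ⟨h4, by omega⟩
            have h5' : (det w r : ℝ) ≤ 0 := by exact_mod_cast h5
            rw [hb', cut_of_nonpos hδ0 (div_nonpos_of_nonpos_of_nonneg h5' hsn.le), mul_zero]
          · have h5 : det l w ≤ 0 := by omega
            have h5' : (det l w : ℝ) ≤ 0 := by exact_mod_cast h5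
            rw [ha, cut_of_nonpos hδ0 (div_nonpos_of_nonpos_of_nonneg h5' hsn.le), zero_mul]
        rw [hab]
        simp only [Complex.ofReal_zero, mul_zero, zero_mul, sub_zero, _root_.norm_zero]
        linarith
    · rw [s1.tsum_add s2]
      linarith
  rw [hsC.tsum_sub hsL, ← Complex.ofReal_tsum] at hdiff
  set X : ℝ := ∑' w, (cone l r).indicator (fun w => F w * psi s w) w with hX
  have hz := z0_nonneg s
  have h5 : |X| = ‖(X : ℂ)‖ := by rw [Complex.norm_real, Real.norm_eq_abs]
  rw [h5]
  have h6 := norm_sub_norm_le (X : ℂ) (∑' w, LL F (coneFn l r δ) s w)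
  nlinarith

end Pool.Agent.SB
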