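import Mathlib
import Pool.Agent.Lib.MP_a17b09_nt.SB.Weyl

open QuadraticAlgebra ENNReal Filter Topology

namespace Pool.Agent.SB

variable {b c : ℤ}

/-- a completely multiplicative sign function on the positive integers -/
structure CM (g : ℕ → ℝ) : Prop where
  one : g 1 = 1
  mul : ∀ m n, m ≠ 0 → n ≠ 0 → g (m * n) = g m * g n
  sgn : ∀ n, n ≠ 0 → g n = 1 ∨ g n = -1

/-- the induced function on the ring -/
def Fg (b c : ℤ) (g : ℕ → ℝ) (w : Q b c) : ℝ := g (norm w).natAbs

lemma norm_unit (h : b ^ 2 < 4 * c) {e : Q b c} (he : IsUnit e) : norm e = 1 := by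
  have h3 := (isUnit_iff_norm_isUnit (x := e)).1 he
  have h4 := nm_nonneg h e
  rcases Int.isUnit_iff.1 h3 with h5 | h5
  · exact h5
  · omega

lemma norm_assoc (h : b ^ 2 < 4 * c) {v w : Q b c} (ha : Associated v w) : norm v = norm w := by
  obtain ⟨u, rfl⟩ := ha
  rw [map_mul, norm_unit h u.isUnit, mul_one]

lemma Fg_signFn (h : b ^ 2 < 4 * c) {g : ℕ → ℝ} (hg : CM g) : SignFn (Fg b c g) where
  one w hw := by
    have := nm_pos h w hw
    exact hg.sgn _ (by omega)
  smul n w hn := by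
    unfold Fg
    by_cases hw : w = 0
    · subst hw; simp
    have h1 := nm_pos h w hw
    rw [map_mul, norm_intCast, Int.cast_id, Int.natAbs_mul, hg.mul _ _ (by positivity) (by omega), Int.natAbs_pow,
      pow_two, hg.mul _ _ (by positivity) (by positivity)]
    rcases hg.sgn n.natAbs (by positivity) with h2 | h2 <;> rw [h2] <;> ring

/-- a rational prime dividing a value of the polynomial is the norm of a canonical prime -/
lemma exists_PP [UniqueFactorizationMonoid (Q b c)] (h : b ^ 2 < 4 * c) {p : ℕ} (hp : p.Prime)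
    {t : ℤ} (ht : (p : ℤ) ∣ fv b c t) : ∃ π ∈ PP b c, norm π = p := by
  have hp0 : ((p : ℤ) : Q b c) ≠ 0 := by
    intro h0
    have := congrArg QuadraticAlgebra.re h0
    simp at this
    exact hp.ne_zero this
  have hpn : norm ((p : ℤ) : Q b c) = (p : ℤ) ^ 2 := norm_intCast _
  have hpu : ¬ IsUnit ((p : ℤ) : Q b c) := by
    intro hu
    have := norm_unit h hu
    rw [hpn] at this
    have h2 := hp.two_le
    have : (2 : ℤ) ≤ p := by exact_mod_cast h2
    nlinarith
  obtain ⟨i, hi, hd⟩ := WfDvdMonoid.exists_irreducible_factor hpu hp0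
  have hip : Prime i := UniqueFactorizationMonoid.irreducible_iff_prime.1 hi
  have hnd : norm i ∣ (p : ℤ) ^ 2 := by rw [← hpn]; exact map_dvd QuadraticAlgebra.norm hd
  have hnpos := nm_pos h i hip.ne_zero
  have hnd' : (norm i).natAbs ∣ p ^ 2 := by
    have := Int.natAbs_dvd_natAbs.2 hnd
    simpa [Int.natAbs_pow] using this
  obtain ⟨k, hk, hk2⟩ := (Nat.dvd_prime_pow hp).1 hnd'
  have hval : norm i = (p : ℤ) ^ k := by
    have : ((norm i).natAbs : ℤ) = norm i := Int.natAbs_of_nonneg hnpos.le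
    rw [← this, hk2]; push_cast; rfl
  interval_cases k
  · exfalso
    apply hip.not_isUnit
    rw [isUnit_iff_norm_isUnit, hval, pow_zero]
    exact isUnit_one
  · refine ⟨rep i, rep_mem_PP hip, ?_⟩
    rw [norm_assoc h (rep_assoc i), hval, pow_one]
  · exfalso
    obtain ⟨u, hu⟩ := hd
    have hnu : norm u = 1 := by
      have h1 : norm ((p : ℤ) : Q b c) = norm i * norm u := by rw [hu, map_mul]
      rw [hpn, hval] at h1
      have hpz : (0 : ℤ) < (p : ℤ) ^ 2 := by have := hp.pos; positivity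
      exact (mul_left_cancel₀ hpz.ne' (by rw [mul_one]; exact h1)).symm
    have huu : IsUnit u := by rw [isUnit_iff_norm_isUnit, hnu]; exact isUnit_one
    have hass : Associated i ((p : ℤ) : Q b c) := by
      rw [hu]
      exact (associated_mul_unit_right i u huu)
    have hpp : Prime ((p : ℤ) : Q b c) := hass.prime hip
    have hprod : ((p : ℤ) : Q b c) ∣ al b c t * star (al b c t) := by
      rw [← algebraMap_norm_eq_mul_star, norm_al]
      obtain ⟨k, hk⟩ := ht
      rw [eq_intCast, hk, Int.cast_mul]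
      exact Dvd.intro _ rfl
    rcases hpp.dvd_or_dvd hprod with h1 | h1
    · obtain ⟨v, hv⟩ := h1
      have := congrArg QuadraticAlgebra.im hv
      simp [al] at this
      have h3 : (p : ℤ) ∣ 1 := ⟨v.im, this⟩
      exact hp.one_lt.ne' (by exact_mod_cast Int.eq_one_of_dvd_one (by positivity) h3)
    · obtain ⟨v, hv⟩ := h1
      have := congrArg QuadraticAlgebra.im hv
      simp [al] at this
      have h3 : (p : ℤ) ∣ 1 := ⟨-v.im, by linarith⟩
      exact hp.one_lt.ne' (by exact_mod_cast Int.eq_one_of_dvd_one (by positivity) h3)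


lemma mulSign_of_div (h : b ^ 2 < 4 * c) {g : ℕ → ℝ} (hg : CM g)
    (hdiv : ∀ M : ℝ, ∃ S : Finset (Q b c), (∀ π ∈ S, π ∈ PP b c) ∧
      M < ∑ π ∈ S, (1 - Fg b c g π) / ((norm π : ℤ) : ℝ)) : MulSign (Fg b c g) where
  one := (Fg_signFn h hg).one
  mul v w hv hw := by
    have h1 := nm_pos h v hv
    have h2 := nm_pos h w hw
    unfold Fg
    rw [map_mul, Int.natAbs_mul, hg.mul _ _ (by omega) (by omega)]
  unit e he := by
    unfold Fg
    rw [norm_unit h he]
    exact hg.one
  div := hdiv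

lemma Fg_le_one (h : b ^ 2 < 4 * c) {g : ℕ → ℝ} (hg : CM g) {w : Q b c} (hw : w ≠ 0) :
    0 ≤ 1 - Fg b c g w := by
  rcases (Fg_signFn h hg).one w hw with h1 | h1 <;> rw [h1] <;> norm_num

/-- the set of primes where `g = -1` that divide some value of the polynomial -/
def badPrimes (b c : ℤ) (g : ℕ → ℝ) : Set ℕ :=
  {p | p.Prime ∧ g p = -1 ∧ ∃ t : ℤ, (p : ℤ) ∣ fv b c t}

theorem mulSign_of_not_summable [UniqueFactorizationMonoid (Q b c)] (h : b ^ 2 < 4 * c)
    {g : ℕ → ℝ} (hg : CM g)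
    (hns : ¬ Summable (fun p : badPrimes b c g => (1 : ℝ) / (p : ℕ))) : MulSign (Fg b c g) := by
  classical
  refine mulSign_of_div h hg fun M => ?_
  have hex : ∀ p : badPrimes b c g, ∃ π ∈ PP b c, norm π = ((p : ℕ) : ℤ) := by
    rintro ⟨p, hp, _, t, ht⟩
    exact exists_PP h hp ht
  choose f hfP hfn using hex
  have hinj : Function.Injective f := by
    intro p q hpq
    have h1 := hfn p
    have h2 := hfn q
    rw [hpq, h2] at h1
    exact Subtype.ext (by exact_mod_cast h1.symm)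
  have hbig : ∃ u : Finset (badPrimes b c g), M < ∑ p ∈ u, (1 : ℝ) / (p : ℕ) := by
    by_contra hcon
    push Not at hcon
    exact hns (summable_of_sum_le (fun p => by positivity) hcon)
  obtain ⟨u, hu⟩ := hbig
  refine ⟨u.image f, ?_, ?_⟩
  · intro π hπ
    obtain ⟨p, _, rfl⟩ := Finset.mem_image.1 hπ
    exact hfP p
  · rw [Finset.sum_image hinj.injOn]
    refine hu.trans_le (Finset.sum_le_sum fun p _ => ?_)
    have h1 : Fg b c g (f p) = -1 := by
      unfold Fg
      rw [hfn p]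
      exact p.2.2.1
    rw [h1, hfn p]
    push_cast
    have : (0 : ℝ) ≤ ((p : ℕ) : ℝ) := Nat.cast_nonneg _
    gcongr
    norm_num

/-- every canonical prime has norm a prime `p`, or is the representative of a prime `p`. -/
lemma PP_cases [IsCancelMulZero (Q b c)] (h : b ^ 2 < 4 * c) {π : Q b c} (hπ : π ∈ PP b c) :
    ∃ p : ℕ, p.Prime ∧ (norm π = p ∨ (norm π = (p : ℤ) ^ 2 ∧ π = rep ((p : ℤ) : Q b c))) := by
  classical
  have hn := norm_PP h hπ
  have hex : ∃ m : ℕ, 0 < m ∧ π ∣ ((m : ℤ) : Q b c) := by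
    refine ⟨(norm π).natAbs, by omega, ?_⟩
    have h1 : (((norm π).natAbs : ℤ)) = norm π := Int.natAbs_of_nonneg (by omega)
    rw [h1]
    have h2 := algebraMap_norm_eq_mul_star π
    rw [eq_intCast] at h2
    exact ⟨star π, h2⟩
  set p := Nat.find hex with hp
  obtain ⟨hp0, hpd⟩ := Nat.find_spec hex
  rw [← hp] at hp0 hpd
  have hmin : ∀ m : ℕ, m < p → 0 < m → ¬ π ∣ ((m : ℤ) : Q b c) := by
    intro m hm hm0 hd
    exact Nat.find_min hex hm ⟨hm0, hd⟩
  have hp1 : p ≠ 1 := by
    intro h1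
    rw [h1] at hpd
    apply hπ.1.not_isUnit
    exact isUnit_of_dvd_one (by simpa using hpd)
  have hpp : p.Prime := by
    rw [Nat.prime_def]
    refine ⟨by omega, fun m hm => ?_⟩
    obtain ⟨k, hk⟩ := hm
    have hm0 : 0 < m := Nat.pos_of_ne_zero (by rintro rfl; simp at hk; omega)
    have hk0 : 0 < k := Nat.pos_of_ne_zero (by rintro rfl; simp at hk; omega)
    rw [hk] at hpd
    push_cast at hpd
    rcases hπ.1.dvd_or_dvd hpd with h1 | h1
    · right
      by_contra hne
      have hlt : m < p := lt_of_le_of_ne (Nat.le_of_dvd hp0 ⟨k, hk⟩) hne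
      exact hmin m hlt hm0 (by simpa using h1)
    · left
      by_contra hne
      have hkp : k ≠ p := by
        intro hkp
        rw [hkp] at hk
        have : m * p = 1 * p := by rw [one_mul]; exact hk.symm
        exact hne (Nat.eq_of_mul_eq_mul_right hp0 this)
      have hlt : k < p := lt_of_le_of_ne (Nat.le_of_dvd hp0 ⟨m, by rw [hk]; ring⟩) hkp
      exact hmin k hlt hk0 (by simpa using h1)
  refine ⟨p, hpp, ?_⟩
  have hpn : norm ((p : ℤ) : Q b c) = (p : ℤ) ^ 2 := norm_intCast _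
  obtain ⟨u, hu⟩ := hpd
  have hnd : norm π ∣ (p : ℤ) ^ 2 := by
    rw [← hpn, hu, map_mul]; exact Dvd.intro _ rfl
  have hnd' : (norm π).natAbs ∣ p ^ 2 := by
    have := Int.natAbs_dvd_natAbs.2 hnd
    simpa [Int.natAbs_pow] using this
  obtain ⟨k, hk, hk2⟩ := (Nat.dvd_prime_pow hpp).1 hnd'
  have hval : norm π = (p : ℤ) ^ k := by
    have : ((norm π).natAbs : ℤ) = norm π := Int.natAbs_of_nonneg (by omega)
    rw [← this, hk2]; push_cast; rfl
  interval_cases k
  · rw [pow_zero] at hval; omega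
  · left; rw [hval, pow_one]
  · right
    refine ⟨hval, ?_⟩
    have hnu : norm u = 1 := by
      have h1 : norm ((p : ℤ) : Q b c) = norm π * norm u := by rw [hu, map_mul]
      rw [hpn, hval] at h1
      have hpz : (0 : ℤ) < (p : ℤ) ^ 2 := by have := hpp.pos; positivity
      exact (mul_left_cancel₀ hpz.ne' (by rw [mul_one]; exact h1)).symm
    have huu : IsUnit u := by rw [isUnit_iff_norm_isUnit, hnu]; exact isUnit_one
    have hass : Associated π ((p : ℤ) : Q b c) := by
      rw [hu]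
      exact (associated_mul_unit_right π u huu)
    rw [← rep_eq_of_assoc hass, hπ.2]

/-- The sum of the reciprocals of the norms of all primes diverges. -/
theorem PP_div [UniqueFactorizationMonoid (Q b c)] (hb : 0 ≤ b) (h : b ^ 2 < 4 * c) (M : ℝ) :
    ∃ S : Finset (Q b c), (∀ π ∈ S, π ∈ PP b c) ∧ M < ∑ π ∈ S, (1 : ℝ) / ((norm π : ℤ) : ℝ) := by
  classical
  by_contra hcon
  push Not at hcon
  set U : Set (Q b c) := {w | IsUnit w} with hU
  set K : ℝ := (∑' w : Q b c, psi 2 w + 1 / 2) * Real.exp (2 * M) with hK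
  obtain ⟨s, h1, h2⟩ := (ev12.and (total_tendsto hb h K)).exists
  have hsum := psi_summable (b := b) (c := c) h h1.1 h1.2
  have hsum2 := psi_summable (b := b) (c := c) h (by norm_num : (1 : ℝ) < 2) le_rfl
  have hlim := tendsto_tsum_compl_atTop_zero (fun w : Q b c => psi s w)
  obtain ⟨T, hT⟩ := (hlim.eventually (gt_mem_nhds (by norm_num : (0 : ℝ) < 1 / 2))).exists
  obtain ⟨S, hS, hST⟩ := exists_S T
  have hT' : ∑' w, ({w | w ∉ T} : Set (Q b c)).indicator (psi s) w ≤ 1 / 2 := by
    rw [← tsum_subtype]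
    exact hT.le
  have hpos : ∀ w : Q b c, 0 ≤ psi s w := psi_nonneg h s
  have hunit : ∀ (s' : ℝ) (w : Q b c), IsUnit w → psi s' w = 1 := by
    intro s' w hw
    rw [psi, norm_unit h hw]; simp
  have hR1 : ∑' w, (RS S).indicator (psi s) w ≤ ∑' w : Q b c, psi 2 w + 1 / 2 := by
    calc ∑' w, (RS S).indicator (psi s) w
        ≤ ∑' w, (psi 2 w + ({w | w ∉ T} : Set (Q b c)).indicator (psi s) w) := by
          refine (hsum.indicator _).tsum_le_tsum (fun w => ?_) (hsum2.add (hsum.indicator _))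
          have i1 : 0 ≤ psi 2 w := psi_nonneg h 2 w
          have i2 : 0 ≤ ({w | w ∉ T} : Set (Q b c)).indicator (psi s) w :=
            Set.indicator_nonneg (fun w _ => hpos w) w
          by_cases hw : w ∈ RS S
          · rw [Set.indicator_of_mem hw]
            by_cases h0 : w = 0
            · rw [h0, psi_zero (by linarith [h1.1])]; rw [h0] at i1 i2; linarith
            by_cases h1 : IsUnit w
            · rw [hunit s w h1, hunit 2 w h1]; linarith
            · rw [Set.indicator_of_mem (show w ∈ ({w | w ∉ T} : Set (Q b c)) from hST w hw h0 h1)]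
              linarith
          · rw [Set.indicator_of_notMem hw]; linarith
      _ = ∑' w : Q b c, psi 2 w + ∑' w, ({w | w ∉ T} : Set (Q b c)).indicator (psi s) w :=
          hsum2.tsum_add (hsum.indicator _)
      _ ≤ _ := by linarith
  have r2 := removal (𝕜 := ℝ) (psi_mul h s) hsum S hS
  rw [r2] at hR1
  have hfac : ∀ π ∈ S, Real.exp (-(2 * (1 / ((norm π : ℤ) : ℝ)))) ≤ 1 - psi s π := by
    intro π hπ
    obtain ⟨x0, x1, x2⟩ := psi_PP_le h (hS π hπ) h1.1.le
    have h3 : 1 / (1 - psi s π) ≤ Real.exp (2 * (1 / ((norm π : ℤ) : ℝ))) := by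
      have h4 := Real.add_one_le_exp (2 * (1 / ((norm π : ℤ) : ℝ)))
      refine le_trans ?_ h4
      rw [div_le_iff₀ (by linarith)]
      rw [one_div] at *
      nlinarith
    rw [Real.exp_neg]
    have h5 : 0 < 1 - psi s π := by linarith
    rw [one_div] at h3
    exact inv_le_of_inv_le₀ h5 h3
  have hprod : Real.exp (-(2 * M)) ≤ ∏ π ∈ S, (1 - psi s π) := by
    calc Real.exp (-(2 * M)) ≤ Real.exp (∑ π ∈ S, (-(2 * (1 / ((norm π : ℤ) : ℝ))))) := by
          rw [Real.exp_le_exp, Finset.sum_neg_distrib, ← Finset.mul_sum]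
          have := hcon S hS
          linarith
      _ = ∏ π ∈ S, Real.exp (-(2 * (1 / ((norm π : ℤ) : ℝ)))) := Real.exp_sum _ _
      _ ≤ _ := Finset.prod_le_prod (fun _ _ => (Real.exp_pos _).le) hfac
  have hZ0 : 0 ≤ ∑' w : Q b c, psi s w := tsum_nonneg hpos
  have h6 : Real.exp (-(2 * M)) * ∑' w : Q b c, psi s w ≤ ∑' w : Q b c, psi 2 w + 1 / 2 := by
    refine le_trans ?_ hR1
    gcongr
  have h7 : ∑' w : Q b c, psi s w ≤ K := by
    rw [hK]
    have e : ∑' w : Q b c, psi s w
        = (Real.exp (-(2 * M)) * ∑' w : Q b c, psi s w) * Real.exp (2 * M) := by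
      rw [mul_comm (Real.exp (-(2 * M))), mul_assoc, ← Real.exp_add]; simp
    rw [e]
    gcongr
  linarith

theorem mulSign_of_all [UniqueFactorizationMonoid (Q b c)] (hb : 0 ≤ b) (h : b ^ 2 < 4 * c)
    {g : ℕ → ℝ} (hg : CM g) (hall : ∀ p : ℕ, p.Prime → g p = -1) : MulSign (Fg b c g) := by
  classical
  refine mulSign_of_div h hg fun M => ?_
  obtain ⟨S, hS, hM⟩ := PP_div (b := b) (c := c) hb h (|M| + z0 (3 / 2))
  choose! pr hpr using fun (π : Q b c) (hπ : π ∈ PP b c) => PP_cases h hπ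
  have hsplit := Finset.sum_filter_add_sum_filter_not S (fun π => QuadraticAlgebra.norm π = (pr π : ℤ))
    (fun π => (1 : ℝ) / ((QuadraticAlgebra.norm π : ℤ) : ℝ))
  have h2 : ∑ π ∈ S with ¬ QuadraticAlgebra.norm π = (pr π : ℤ), (1 : ℝ) / ((QuadraticAlgebra.norm π : ℤ) : ℝ) ≤ z0 (3 / 2) := by
    have hprop : ∀ π ∈ S.filter (fun π => ¬ QuadraticAlgebra.norm π = (pr π : ℤ)),
        (pr π).Prime ∧ norm π = (pr π : ℤ) ^ 2 ∧ π = rep ((pr π : ℤ) : Q b c) := by
      intro π hπ
      obtain ⟨h3, h4⟩ := Finset.mem_filter.1 hπ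
      obtain ⟨h5, h6⟩ := hpr π (hS π h3)
      rcases h6 with h7 | h7
      · exact absurd h7 h4
      · exact ⟨h5, h7.1, h7.2⟩
    have hinj : Set.InjOn (fun π => pr π - 1) (S.filter (fun π => ¬ QuadraticAlgebra.norm π = (pr π : ℤ)) : Finset (Q b c)) := by
      intro π hπ π' hπ' heq
      have a1 := hprop π hπ
      have a2 := hprop π' hπ'
      simp only at heq
      have := a1.1.pos
      have := a2.1.pos
      have e : pr π = pr π' := by omega
      rw [a1.2.2, a2.2.2, e]
    have h8 : ∑ π ∈ S with ¬ QuadraticAlgebra.norm π = (pr π : ℤ), (1 : ℝ) / ((QuadraticAlgebra.norm π : ℤ) : ℝ)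
        = ∑ n ∈ (S.filter (fun π => ¬ QuadraticAlgebra.norm π = (pr π : ℤ))).image (fun π => pr π - 1),
          ((n : ℝ) + 1) ^ (1 - 2 * (3 / 2 : ℝ)) := by
      rw [Finset.sum_image hinj]
      refine Finset.sum_congr rfl fun π hπ => ?_
      obtain ⟨a1, a2, _⟩ := hprop π hπ
      have hp := a1.pos
      have e : ((pr π - 1 : ℕ) : ℝ) + 1 = pr π := by
        rw [Nat.cast_sub hp]; push_cast; ring
      rw [e, a2, show (1 : ℝ) - 2 * (3 / 2) = -(2 : ℕ) by norm_num, Real.rpow_neg (by positivity),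
        Real.rpow_natCast]
      push_cast
      rw [one_div]
    rw [h8]
    exact (z0_summable (by norm_num : (1 : ℝ) < 3 / 2)).sum_le_tsum _ fun _ _ => by positivity
  refine ⟨S.filter (fun π => QuadraticAlgebra.norm π = (pr π : ℤ)), fun π hπ => hS π (Finset.mem_filter.1 hπ).1, ?_⟩
  have h3 : ∑ π ∈ S with QuadraticAlgebra.norm π = (pr π : ℤ), (1 : ℝ) / ((QuadraticAlgebra.norm π : ℤ) : ℝ)
      ≤ ∑ π ∈ S with QuadraticAlgebra.norm π = (pr π : ℤ), (1 - Fg b c g π) / ((norm π : ℤ) : ℝ) := by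
    refine Finset.sum_le_sum fun π hπ => ?_
    obtain ⟨h4, h5⟩ := Finset.mem_filter.1 hπ
    have h6 := hpr π (hS π h4)
    have h7 : Fg b c g π = -1 := by
      unfold Fg
      rw [h5]
      exact hall _ h6.1
    have h8 := norm_PP h (hS π h4)
    have h9 : (0 : ℝ) < ((norm π : ℤ) : ℝ) := by exact_mod_cast (by omega : 0 < norm π)
    rw [h7]
    gcongr
    norm_num
  have := le_abs_self M
  linarith

end Pool.Agent.SB
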