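import Mathlib
import Pool.Agent.Lib.MP_a17b09_nt.SB.PrimeDiv
import Pool.Agent.Lib.MP_a17b09_nt.SB.Moment

open QuadraticAlgebra ENNReal Filter Topology

namespace Pool.Agent.SB

variable {b c : ℤ}

/-- the set of `t` where `g` is `-1` at the value of the polynomial -/
def EE (b c : ℤ) (g : ℕ → ℝ) : Set ℕ := {t | g (fv b c t).natAbs = -1}

lemma fv_pos (hb : 0 ≤ b) (h : b ^ 2 < 4 * c) (t : ℕ) : 0 < fv b c t := by
  have hc : 1 ≤ c := by nlinarith [sq_nonneg b]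
  unfold fv; positivity

theorem ds_lower [UniqueFactorizationMonoid (Q b c)] (hb : 0 ≤ b) (h : b ^ 2 < 4 * c)
    {g : ℕ → ℝ} (hg : CM g) (hF : MulSign (Fg b c g)) :
    ∃ δ : ℝ, 0 < δ ∧ ∀ T : ℕ, 1 ≤ T → ENNReal.ofReal δ ≤ DS b c (EE b c g) T := by
  refine tail_lower hb h (Fg_signFn h hg) (secMean hb h hF) (EE b c g) ?_
  intro l r hp hne
  have hc : 1 ≤ c := by nlinarith [sq_nonneg b]
  have h1 := nm_pos h l hp.ne_zero_left
  have h2 := nm_pos h r hp.ne_zero_right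
  have h3 := hp.tv_nonneg hb (by omega)
  show g (fv b c ((tv l r).toNat : ℕ)).natAbs = -1
  rw [Int.toNat_of_nonneg h3, ← hp.norm_mul, Int.natAbs_mul, hg.mul _ _ (by omega) (by omega)]
  unfold Fg at hne
  rcases hg.sgn (norm l).natAbs (by omega) with h4 | h4 <;>
    rcases hg.sgn (norm r).natAbs (by omega) with h5 | h5 <;> rw [h4, h5] at hne ⊢ <;>
    first | exact absurd rfl hne | norm_num

lemma block_le (E : Set ℕ) [DecidablePred (· ∈ E)] {C K : ℝ} (hC : 0 < C)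
    (hK : 0 ≤ K)
    (hmom : ∀ N : ℕ, 1 ≤ N →
      ∑ t ∈ Finset.Icc 1 N, (tau (fv b c t).natAbs : ℝ) ^ 2 ≤ C * N * (1 + Real.log N) ^ 32)
    (k : ℕ)
    (hcount : (((Finset.Icc 1 (2 ^ (k + 1))).filter (· ∈ E)).card : ℝ)
      ≤ K * ((2 : ℝ) ^ (k + 1) / (Real.log ((2 : ℝ) ^ (k + 1))) ^ 35)) :
    ∑ t ∈ (Finset.Ico (2 ^ k) (2 ^ (k + 1))).filter (· ∈ E), (tau (fv b c t).natAbs : ℝ) / t
      ≤ 2 * √(K * C * 2 ^ 67) * ((k : ℝ) + 1) ^ (1 - 2 * (5 / 4 : ℝ)) := by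
  set N : ℝ := (2 : ℝ) ^ (k + 1) with hN
  set A := (Finset.Ico (2 ^ k) (2 ^ (k + 1))).filter (· ∈ E) with hA
  have hAsub : A ⊆ (Finset.Icc 1 (2 ^ (k + 1))).filter (· ∈ E) := by
    intro t ht
    rw [hA, Finset.mem_filter, Finset.mem_Ico] at ht
    rw [Finset.mem_filter, Finset.mem_Icc]
    have : 1 ≤ 2 ^ k := Nat.one_le_two_pow
    exact ⟨⟨by omega, by omega⟩, ht.2⟩
  have hcardA : (A.card : ℝ) ≤ K * (N / (Real.log N) ^ 35) :=
    le_trans (by exact_mod_cast Finset.card_le_card hAsub) hcount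
  have hmomA : ∑ t ∈ A, (tau (fv b c t).natAbs : ℝ) ^ 2 ≤ C * N * (1 + Real.log N) ^ 32 := by
    have h1 := hmom (2 ^ (k + 1)) Nat.one_le_two_pow
    push_cast at h1
    refine le_trans ?_ h1
    refine Finset.sum_le_sum_of_subset_of_nonneg (hAsub.trans (Finset.filter_subset _ _))
      fun _ _ _ => by positivity
  have hk1 : (0 : ℝ) < (k : ℝ) + 1 := by positivity
  have hlogN : Real.log N = ((k : ℝ) + 1) * Real.log 2 := by
    rw [hN, Real.log_pow]; push_cast; ring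
  have hlog1 : ((k : ℝ) + 1) / 2 ≤ Real.log N := by
    rw [hlogN]
    have := Real.log_two_gt_d9
    nlinarith
  have hlog2 : 1 + Real.log N ≤ 2 * ((k : ℝ) + 1) := by
    rw [hlogN]
    have := Real.log_two_lt_d9
    have : (1 : ℝ) ≤ (k : ℝ) + 1 := by have := Nat.cast_nonneg (α := ℝ) k; linarith
    nlinarith
  have hN0 : 0 < N := by positivity
  have hlogpos : 0 < Real.log N := by linarith [hlog1, (by positivity : 0 < ((k : ℝ) + 1) / 2)]
  have hCS : (∑ t ∈ A, (tau (fv b c t).natAbs : ℝ)) ^ 2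
      ≤ (K * C * 2 ^ 67) * (N * ((k : ℝ) + 1) ^ (1 - 2 * (5 / 4 : ℝ))) ^ 2 := by
    have h1 : (∑ t ∈ A, (tau (fv b c t).natAbs : ℝ)) ^ 2
        ≤ A.card * ∑ t ∈ A, (tau (fv b c t).natAbs : ℝ) ^ 2 := sq_sum_le_card_mul_sum_sq
    have h2 : ((k : ℝ) + 1) ^ (1 - 2 * (5 / 4 : ℝ)) ^ 2 = ((k : ℝ) + 1) ^ (1 - 2 * (5 / 4 : ℝ)) ^ 2 := rfl
    have h3 : (((k : ℝ) + 1) ^ (1 - 2 * (5 / 4 : ℝ))) ^ 2 = (((k : ℝ) + 1) ^ 3)⁻¹ := by
      rw [← Real.rpow_natCast, ← Real.rpow_mul hk1.le,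
        show (1 - 2 * (5 / 4 : ℝ)) * (2 : ℕ) = -(3 : ℕ) by norm_num, Real.rpow_neg hk1.le,
        Real.rpow_natCast]
    have h4 : (1 + Real.log N) ^ 32 ≤ 2 ^ 32 * ((k : ℝ) + 1) ^ 32 := by
      calc (1 + Real.log N) ^ 32 ≤ (2 * ((k : ℝ) + 1)) ^ 32 := by gcongr
        _ = _ := by rw [mul_pow]
    have h5 : 1 / (Real.log N) ^ 35 ≤ 2 ^ 35 * (((k : ℝ) + 1) ^ 35)⁻¹ := by
      calc 1 / (Real.log N) ^ 35 ≤ 1 / (((k : ℝ) + 1) / 2) ^ 35 := by gcongr
        _ = _ := by rw [div_pow]; field_simp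
    calc (∑ t ∈ A, (tau (fv b c t).natAbs : ℝ)) ^ 2
        ≤ (K * (N / (Real.log N) ^ 35)) * (C * N * (1 + Real.log N) ^ 32) := by
          refine h1.trans ?_
          have : 0 ≤ ∑ t ∈ A, (tau (fv b c t).natAbs : ℝ) ^ 2 := Finset.sum_nonneg fun _ _ => by positivity
          gcongr
      _ = (K * C * N ^ 2) * (1 / (Real.log N) ^ 35) * (1 + Real.log N) ^ 32 := by ring
      _ ≤ (K * C * N ^ 2) * (2 ^ 35 * (((k : ℝ) + 1) ^ 35)⁻¹) * (2 ^ 32 * ((k : ℝ) + 1) ^ 32) := by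
          gcongr
      _ = (K * C * 2 ^ 67) * (N ^ 2 * (((k : ℝ) + 1) ^ 3)⁻¹) := by
          field_simp
      _ = _ := by rw [mul_pow, h3]
  have hS0 : 0 ≤ ∑ t ∈ A, (tau (fv b c t).natAbs : ℝ) := Finset.sum_nonneg fun _ _ => by positivity
  have hS : ∑ t ∈ A, (tau (fv b c t).natAbs : ℝ)
      ≤ √(K * C * 2 ^ 67) * (N * ((k : ℝ) + 1) ^ (1 - 2 * (5 / 4 : ℝ))) := by
    refine le_of_sq_le_sq ?_ (by positivity)
    rw [mul_pow, Real.sq_sqrt (by positivity)]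
    exact hCS
  have h2k : (0 : ℝ) < 2 ^ k := by positivity
  calc ∑ t ∈ A, (tau (fv b c t).natAbs : ℝ) / t
      ≤ ∑ t ∈ A, (tau (fv b c t).natAbs : ℝ) / 2 ^ k := by
        refine Finset.sum_le_sum fun t ht => ?_
        rw [hA, Finset.mem_filter, Finset.mem_Ico] at ht
        have : ((2 : ℝ) ^ k) ≤ t := by exact_mod_cast ht.1.1
        gcongr
    _ = (∑ t ∈ A, (tau (fv b c t).natAbs : ℝ)) / 2 ^ k := by rw [Finset.sum_div]
    _ ≤ (√(K * C * 2 ^ 67) * (N * ((k : ℝ) + 1) ^ (1 - 2 * (5 / 4 : ℝ)))) / 2 ^ k := by gcongr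
    _ = _ := by
        rw [hN, pow_succ]
        field_simp
        ring


theorem count_freq [UniqueFactorizationMonoid (Q b c)] (hb : 0 ≤ b) (h : b ^ 2 < 4 * c)
    {g : ℕ → ℝ} (hg : CM g) (hF : MulSign (Fg b c g)) (K : ℝ) (hK : 0 < K)
    [DecidablePred (· ∈ EE b c g)] :
    ∃ᶠ N : ℕ in atTop, K * ((N : ℝ) / (Real.log N) ^ 35)
      ≤ ((Finset.Icc 1 N).filter (· ∈ EE b c g)).card := by
  by_contra hcon
  rw [Filter.not_frequently] at hcon
  obtain ⟨N0, hN0⟩ := Filter.eventually_atTop.1 hcon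
  obtain ⟨C, hC, hmom⟩ := second_moment b c hb h
  obtain ⟨δ, hδ, hDS⟩ := ds_lower hb h hg hF
  set C2 : ℝ := 2 * √(K * C * 2 ^ 67) with hC2
  have hC2' : 0 ≤ C2 := by positivity
  have htail := _root_.tendsto_sum_nat_add (fun n : ℕ => C2 * ((n : ℝ) + 1) ^ (1 - 2 * (5 / 4 : ℝ)))
  obtain ⟨k0, hk0, hk0N⟩ := ((htail.eventually (gt_mem_nhds hδ)).and
    (eventually_ge_atTop N0)).exists
  have hsummable : Summable (fun n : ℕ => C2 * ((n : ℝ) + 1) ^ (1 - 2 * (5 / 4 : ℝ))) :=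
    (z0_summable (by norm_num : (1 : ℝ) < 5 / 4)).mul_left C2
  have hcount : ∀ k : ℕ, k0 ≤ k → (((Finset.Icc 1 (2 ^ (k + 1))).filter (· ∈ EE b c g)).card : ℝ)
      ≤ K * ((2 : ℝ) ^ (k + 1) / (Real.log ((2 : ℝ) ^ (k + 1))) ^ 35) := by
    intro k hk
    have h1 : N0 ≤ 2 ^ (k + 1) := by
      have : k + 1 < 2 ^ (k + 1) := Nat.lt_two_pow_self
      omega
    have h2 := hN0 _ h1
    push Not at h2
    push_cast at h2
    exact h2.le
  have hpart : ∀ m : ℕ, ∑ t ∈ Finset.range (2 ^ (k0 + m)), (if t ∈ EE b c g ∧ 2 ^ k0 ≤ t then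
      ((fv b c t).natAbs.divisors.card : ℝ≥0∞) * ENNReal.ofReal (1 / (t : ℝ)) else 0)
      ≤ ENNReal.ofReal (∑ k ∈ Finset.range m, C2 * (((k + k0 : ℕ) : ℝ) + 1) ^ (1 - 2 * (5 / 4 : ℝ))) := by
    intro m
    induction m with
    | zero =>
      simp only [add_zero, Finset.range_zero, Finset.sum_empty, ENNReal.ofReal_zero, nonpos_iff_eq_zero]
      refine Finset.sum_eq_zero fun t ht => ?_
      rw [Finset.mem_range] at ht
      rw [if_neg (by omega)]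
    | succ m ih =>
      have hle : 2 ^ (k0 + m) ≤ 2 ^ (k0 + (m + 1)) := Nat.pow_le_pow_right (by norm_num) (by omega)
      rw [Finset.range_eq_Ico, ← Finset.sum_Ico_consecutive _ (Nat.zero_le _) hle,
        ← Finset.range_eq_Ico, Finset.sum_range_succ, ENNReal.ofReal_add
          (Finset.sum_nonneg fun _ _ => by positivity) (by positivity)]
      refine add_le_add ih ?_
      have hblock := block_le (EE b c g) hC hK.le hmom (m + k0) (hcount (m + k0) (by omega))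
      rw [show k0 + (m + 1) = m + k0 + 1 by ring, show k0 + m = m + k0 by ring]
      refine le_trans ?_ (ENNReal.ofReal_le_ofReal hblock)
      rw [ENNReal.ofReal_sum_of_nonneg fun _ _ => by positivity, Finset.sum_filter]
      refine Finset.sum_le_sum fun t ht => ?_
      by_cases h1 : t ∈ EE b c g
      · rw [if_pos h1]
        split_ifs with h2
        · rw [div_eq_mul_one_div (tau _ : ℝ), ENNReal.ofReal_mul (Nat.cast_nonneg _),
            ENNReal.ofReal_natCast]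
          rfl
        · exact zero_le
      · rw [if_neg h1, if_neg (fun h2 => h1 h2.1)]
  have hfin : DS b c (EE b c g) (2 ^ k0) ≤ ENNReal.ofReal
      (∑' k, C2 * (((k + k0 : ℕ) : ℝ) + 1) ^ (1 - 2 * (5 / 4 : ℝ))) := by
    classical
    unfold DS
    refine ENNReal.tsum_le_of_sum_range_le fun n => ?_
    have h1 : Finset.range n ⊆ Finset.range (2 ^ (k0 + n)) := by
      rw [Finset.range_subset_range]
      have : n < 2 ^ n := Nat.lt_two_pow_self
      have h2 : 2 ^ n ≤ 2 ^ (k0 + n) := Nat.pow_le_pow_right (by norm_num) (by omega)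
      omega
    refine (Finset.sum_le_sum_of_subset h1).trans ?_
    have h2 := hpart n
    refine le_trans (le_of_eq ?_) (h2.trans (ENNReal.ofReal_le_ofReal ?_))
    · refine Finset.sum_congr rfl fun t _ => ?_
      congr 1
    · exact ((summable_nat_add_iff k0).2 hsummable).sum_le_tsum _ fun _ _ => by positivity
  have h3 := (hDS (2 ^ k0) Nat.one_le_two_pow).trans hfin
  rw [ENNReal.ofReal_le_ofReal_iff (tsum_nonneg fun _ => by positivity)] at h3
  linarith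

end Pool.Agent.SB
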