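import Mathlib
import Pool.Agent.Lib.MP_a17b09_nt.SB.Pairs

open QuadraticAlgebra

namespace Pool.Agent.SB

variable {b c : ℤ}

lemma noZeroDiv (h : b ^ 2 < 4 * c) : NoZeroDivisors (Q b c) where
  eq_zero_or_eq_zero_of_mul_eq_zero := by
    intro v w hvw
    by_contra hcon
    push Not at hcon
    have h1 := nm_pos h v hcon.1
    have h2 := nm_pos h w hcon.2
    have h3 : norm (v * w) = 0 := by rw [hvw, QuadraticAlgebra.norm_zero]
    rw [map_mul] at h3
    have := mul_pos h1 h2
    omega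

/-- `t + ω` -/
def tw (b c t : ℤ) : Q b c := ⟨t, 1⟩

lemma norm_tw (t : ℤ) : norm (tw b c t) = fv b c t := by
  rw [nm_def, tw, fv]; ring

lemma fv_pos' (h : b ^ 2 < 4 * c) (t : ℤ) : 0 < fv b c t := by
  unfold fv; nlinarith [sq_nonneg (2 * t + b)]

lemma norm_eq_mul_star (w : Q b c) : ((norm w : ℤ) : Q b c) = w * star w := by
  have h2 := algebraMap_norm_eq_mul_star w
  rwa [eq_intCast] at h2

/-- reduction step: every divisor of a value of the polynomial is the norm of a divisor of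
`t + ω`. -/
theorem star_lemma (h : b ^ 2 < 4 * c)
    (hsmall : ∀ a : ℕ, 2 ≤ a → 3 * (a : ℤ) ^ 2 ≤ 4 * c - b ^ 2 → ∀ t : ℤ, ¬ (a : ℤ) ∣ fv b c t) :
    ∀ (a : ℕ), 1 ≤ a → ∀ t : ℤ, (a : ℤ) ∣ fv b c t → ∃ w : Q b c, norm w = a ∧ w ∣ tw b c t := by
  intro a
  induction a using Nat.strong_induction_on with
  | _ a ih =>
    intro ha t ht
    rcases Nat.lt_or_ge a 2 with h1 | h2
    · have : a = 1 := by omega
      subst this
      exact ⟨1, by simp, one_dvd _⟩
    have hbig : 4 * c - b ^ 2 < 3 * (a : ℤ) ^ 2 := by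
      by_contra hle
      push Not at hle
      exact hsmall a h2 hle t ht
    have haz : (0 : ℤ) < a := by exact_mod_cast (by omega : 0 < a)
    set k : ℤ := (2 * t + b + a) / (2 * a) with hk
    set t' : ℤ := t - a * k with ht'
    have hk1 : 2 * a * k ≤ 2 * t + b + a := by
      have := Int.mul_ediv_self_le (x := 2 * t + b + a) (k := 2 * a) (by positivity)
      linarith
    have hk2 : 2 * t + b + a < 2 * a * k + 2 * a := by
      have := Int.lt_mul_ediv_self_add (x := 2 * t + b + a) (k := 2 * a) (by positivity)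
      linarith
    have hr : (2 * t' + b) ^ 2 ≤ (a : ℤ) ^ 2 := by
      have e1 : 2 * t' + b = 2 * t + b - 2 * a * k := by rw [ht']; ring
      apply sq_le_sq'
      · rw [e1]; linarith
      · rw [e1]; linarith
    have hdt' : (a : ℤ) ∣ fv b c t' := by
      have e : fv b c t' = fv b c t + a * (k * (a * k - 2 * t - b)) := by
        rw [ht']; unfold fv; ring
      rw [e]
      exact dvd_add ht (Dvd.intro _ rfl)
    obtain ⟨a', ha'⟩ := hdt'
    have hfpos := fv_pos' h t'
    have h4f : 4 * fv b c t' = (2 * t' + b) ^ 2 + (4 * c - b ^ 2) := by unfold fv; ring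
    have ha'pos : 0 < a' := by
      rw [ha'] at hfpos
      exact (mul_pos_iff_of_pos_left haz).1 hfpos
    have ha'lt : a' < a := by
      have : 4 * ((a : ℤ) * a') < 4 * (a : ℤ) ^ 2 := by rw [← ha', h4f]; linarith
      nlinarith
    obtain ⟨n, rfl⟩ := Int.eq_ofNat_of_zero_le ha'pos.le
    obtain ⟨w', hw', v, hv⟩ := ih n (by omega) (by omega) t' ⟨a, by rw [ha']; ring⟩
    have hnv : norm v = a := by
      have h5 : norm (tw b c t') = norm w' * norm v := by rw [hv, map_mul]
      rw [norm_tw, ha', hw'] at h5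
      have : (n : ℤ) * norm v = n * a := by linarith
      exact mul_left_cancel₀ ha'pos.ne' this
    refine ⟨v, hnv, ?_⟩
    have e : tw b c t = tw b c t' + ((a : ℤ) : Q b c) * ((k : ℤ) : Q b c) := by
      rw [← Int.cast_mul]
      ext
      · simp [tw, ht']
      · simp [tw]
    rw [e]
    refine dvd_add (Dvd.intro_left _ hv.symm) ?_
    rw [← hnv, norm_eq_mul_star]
    exact Dvd.dvd.mul_right (Dvd.intro _ rfl) _

lemma sub_phi (t : ℤ) (u : Q b c) :
    u = ((u.re - t * u.im : ℤ) : Q b c) + ((u.im : ℤ) : Q b c) * tw b c t := by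
  ext
  · simp [tw]; ring
  · simp [tw]

lemma prime_of {p : ℕ} (hp : p.Prime) {t : ℤ} {π : Q b c}
    (hn : norm π = p) (hd : π ∣ tw b c t) : Prime π := by
  have hdn : ∀ n : ℤ, π ∣ (n : Q b c) ↔ (p : ℤ) ∣ n := by
    intro n
    constructor
    · rintro ⟨v, hv⟩
      have h1 : norm ((n : ℤ) : Q b c) = norm π * norm v := by rw [hv, map_mul]
      rw [norm_intCast, hn] at h1
      have h2 : (p : ℤ) ∣ n ^ 2 := ⟨norm v, h1⟩
      exact (Nat.prime_iff_prime_int.1 hp).dvd_of_dvd_pow h2
    · rintro ⟨k, rfl⟩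
      rw [Int.cast_mul, ← hn, norm_eq_mul_star]
      exact Dvd.dvd.mul_right (Dvd.intro _ rfl) _
  have hphi : ∀ u : Q b c, π ∣ u ↔ (p : ℤ) ∣ u.re - t * u.im := by
    intro u
    rw [← hdn]
    conv_lhs => rw [sub_phi t u]
    exact dvd_add_left (hd.mul_left _)
  refine ⟨?_, ?_, ?_⟩
  · rintro rfl
    rw [QuadraticAlgebra.norm_zero] at hn
    exact hp.ne_zero (by exact_mod_cast hn.symm)
  · intro hu
    have h3 := (isUnit_iff_norm_isUnit (x := π)).1 hu
    rw [hn] at h3
    have := Int.isUnit_iff.1 h3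
    have := hp.two_le
    omega
  · intro u v huv
    rw [hphi u, hphi v]
    have h1 : π ∣ ((u.re - t * u.im : ℤ) : Q b c) * ((v.re - t * v.im : ℤ) : Q b c) := by
      have e : u * v = ((u.re - t * u.im : ℤ) : Q b c) * ((v.re - t * v.im : ℤ) : Q b c)
          + tw b c t * (((u.im : ℤ) : Q b c) * v
            + ((u.re - t * u.im : ℤ) : Q b c) * ((v.im : ℤ) : Q b c)) := by
        conv_lhs => rw [sub_phi t u]
        conv_lhs => enter [2]; rw [sub_phi t v]
        conv_rhs => enter [2, 2, 1, 2]; rw [sub_phi t v]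
        ring
      rw [e] at huv
      exact (dvd_add_left (hd.mul_right _)).1 huv
    rw [← Int.cast_mul, hdn] at h1
    exact (Nat.prime_iff_prime_int.1 hp).dvd_or_dvd h1

lemma inert_dvd {p : ℕ} (hp : p.Prime) (hin : ∀ t : ℤ, ¬ (p : ℤ) ∣ fv b c t) {u : Q b c}
    (hu : (p : ℤ) ∣ norm u) : ((p : ℤ) : Q b c) ∣ u := by
  have hpp := Nat.prime_iff_prime_int.1 hp
  have hy : (p : ℤ) ∣ u.im := by
    by_contra hny
    have hcop : IsCoprime (u.im) (p : ℤ) := by
      rw [isCoprime_comm]
      exact (hpp.coprime_iff_not_dvd).2 hny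
    obtain ⟨y', q, hyq⟩ := hcop
    apply hin (u.re * y')
    have h1 : (p : ℤ) ∣ u.im ^ 2 * fv b c (u.re * y') := by
      rw [nm_def] at hu
      obtain ⟨k, hk⟩ := hu
      have hyy : y' * u.im = 1 - q * p := by linarith
      refine ⟨k + u.re ^ 2 * (q ^ 2 * p - 2 * q) - b * u.re * u.im * q, ?_⟩
      unfold fv
      have e : u.im ^ 2 * ((u.re * y') ^ 2 + b * (u.re * y') + c)
          = u.re ^ 2 * (y' * u.im) ^ 2 + b * u.re * u.im * (y' * u.im) + c * u.im ^ 2 := by ring
      rw [e, hyy]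
      linear_combination hk
    rcases hpp.dvd_or_dvd h1 with h2 | h2
    · exact absurd (hpp.dvd_of_dvd_pow h2) hny
    · exact h2
  have hx : (p : ℤ) ∣ u.re := by
    rw [nm_def] at hu
    have h1 : (p : ℤ) ∣ u.re ^ 2 := by
      have h2 : (p : ℤ) ∣ b * u.re * u.im + c * u.im ^ 2 := by
        refine dvd_add (hy.mul_left _) ?_
        rw [pow_two, ← mul_assoc]
        exact hy.mul_left _
      have e : u.re ^ 2 = (u.re ^ 2 + b * u.re * u.im + c * u.im ^ 2)
          - (b * u.re * u.im + c * u.im ^ 2) := by ring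
      rw [e]
      exact dvd_sub hu h2
    exact hpp.dvd_of_dvd_pow h1
  obtain ⟨x', hx'⟩ := hx
  obtain ⟨y', hy'⟩ := hy
  refine ⟨⟨x', y'⟩, ?_⟩
  ext
  · simp [hx']
  · simp [hy']

theorem exists_prime_dvd (h : b ^ 2 < 4 * c)
    (hsmall : ∀ a : ℕ, 2 ≤ a → 3 * (a : ℤ) ^ 2 ≤ 4 * c - b ^ 2 → ∀ t : ℤ, ¬ (a : ℤ) ∣ fv b c t)
    {w : Q b c} (hw0 : w ≠ 0) (hwu : ¬ IsUnit w) : ∃ π : Q b c, Prime π ∧ π ∣ w := by
  have hn := nm_pos h w hw0
  have hn1 : (norm w).natAbs ≠ 1 := by
    intro h1
    apply hwu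
    rw [isUnit_iff_norm_isUnit, Int.isUnit_iff_natAbs_eq]
    exact h1
  obtain ⟨p, hp, hpd⟩ := Nat.exists_prime_and_dvd hn1
  have hpd' : (p : ℤ) ∣ norm w := Int.natCast_dvd.2 hpd
  by_cases hin : ∀ t : ℤ, ¬ (p : ℤ) ∣ fv b c t
  · refine ⟨((p : ℤ) : Q b c), ?_, inert_dvd hp hin hpd'⟩
    refine ⟨?_, ?_, ?_⟩
    · intro h0
      have := congrArg QuadraticAlgebra.re h0
      simp at this
      exact hp.ne_zero this
    · intro hu
      have h3 := (isUnit_iff_norm_isUnit (x := ((p : ℤ) : Q b c))).1 hu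
      rw [norm_intCast] at h3
      have h4 := Int.isUnit_iff.1 h3
      have h5 : (2 : ℤ) ≤ p := by exact_mod_cast hp.two_le
      rcases h4 with h6 | h6
      · simp only [Int.cast_id] at h6; nlinarith
      · simp only [Int.cast_id] at h6; nlinarith
    · intro u v huv
      obtain ⟨k, hk⟩ := huv
      have h6 : norm u * norm v = (p : ℤ) ^ 2 * norm k := by
        rw [← map_mul, hk, map_mul, norm_intCast]; rfl
      have h7 : (p : ℤ) ∣ norm u * norm v := by
        rw [h6, pow_two, mul_assoc]; exact Dvd.intro _ rfl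
      rcases (Nat.prime_iff_prime_int.1 hp).dvd_or_dvd h7 with h8 | h8
      · left; exact inert_dvd hp hin h8
      · right; exact inert_dvd hp hin h8
  · push Not at hin
    obtain ⟨t, ht⟩ := hin
    obtain ⟨π, hπn, hπd⟩ := star_lemma h hsmall p hp.one_le t ht
    have hπ : Prime π := prime_of hp hπn hπd
    have hstar : Prime (star π) := by
      refine prime_of (t := -t - b) hp (by rw [QuadraticAlgebra.norm_star]; exact hπn) ?_
      obtain ⟨v, hv⟩ := hπd
      refine ⟨-(star v), ?_⟩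
      have h1 : star (tw b c t) = star π * star v := by rw [hv, star_mul, mul_comm]
      have h2 : tw b c (-t - b) = - star (tw b c t) := by
        ext
        · simp [tw]; ring
        · simp [tw]
      rw [h2, h1]; ring
    have hdiv : π ∣ w * star w := by
      rw [← norm_eq_mul_star]
      obtain ⟨k, hk⟩ := hpd'
      rw [hk, Int.cast_mul, ← hπn, norm_eq_mul_star]
      exact Dvd.dvd.mul_right (Dvd.intro _ rfl) _
    rcases hπ.dvd_or_dvd hdiv with h1 | h1
    · exact ⟨π, hπ, h1⟩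
    · refine ⟨star π, hstar, ?_⟩
      obtain ⟨v, hv⟩ := h1
      refine ⟨star v, ?_⟩
      have : star (star w) = star π * star v := by rw [hv, star_mul, mul_comm]
      rwa [star_star] at this

theorem ufd_of_small (h : b ^ 2 < 4 * c)
    (hsmall : ∀ a : ℕ, 2 ≤ a → 3 * (a : ℤ) ^ 2 ≤ 4 * c - b ^ 2 → ∀ t : ℤ, ¬ (a : ℤ) ∣ fv b c t) :
    UniqueFactorizationMonoid (Q b c) := by
  have := noZeroDiv h
  have : IsDomain (Q b c) := NoZeroDivisors.to_isDomain _
  refine UniqueFactorizationMonoid.of_exists_prime_factors ?_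
  have key : ∀ n : ℕ, ∀ a : Q b c, a ≠ 0 → (norm a).natAbs ≤ n →
      ∃ f : Multiset (Q b c), (∀ b ∈ f, Prime b) ∧ Associated f.prod a := by
    intro n
    induction n with
    | zero =>
      intro a ha hn
      have := nm_pos h a ha
      omega
    | succ n ih =>
      intro a ha hn
      by_cases hu : IsUnit a
      · refine ⟨0, by simp, ?_⟩
        rw [Multiset.prod_zero]
        exact (associated_one_iff_isUnit.2 hu).symm
      obtain ⟨π, hπ, v, hv⟩ := exists_prime_dvd h hsmall ha hu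
      have hv0 : v ≠ 0 := by rintro rfl; rw [mul_zero] at hv; exact ha hv
      have h1 := nm_pos h v hv0
      have h2 := nm_pos h π hπ.ne_zero
      have h3 : norm π ≠ 1 := by
        intro h3
        apply hπ.not_isUnit
        rw [isUnit_iff_norm_isUnit, h3]
        exact isUnit_one
      have h4 : norm a = norm π * norm v := by rw [hv, map_mul]
      have h5 : 2 ≤ norm π := by omega
      have h6 : norm v < norm a := by rw [h4]; nlinarith
      obtain ⟨f, hf, hfa⟩ := ih v hv0 (by omega)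
      refine ⟨π ::ₘ f, ?_, ?_⟩
      · intro b hb
        rcases Multiset.mem_cons.1 hb with rfl | hb
        · exact hπ
        · exact hf b hb
      · rw [Multiset.prod_cons, hv]
        exact hfa.mul_left π
  intro a ha
  exact key _ a ha le_rfl

end Pool.Agent.SB
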