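import Mathlib
import Pool.Agent.Lib.MP_a17b09_nt.SB.Final
import Pool.Agent.Lib.MP_a17b09_nt.SB.Ufd

open Filter

namespace Pool.Agent.SB

open Classical in
/-- number of prime factors in `P`, with multiplicity -/
noncomputable def cntP (P : Set ℕ) (n : ℕ) : ℕ :=
  n.primeFactorsList.countP (fun p => decide (p ∈ P))

lemma cntP_mul (P : Set ℕ) {m n : ℕ} (hm : m ≠ 0) (hn : n ≠ 0) :
    cntP P (m * n) = cntP P m + cntP P n := by
  classical
  unfold cntP
  rw [(Nat.perm_primeFactorsList_mul hm hn).countP_eq, List.countP_append]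

/-- the sign function attached to `P` -/
noncomputable def gP (P : Set ℕ) (n : ℕ) : ℝ := (-1) ^ (cntP P n)

lemma gP_cm (P : Set ℕ) : CM (gP P) where
  one := by simp [gP, cntP]
  mul m n hm hn := by unfold gP; rw [cntP_mul P hm hn, pow_add]
  sgn n _ := neg_one_pow_eq_or ℝ _

lemma gP_prime (P : Set ℕ) {p : ℕ} (hp : p.Prime) (hpP : p ∈ P) : gP P p = -1 := by
  unfold gP cntP
  rw [Nat.primeFactorsList_prime hp]
  simp [hpP]

lemma gP_eq_neg_one (P : Set ℕ) (n : ℕ) : gP P n = -1 ↔ Odd (cntP P n) := by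
  unfold gP
  rw [neg_one_pow_eq_neg_one_iff_odd (by norm_num)]

/-- The nine imaginary quadratic polynomials of class number one. -/
def nine : Set (ℤ × ℤ) := {(0, 1), (0, 2), (1, 1), (1, 2), (1, 3), (1, 5), (1, 11), (1, 17), (1, 41)}

lemma not_dvd_of_zmod (b c : ℤ) (a : ℕ) (ha : ∀ x : ZMod a, x ^ 2 + b * x + c ≠ 0) (t : ℤ) :
    ¬ (a : ℤ) ∣ fv b c t := by
  intro hd
  have h1 := (ZMod.intCast_zmod_eq_zero_iff_dvd (fv b c t) a).2 hd
  unfold fv at h1
  push_cast at h1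
  exact ha (t : ZMod a) h1

lemma nine_facts {b c : ℤ} (h : (b, c) ∈ nine) :
    0 ≤ b ∧ b ^ 2 < 4 * c ∧
      (∀ a : ℕ, 2 ≤ a → 3 * (a : ℤ) ^ 2 ≤ 4 * c - b ^ 2 → ∀ t : ℤ, ¬ (a : ℤ) ∣ fv b c t) := by
  simp only [nine, Set.mem_insert_iff, Set.mem_singleton_iff, Prod.mk.injEq] at h
  rcases h with h | h | h | h | h | h | h | h | h <;> obtain ⟨rfl, rfl⟩ := h
  all_goals
    refine ⟨by norm_num, by norm_num, ?_⟩
    intro a ha h3 t
    have ha7 : a ≤ 7 := by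
      by_contra hlt
      push Not at hlt
      have : (8 : ℤ) ≤ a := by exact_mod_cast hlt
      nlinarith
    interval_cases a <;> first
      | (exfalso; norm_num at h3; done)
      | (apply not_dvd_of_zmod; decide)

lemma summable_transfer (b c : ℤ) (P : Set ℕ)
    (hs : Summable (fun p : badPrimes b c (gP P) => (1 : ℝ) / (p : ℕ))) :
    Summable (fun p : {p : ℕ // p.Prime ∧ p ∈ P ∧
      ∃ t : ℤ, (p : ℤ) ∣ t ^ 2 + b * t + c} => (1 : ℝ) / (p : ℕ)) := by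
  have hmem : ∀ p : {p : ℕ // p.Prime ∧ p ∈ P ∧ ∃ t : ℤ, (p : ℤ) ∣ t ^ 2 + b * t + c},
      p.1 ∈ badPrimes b c (gP P) := by
    rintro ⟨p, hp, hpP, t, ht⟩
    refine ⟨hp, gP_prime P hp hpP, t, ?_⟩
    unfold fv
    exact ht
  have he : Function.Injective (fun p : {p : ℕ // p.Prime ∧ p ∈ P ∧
      ∃ t : ℤ, (p : ℤ) ∣ t ^ 2 + b * t + c} => (⟨p.1, hmem p⟩ : badPrimes b c (gP P))) := by
    intro p q hpq
    simp only [Subtype.mk.injEq] at hpq
    exact Subtype.ext hpq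
  have h1 := hs.comp_injective he
  refine h1.congr fun p => ?_
  rfl

theorem nine_main (b c : ℤ) (h : (b, c) ∈ nine) (P : Set ℕ)
    (hP : (∀ p : ℕ, p.Prime → p ∈ P) ∨ ¬ Summable (fun p : {p : ℕ // p.Prime ∧ p ∈ P ∧
      ∃ t : ℤ, (p : ℤ) ∣ t ^ 2 + b * t + c} => (1 : ℝ) / (p : ℕ)))
    (K : ℝ) (hK : 0 < K) :
    ∃ᶠ N : ℕ in atTop, K * ((N : ℝ) / (Real.log N) ^ 35) ≤
      (Set.ncard {t : ℕ | 1 ≤ t ∧ t ≤ N ∧ Odd (cntP P ((t : ℤ) ^ 2 + b * t + c).toNat)} : ℝ) := by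
  classical
  obtain ⟨hb, hc, hsmall⟩ := nine_facts h
  have := ufd_of_small hc hsmall
  have hF : MulSign (Fg b c (gP P)) := by
    rcases hP with hP | hP
    · exact mulSign_of_all hb hc (gP_cm P) fun p hp => gP_prime P hp (hP p hp)
    · refine mulSign_of_not_summable hc (gP_cm P) fun hs => hP ?_
      exact summable_transfer b c P hs
  refine (count_freq hb hc (gP_cm P) hF K hK).mono fun N hN => hN.trans (le_of_eq ?_)
  rw [← Set.ncard_coe_finset]
  congr 2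
  ext t
  rw [Finset.coe_filter, Set.mem_ofPred_eq, Set.mem_ofPred_eq, Finset.mem_Icc]
  have h1 := fv_pos hb hc t
  have h2 : (fv b c t).natAbs = ((t : ℤ) ^ 2 + b * t + c).toNat := by
    unfold fv at h1 ⊢; omega
  rw [← h2, ← gP_eq_neg_one, and_assoc]
  rfl

end Pool.Agent.SB
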