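import Pool.Agent.Lib.MP_a17b09_nt.SB.Nine

set_option autoImplicit false

namespace Pool.Agent.Results.MP_a17b09_nt.OddLogPower

open Classical in
/-- The number of prime factors of `n` that lie in the set `P`, counted with multiplicity. -/
noncomputable def omegaIn (P : Set ℕ) (n : ℕ) : ℕ :=
  n.primeFactorsList.countP (fun p => decide (p ∈ P))

/-- Let `f` be one of `t²+1`, `t²+2`, `t²+t+1`, `t²+t+2`, `t²+t+3`, `t²+t+5`, `t²+t+11`, `t²+t+17`,
`t²+t+41`, and let `P` be a set of natural numbers that contains all primes, or such that the sum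
of `1/p` over the primes `p ∈ P` dividing some value of `f` diverges. Then for every real `K` there
are infinitely many `N` such that at least `K N / (log N)^35` integers `1 ≤ t ≤ N` have `f(t)` with
an odd number of prime factors in `P`, counted with multiplicity. -/
theorem result (b c : ℤ)
    (hbc : (b, c) ∈ ({(0, 1), (0, 2), (1, 1), (1, 2), (1, 3), (1, 5), (1, 11), (1, 17), (1, 41)} :
      Set (ℤ × ℤ)))
    (P : Set ℕ)
    (hP : (∀ p : ℕ, p.Prime → p ∈ P) ∨ ¬ Summable (fun p : {p : ℕ // p.Prime ∧ p ∈ P ∧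
      ∃ t : ℤ, (p : ℤ) ∣ t ^ 2 + b * t + c} => (1 : ℝ) / (p : ℕ)))
    (K : ℝ) :
    ∃ᶠ N : ℕ in Filter.atTop, K * ((N : ℝ) / (Real.log N) ^ 35) ≤
      (Set.ncard {t : ℕ | 1 ≤ t ∧ t ≤ N ∧
        Odd (omegaIn P ((t : ℤ) ^ 2 + b * t + c).toNat)} : ℝ) := by
  refine (Pool.Agent.SB.nine_main b c hbc P hP (max K 1) (by positivity)).mono fun N hN =>
    le_trans ?_ hN
  have h1 : 0 ≤ (N : ℝ) / (Real.log N) ^ 35 := by
    have : 0 ≤ Real.log N := Real.log_natCast_nonneg N
    positivity
  exact mul_le_mul_of_nonneg_right (le_max_left _ _) h1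

end Pool.Agent.Results.MP_a17b09_nt.OddLogPower
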